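import Pool.Agent.J3.Defs

/-!
# J3: module COEF (coefficient facts derived from a `Setup`)
-/

set_option autoImplicit false

namespace J3
open Finsupp

/-! ### A general interpolation identity -/
section interp
variable {R : Type*} [CommRing R]

/-- `∏_{i<j} (u^l - u^i)` -/
def COEF_P (u : R) (j l : ℕ) : R := ∏ i ∈ Finset.range j, (u ^ l - u ^ i)

theorem COEF_P_succ (u : R) (j l : ℕ) : COEF_P u (j + 1) l = COEF_P u j l * (u ^ l - u ^ j) := by
  unfold COEF_P; rw [Finset.prod_range_succ]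

theorem COEF_P_shift (u : R) (j l : ℕ) :
    COEF_P u (j + 1) (l + 1) = u ^ j * (u ^ (l + 1) - 1) * COEF_P u j l := by
  unfold COEF_P
  rw [Finset.prod_range_succ']
  have h : ∀ i ∈ Finset.range j, (u ^ (l + 1) - u ^ (i + 1)) = u * (u ^ l - u ^ i) := by
    intro i _; ring
  rw [Finset.prod_congr rfl h, Finset.prod_mul_distrib, Finset.prod_const, Finset.card_range]
  ring

theorem COEF_P_zero (u : R) {j l : ℕ} (h : l < j) : COEF_P u j l = 0 := by
  unfold COEF_P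
  exact Finset.prod_eq_zero (Finset.mem_range.2 h) (sub_self _)

theorem COEF_P_diff (u : R) (j l : ℕ) :
    COEF_P u (j + 1) (l + 1) - COEF_P u (j + 1) l = COEF_P u j l * u ^ l * (u ^ (j + 1) - 1) := by
  rw [COEF_P_shift, COEF_P_succ]; ring

/-- triangular exponents -/
def COEF_tri : ℕ → ℕ
  | 0 => 0
  | n + 1 => COEF_tri n + n

theorem COEF_tel (u v : R) (huv : u * v = 1) (l N : ℕ) :
    ∑ k ∈ Finset.range N, (-1) ^ k * v ^ (COEF_tri (k + 1)) * u ^ l * COEF_P u k l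
      = 1 - (-1) ^ N * v ^ (COEF_tri N) * COEF_P u N l := by
  induction N with
  | zero => simp [COEF_tri, COEF_P]
  | succ N ih =>
    rw [Finset.sum_range_succ, ih, COEF_P_succ]
    have h : u ^ N * v ^ N = 1 := by rw [← mul_pow, huv, one_pow]
    have h2 : v ^ (COEF_tri (N + 1)) = v ^ (COEF_tri N) * v ^ N := by
      rw [COEF_tri, pow_add]
    rw [h2, pow_succ]
    linear_combination (-1) ^ N * v ^ (COEF_tri N) * COEF_P u N l * h

theorem COEF_sum (u v τ : R) (huv : u * v = 1) (kk : ℕ → R) (M : ℕ)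
    (hk : ∀ j < M, kk j * (u ^ (j + 1) - 1) = (-1) ^ j * τ * v ^ (COEF_tri (j + 1))) (l : ℕ) (hl : l ≤ M) :
    ∑ j ∈ Finset.range M, kk j * COEF_P u (j + 1) l = (l : R) * τ := by
  induction l with
  | zero =>
    simp only [Nat.cast_zero, zero_mul]
    refine Finset.sum_eq_zero (fun j _ => ?_)
    rw [COEF_P_zero u (Nat.succ_pos j), mul_zero]
  | succ l ih =>
    have ih' := ih (by omega)
    have h1 : ∑ j ∈ Finset.range M, kk j * COEF_P u (j + 1) (l + 1)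
        = ∑ j ∈ Finset.range M, kk j * COEF_P u (j + 1) l
          + τ * ∑ k ∈ Finset.range M, (-1) ^ k * v ^ (COEF_tri (k + 1)) * u ^ l * COEF_P u k l := by
      rw [Finset.mul_sum, ← Finset.sum_add_distrib]
      refine Finset.sum_congr rfl (fun j hj => ?_)
      have h2 := COEF_P_diff u j l
      have h3 := hk j (Finset.mem_range.1 hj)
      have h4 : COEF_P u (j + 1) (l + 1)
          = COEF_P u (j + 1) l + COEF_P u j l * u ^ l * (u ^ (j + 1) - 1) := by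
        rw [← h2]; ring
      rw [h4]
      linear_combination COEF_P u j l * u ^ l * h3
    rw [h1, ih', COEF_tel u v huv l M, COEF_P_zero u (show l < M by omega)]
    push_cast
    ring

end interp

section
variable {O A K : Type} [CommRing O] [IsDomain O] [CommRing A] [IsDomain A]
    [CommRing K] [IsDomain K] [Algebra A K] (s : Setup O A K)

/-! ### The element `q ^ δ` in `A` -/

/-- `q` as a unit of `A` -/
noncomputable def COEF_qA : Aˣ := s.q_isUnit.unit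

/-- `q ^ δ` in `A` -/
noncomputable def COEF_Q (δ : ℤ) : A := ((COEF_qA s ^ δ : Aˣ) : A)

theorem COEF_qA_val : ((COEF_qA s : Aˣ) : A) = s.q := rfl

theorem COEF_Q_map (δ : ℤ) : s.Q δ = algebraMap A K (COEF_Q s δ) := by
  have h : s.qU = Units.map (algebraMap A K : A →* K) (COEF_qA s) := rfl
  unfold Setup.Q COEF_Q
  rw [h, ← map_zpow]
  rfl

theorem COEF_Q_zero : COEF_Q s 0 = 1 := by simp [COEF_Q]
theorem COEF_Q_one : COEF_Q s 1 = s.q := by simp [COEF_Q, COEF_qA_val]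
theorem COEF_Q_add (x y : ℤ) : COEF_Q s (x + y) = COEF_Q s x * COEF_Q s y := by
  unfold COEF_Q; rw [zpow_add]; rfl
theorem COEF_Q_isUnit (x : ℤ) : IsUnit (COEF_Q s x) := ⟨_, rfl⟩
theorem COEF_Q_neg (x : ℤ) : COEF_Q s (-x) * COEF_Q s x = 1 := by
  rw [← COEF_Q_add, neg_add_cancel, COEF_Q_zero]
theorem COEF_Q_nat (n : ℕ) : COEF_Q s n = s.q ^ n := by
  unfold COEF_Q; rw [zpow_natCast, Units.val_pow_eq_pow_val, COEF_qA_val]

/-- additivity of `s.Q` -/
theorem COEF_Qadd (x y : ℤ) : s.Q (x + y) = s.Q x * s.Q y := by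
  rw [COEF_Q_map, COEF_Q_map, COEF_Q_map, COEF_Q_add, map_mul]
theorem COEF_Qzero : s.Q 0 = 1 := by rw [COEF_Q_map, COEF_Q_zero, map_one]
theorem COEF_Qneg (x : ℤ) : s.Q (-x) * s.Q x = 1 := by
  rw [← COEF_Qadd, neg_add_cancel, COEF_Qzero]
theorem COEF_Qunit (x : ℤ) : IsUnit (s.Q x) := ⟨_, rfl⟩

theorem COEF_tz_add (x y : ℤ) : s.tz (x + y) = s.tz x * s.tz y := by
  unfold Setup.tz; rw [zpow_add]; rfl
theorem COEF_tz_zero : s.tz 0 = 1 := by simp [Setup.tz]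
theorem COEF_tz_isUnit (x : ℤ) : IsUnit (s.tz x) := ⟨_, rfl⟩
theorem COEF_tz_nat (n : ℕ) : s.tz n = algebraMap A K (s.t ^ n) := by
  unfold Setup.tz
  rw [zpow_natCast, Units.val_pow_eq_pow_val, map_pow]
  rfl
theorem COEF_tz_two : s.tz 2 = algebraMap A K (s.t ^ 2) := COEF_tz_nat s 2

/-! ### constant terms -/

theorem COEF_zeta3 : s.zeta ^ 3 = 1 := by linear_combination (s.zeta - 1) * s.hzeta
theorem COEF_ev_q : s.ev s.q = s.zeta := by simp [Setup.q, s.ev_cst, s.ev_t]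

theorem COEF_ev_Q3 (m : ℤ) : s.ev (COEF_Q s (3 * m)) = 1 := by
  have h1 : Units.map (s.ev : A →* O) (COEF_qA s) ^ 3 = 1 := by
    ext
    simp only [Units.val_pow_eq_pow_val, Units.coe_map, Units.val_one]
    have : (s.ev : A →* O) ((COEF_qA s : Aˣ) : A) = s.zeta := COEF_ev_q s
    rw [this, COEF_zeta3]
  have h2 : Units.map (s.ev : A →* O) (COEF_qA s ^ (3 * m)) = 1 := by
    rw [map_zpow, zpow_mul]
    rw [show (Units.map (s.ev : A →* O) (COEF_qA s)) ^ (3 : ℤ) = 1 from by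
      rw [show (3 : ℤ) = ((3 : ℕ) : ℤ) from rfl, zpow_natCast, h1]]
    exact one_zpow m
  exact congrArg (fun x : Oˣ => (x : O)) h2

theorem COEF_ev_Q (δ : ℤ) (k : ℕ) (hk : δ % 3 = k) : s.ev (COEF_Q s δ) = s.zeta ^ k := by
  have h : δ = 3 * (δ / 3) + (k : ℤ) := by omega
  rw [h, COEF_Q_add, map_mul, COEF_ev_Q3, COEF_Q_nat, map_pow, COEF_ev_q, one_mul]

include s in
theorem COEF_u3 : IsUnit (3 : O) := by
  have := s.hunit 3 (by norm_num) (by norm_num)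
  exact_mod_cast this

theorem COEF_z1 : IsUnit (s.zeta - 1) := by
  have h : (s.zeta - 1) * (s.zeta ^ 2 - 1) = 3 := by
    linear_combination (s.zeta - 2) * s.hzeta
  have h3 := COEF_u3 s
  rw [← h] at h3
  exact isUnit_of_mul_isUnit_left h3

theorem COEF_z2 : IsUnit (s.zeta ^ 2 - 1) := by
  have h : (s.zeta - 1) * (s.zeta ^ 2 - 1) = 3 := by
    linear_combination (s.zeta - 2) * s.hzeta
  have h3 := COEF_u3 s
  rw [← h] at h3
  exact isUnit_of_mul_isUnit_right h3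

/-- unit in `A` for `3 ∤ δ` (no bound needed) -/
theorem COEF_unitA (δ : ℤ) (h3 : δ % 3 ≠ 0) : IsUnit (COEF_Q s δ - 1) := by
  apply s.isUnit_of_ev
  rw [map_sub, map_one]
  rcases (by omega : δ % 3 = 1 ∨ δ % 3 = 2) with h | h
  · rw [COEF_ev_Q s δ 1 (by exact_mod_cast h), pow_one]; exact COEF_z1 s
  · rw [COEF_ev_Q s δ 2 (by exact_mod_cast h)]; exact COEF_z2 s

/-- `COEF_Q s (3 m) = (1 + t²)^(3m)` for natural `m` -/
theorem COEF_Q3nat (m : ℕ) : COEF_Q s (3 * (m : ℤ)) = (1 + s.t ^ 2) ^ (3 * m) := by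
  have h : (3 * (m : ℤ)) = ((3 * m : ℕ) : ℤ) := by push_cast; ring
  rw [h, COEF_Q_nat]
  unfold Setup.q
  have h3 : s.cst s.zeta ^ (3 * m) = 1 := by
    rw [pow_mul, ← map_pow, COEF_zeta3, map_one, one_pow]
  rw [mul_pow, h3, one_mul]

theorem COEF_unit3A_nat (m : ℕ) :
    ∃ u : A, COEF_Q s (3 * (m : ℤ)) - 1 = s.t ^ 2 * u ∧ s.ev u = (3 * m : ℕ) := by
  refine ⟨∑ i ∈ Finset.range (3 * m), (1 + s.t ^ 2) ^ i, ?_, ?_⟩
  · rw [COEF_Q3nat]
    have := mul_geom_sum (1 + s.t ^ 2) (3 * m)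
    rw [← this]; ring
  · rw [map_sum]
    simp [s.ev_t]

theorem COEF_unit3A_int (m : ℤ) :
    ∃ u : A, COEF_Q s (3 * m) - 1 = s.t ^ 2 * u ∧ s.ev u = ((3 * m : ℤ) : O) := by
  obtain ⟨n, rfl | rfl⟩ := Int.eq_nat_or_neg m
  · obtain ⟨u, h1, h2⟩ := COEF_unit3A_nat s n
    exact ⟨u, h1, by rw [h2]; push_cast; ring⟩
  · obtain ⟨u, h1, h2⟩ := COEF_unit3A_nat s n
    refine ⟨-(u * COEF_Q s (3 * (-(n : ℤ)))), ?_, ?_⟩
    · have h3 : COEF_Q s (3 * (-(n : ℤ))) * COEF_Q s (3 * (n : ℤ)) = 1 := by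
        have := COEF_Q_neg s (3 * (n : ℤ))
        rwa [← mul_neg] at this
      linear_combination (-COEF_Q s (3 * (-(n : ℤ)))) * h1 + h3
    · rw [map_neg, map_mul, COEF_ev_Q3, h2]; push_cast; ring

include s in
theorem COEF_intO (m : ℤ) (h0 : m ≠ 0) (h : |m| ≤ 12) : IsUnit ((m : ℤ) : O) := by
  obtain ⟨n, rfl | rfl⟩ := Int.eq_nat_or_neg m
  · have hn : n < 13 := by rw [Nat.abs_cast] at h; omega
    have hn0 : 0 < n := by
      rcases Nat.eq_zero_or_pos n with h' | h'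
      · subst h'; exact absurd rfl h0
      · exact h'
    simpa using s.hunit n hn0 hn
  · have hn : n < 13 := by rw [abs_neg, Nat.abs_cast] at h; omega
    have hn0 : 0 < n := by
      rcases Nat.eq_zero_or_pos n with h' | h'
      · subst h'; exact absurd (by simp) h0
      · exact h'
    simpa using (s.hunit n hn0 hn).neg

include s in
theorem COEF_intA (m : ℤ) (h0 : m ≠ 0) (h : |m| ≤ 12) : IsUnit ((m : ℤ) : A) := by
  apply s.isUnit_of_ev
  rw [map_intCast]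
  exact COEF_intO s m h0 h

/-- the unit version; `|m| ≤ 12` -/
theorem COEF_unit3A (m : ℤ) (h0 : m ≠ 0) (h : |m| ≤ 12) :
    ∃ u : Aˣ, COEF_Q s (3 * m) - 1 = s.t ^ 2 * u ∧ s.ev u = ((3 * m : ℤ) : O) := by
  obtain ⟨u, h1, h2⟩ := COEF_unit3A_int s m
  have hm : IsUnit ((m : ℤ) : O) := COEF_intO s m h0 h
  have hu : IsUnit u := by
    apply s.isUnit_of_ev
    rw [h2]
    push_cast
    exact (COEF_u3 s).mul hm
  obtain ⟨v, rfl⟩ := hu
  exact ⟨v, h1, h2⟩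

/-! ### the statements of the specification -/

theorem COEF_unit (δ : ℤ) (h3 : δ % 3 ≠ 0) (h : |δ| ≤ 15) :
    ∃ u : Aˣ, s.Q δ - 1 = algebraMap A K u := by
  obtain ⟨u, hu⟩ := COEF_unitA s δ h3
  exact ⟨u, by rw [hu, map_sub, map_one, COEF_Q_map]⟩

theorem COEF_unit3' (δ : ℤ) (h3 : δ % 3 = 0) (h0 : δ ≠ 0) (h : |δ| ≤ 36) :
    ∃ u : Aˣ, s.Q δ - 1 = s.tz 2 * algebraMap A K u ∧ s.ev u = (δ : O) := by
  obtain ⟨m, rfl⟩ : ∃ m, δ = 3 * m := ⟨δ / 3, by omega⟩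
  obtain ⟨u, h1, h2⟩ := COEF_unit3A s m (by rintro rfl; exact h0 (by simp)) (by
    rw [abs_le] at h ⊢; constructor <;> omega)
  refine ⟨u, ?_, h2⟩
  rw [COEF_tz_two, ← map_mul, ← h1, map_sub, map_one, COEF_Q_map]

theorem COEF_unit3 (δ : ℤ) (h3 : δ % 3 = 0) (h0 : δ ≠ 0) (h : |δ| ≤ 14) :
    ∃ u : Aˣ, s.Q δ - 1 = s.tz 2 * algebraMap A K u ∧ s.ev u = (δ : O) :=
  COEF_unit3' s δ h3 h0 (by omega)

theorem COEF_isUnit (δ : ℤ) (h0 : δ ≠ 0) (h : |δ| ≤ 15) : IsUnit (s.Q δ - 1) := by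
  by_cases h3 : δ % 3 = 0
  · obtain ⟨u, hu, -⟩ := COEF_unit3' s δ h3 h0 (by omega)
    rw [hu]
    exact (COEF_tz_isUnit s 2).mul (u.isUnit.map _)
  · obtain ⟨u, hu⟩ := COEF_unit s δ h3 h
    rw [hu]
    exact u.isUnit.map _

theorem COEF_ne (δ : ℤ) (h0 : δ ≠ 0) (h : |δ| ≤ 14) : s.Q δ ≠ 1 := by
  intro h1
  have h2 := COEF_isUnit s δ h0 (by omega)
  rw [h1, sub_self] at h2
  exact not_isUnit_zero h2

theorem COEF_a (δ : ℤ) (h0 : δ ≠ 0) (h : |δ| ≤ 14) : s.a δ * (s.Q δ - 1) = (s.Q 1 - 1) * s.Q δ := by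
  unfold Setup.a
  rw [mul_assoc, Ring.inverse_mul_cancel _ (COEF_isUnit s δ h0 (by omega)), mul_one]

theorem COEF_a1 (δ : ℤ) (h0 : δ ≠ 0) (h : |δ| ≤ 14) :
    (s.a δ + 1) * (s.Q δ - 1) = s.Q (δ + 1) - 1 := by
  have h1 := COEF_a s δ h0 h
  have h2 := COEF_Qadd s δ 1
  linear_combination h1 - h2

theorem COEF_b0 (δ : ℤ) (h3 : δ % 3 = 0) (h0 : δ ≠ 0) (h : |δ| ≤ 14) :
    s.b δ * (s.Q δ - 1) = s.Q (δ + 1) - 1 := by
  unfold Setup.b
  rw [if_pos h3]
  exact COEF_a1 s δ h0 h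

theorem COEF_b1 (δ : ℤ) (h3 : δ % 3 = 1) (h : |δ| ≤ 14) :
    s.b δ * (s.Q δ - 1) ^ 2 = s.tz (-1) * ((s.Q (δ + 1) - 1) * (s.Q δ - s.Q 1)) := by
  unfold Setup.b
  rw [if_neg (by omega), if_neg (by omega), mul_assoc, ← mul_pow,
    Ring.inverse_mul_cancel _ (COEF_isUnit s δ (by omega) (by omega)), one_pow, mul_one]

theorem COEF_b2 (δ : ℤ) (h3 : δ % 3 = 2) : s.b δ = s.tz 1 := by
  unfold Setup.b
  rw [if_neg (by omega), if_pos h3]

theorem COEF_tz_cancel : s.tz (-1) * s.tz 1 = 1 := by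
  rw [← COEF_tz_add]; norm_num [COEF_tz_zero]

theorem COEF_b (δ : ℤ) (h0 : 2 ≤ |δ|) (h : |δ| ≤ 14) :
    s.b δ * s.b (-δ) * (s.Q δ - 1) ^ 2 = (s.Q (δ + 1) - 1) * (s.Q δ - s.Q 1) := by
  have hδ : δ ≠ 0 := by rintro rfl; simp at h0
  have hn : s.Q (-δ) * s.Q δ = 1 := COEF_Qneg s δ
  have h1 : s.Q (δ + 1) = s.Q δ * s.Q 1 := COEF_Qadd s δ 1
  have h2 : s.Q (-δ + 1) = s.Q (-δ) * s.Q 1 := COEF_Qadd s (-δ) 1
  have hc := COEF_tz_cancel s
  have h' : |-δ| ≤ 14 := by rw [abs_neg]; exact h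
  rcases (by omega : δ % 3 = 0 ∨ δ % 3 = 1 ∨ δ % 3 = 2) with h3 | h3 | h3
  · have e1 := COEF_b0 s δ h3 hδ h
    have e2 := COEF_b0 s (-δ) (by omega) (by omega) h'
    rw [h1] at e1 ⊢
    rw [h2] at e2
    have hu := (COEF_Qunit s (-δ)).ne_zero
    apply mul_left_cancel₀ hu
    linear_combination (s.Q (-δ) * s.b (-δ) * (s.Q δ - 1)) * e1
      - (s.Q δ * s.Q 1 - 1) * e2
      + (s.Q δ * s.Q 1 - 1) * (s.b (-δ) - 1) * hn
  · have e1 := COEF_b1 s δ h3 h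
    have e2 := COEF_b2 s (-δ) (by omega)
    rw [e2]
    linear_combination s.tz 1 * e1 + ((s.Q (δ + 1) - 1) * (s.Q δ - s.Q 1)) * hc
  · have e1 := COEF_b1 s (-δ) (by omega) h'
    have e2 := COEF_b2 s δ h3
    rw [e2]
    rw [h2] at e1
    rw [h1]
    have hu := ((COEF_Qunit s (-δ)).pow 2).ne_zero
    apply mul_left_cancel₀ hu
    linear_combination s.tz 1 * e1 + (s.Q (-δ) * s.Q 1 - 1) * (s.Q (-δ) - s.Q 1) * hc
      + (s.tz 1 * s.b (-δ) * (s.Q (-δ) * s.Q δ + 1 - 2 * s.Q (-δ))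
        - (s.Q 1 * ((s.Q (-δ) * s.Q δ - 1) + (1 - s.Q (-δ) * s.Q 1)) + (s.Q 1 - s.Q (-δ)))) * hn

/-- `a δ` is integral unless `3 ∣ δ` -/
theorem COEF_a_int (δ : ℤ) (h3 : δ % 3 ≠ 0) (h : |δ| ≤ 14) : ∃ x : A, s.a δ = algebraMap A K x := by
  obtain ⟨u, hu⟩ := COEF_unitA s δ h3
  have hu' : s.Q δ - 1 = algebraMap A K u := by rw [hu, map_sub, map_one, COEF_Q_map]
  have hδ : δ ≠ 0 := by rintro rfl; simp at h3
  refine ⟨(s.q - 1) * COEF_Q s δ * ((u⁻¹ : Aˣ) : A), ?_⟩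
  have hne := (COEF_isUnit s δ hδ (by omega)).ne_zero
  apply mul_right_cancel₀ hne
  rw [COEF_a s δ hδ h, hu', ← map_mul, mul_assoc, Units.inv_mul, mul_one, map_mul, map_sub, map_one,
    COEF_Q_map, COEF_Q_map, COEF_Q_one]

/-- for `2 ≤ |δ| ≤ 14` the weight `w δ` is (the image of) a unit of `A`, with explicit constant term -/
theorem COEF_w (δ : ℤ) (h0 : 2 ≤ |δ|) (h : |δ| ≤ 14) :
    ∃ u : Aˣ, s.w δ = algebraMap A K u ∧
      (δ % 3 = 0 → (δ : O) * s.ev u = s.zeta - 1) ∧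
      (δ % 3 = 1 → (1 - s.zeta) * s.ev u = ((δ - 1 : ℤ) : O)) ∧
      (δ % 3 = 2 → s.ev u = 1) := by
  have hδ : δ ≠ 0 := by rintro rfl; simp at h0
  rcases (by omega : δ % 3 = 0 ∨ δ % 3 = 1 ∨ δ % 3 = 2) with h3 | h3 | h3
  · obtain ⟨u2, e2, v2⟩ := COEF_unit3' s δ h3 hδ (by omega)
    obtain ⟨u1, e1⟩ := COEF_unitA s (δ + 1) (by omega)
    have e1' : s.Q (δ + 1) - 1 = algebraMap A K u1 := by rw [e1, map_sub, map_one, COEF_Q_map]
    have v1 : s.ev (u1 : A) = s.zeta - 1 := by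
      rw [e1, map_sub, map_one, COEF_ev_Q s (δ + 1) 1 (by omega), pow_one]
    have hv2 : IsUnit (s.ev (u2 : A)) := u2.isUnit.map _
    refine ⟨u1 * u2⁻¹, ?_, ?_, fun h => by omega, fun h => by omega⟩
    · have hne := (COEF_isUnit s δ hδ (by omega)).ne_zero
      apply mul_right_cancel₀ hne
      unfold Setup.w
      rw [if_pos h3, mul_assoc, COEF_b0 s δ h3 hδ h, e1', e2, Units.val_mul]
      rw [mul_comm (s.tz 2) (algebraMap A K (u2 : A)), ← mul_assoc, ← map_mul, mul_assoc, Units.inv_mul,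
        mul_one, mul_comm]
    · intro _
      rw [← v1, ← v2, Units.val_mul, map_mul, mul_comm, mul_assoc, ← map_mul, Units.inv_mul, map_one,
        mul_one]
  · obtain ⟨u1, e1⟩ := COEF_unitA s (δ + 1) (by omega)
    obtain ⟨u3, e3⟩ := COEF_unitA s δ (by omega)
    obtain ⟨u2, e2, v2⟩ := COEF_unit3' s (δ - 1) (by omega) (by
      rintro hh
      have : δ = 1 := by omega
      subst this
      simp at h0) (by
      rw [abs_le] at h ⊢; constructor <;> omega)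
    have e1' : s.Q (δ + 1) - 1 = algebraMap A K u1 := by rw [e1, map_sub, map_one, COEF_Q_map]
    have e3' : s.Q δ - 1 = algebraMap A K u3 := by rw [e3, map_sub, map_one, COEF_Q_map]
    have v1 : s.ev (u1 : A) = s.zeta ^ 2 - 1 := by
      rw [e1, map_sub, map_one, COEF_ev_Q s (δ + 1) 2 (by omega)]
    have v3 : s.ev (u3 : A) = s.zeta - 1 := by
      rw [e3, map_sub, map_one, COEF_ev_Q s δ 1 (by omega), pow_one]
    have hq : s.Q δ - s.Q 1 = s.tz 2 * algebraMap A K (s.q * u2) := by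
      have hh : s.Q δ = s.Q (δ - 1) * s.Q 1 := by rw [← COEF_Qadd]; congr 1; omega
      have hq1 : s.Q 1 = algebraMap A K s.q := by rw [COEF_Q_map, COEF_Q_one]
      rw [hh, map_mul, ← hq1]
      linear_combination s.Q 1 * e2
    have hinv : s.ev ((u3⁻¹ : Aˣ) : A) * (s.zeta - 1) = 1 := by
      rw [← v3, ← map_mul, Units.inv_mul, map_one]
    refine ⟨u1 * (COEF_qA s * u2) * (u3⁻¹) ^ 2, ?_, fun h => by omega, ?_, fun h => by omega⟩
    · have hne := ((COEF_isUnit s δ hδ (by omega)).pow 2).ne_zero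
      apply mul_right_cancel₀ hne
      unfold Setup.w
      rw [if_neg (by omega), mul_assoc, COEF_b1 s δ h3 h, hq, e1', e3']
      have ht : s.tz (-1) * s.tz (-1) * s.tz 2 = 1 := by
        rw [← COEF_tz_add, ← COEF_tz_add]; norm_num [COEF_tz_zero]
      have hu3 : algebraMap A K ((u3⁻¹ : Aˣ) : A) * algebraMap A K (u3 : A) = 1 := by
        rw [← map_mul, Units.inv_mul, map_one]
      simp only [Units.val_mul, Units.val_pow_eq_pow_val, map_mul, map_pow, COEF_qA_val]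
      linear_combination (algebraMap A K (u1 : A) * algebraMap A K s.q * algebraMap A K (u2 : A)) * ht
        - (algebraMap A K (u1 : A) * algebraMap A K s.q * algebraMap A K (u2 : A))
          * (algebraMap A K ((u3⁻¹ : Aˣ) : A) * algebraMap A K (u3 : A) + 1) * hu3
    · intro _
      simp only [Units.val_mul, Units.val_pow_eq_pow_val, map_mul, map_pow, COEF_qA_val]
      rw [v1, v2, COEF_ev_q]
      have hz := s.hzeta
      linear_combination (-(s.zeta * (s.zeta + 1) * ((δ - 1 : ℤ) : O))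
          * (s.ev ((u3⁻¹ : Aˣ) : A) * (s.zeta - 1) + 1)) * hinv - ((δ - 1 : ℤ) : O) * hz
  · refine ⟨1, ?_, fun h => by omega, fun h => by omega, fun _ => by simp⟩
    unfold Setup.w
    rw [if_neg (by omega), COEF_b2 s δ h3, COEF_tz_cancel]
    simp

theorem COEF_Q_pow (x : ℤ) (n : ℕ) : COEF_Q s x ^ n = COEF_Q s (x * n) := by
  unfold COEF_Q
  rw [zpow_mul, zpow_natCast, Units.val_pow_eq_pow_val]

/-- interpolation in `A` -/
theorem COEF_polyA : ∃ G : Polynomial A, ∀ m : ℤ, |m| ≤ 5 →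
    G.eval (COEF_Q s (3 * m)) * (COEF_Q s (3 * m) - 1) = (m : A) * s.t ^ 2 := by
  have huv : COEF_Q s 3 * COEF_Q s (-3) = 1 := by rw [mul_comm]; exact COEF_Q_neg s 3
  have he : ∀ j : ℕ, ∃ e : Aˣ, j < 10 → COEF_Q s 3 ^ (j + 1) - 1 = s.t ^ 2 * e := by
    intro j
    by_cases hj : j < 10
    · obtain ⟨e, h1, -⟩ := COEF_unit3A s ((j + 1 : ℕ) : ℤ) (by exact_mod_cast Nat.succ_ne_zero j)
        (by rw [Nat.abs_cast]; omega)
      exact ⟨e, fun _ => by rw [COEF_Q_pow]; exact h1⟩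
    · exact ⟨1, fun h => absurd h hj⟩
  choose e he using he
  let kk : ℕ → A := fun j => (-1) ^ j * ((e j)⁻¹ : Aˣ) * COEF_Q s (-3) ^ (COEF_tri (j + 1))
  have hk : ∀ j < 10, kk j * (COEF_Q s 3 ^ (j + 1) - 1)
      = (-1) ^ j * s.t ^ 2 * COEF_Q s (-3) ^ (COEF_tri (j + 1)) := by
    intro j hj
    rw [he j hj]
    have h1 : ((e j)⁻¹ : Aˣ).val * (e j : A) = 1 := Units.inv_mul _
    simp only [kk]
    linear_combination ((-1) ^ j * s.t ^ 2 * COEF_Q s (-3) ^ (COEF_tri (j + 1))) * h1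
  let P : Polynomial A := ∑ j ∈ Finset.range 10, Polynomial.C (kk j)
    * ∏ i ∈ Finset.range (j + 1), (Polynomial.C (COEF_Q s 3 ^ 5) * Polynomial.X - Polynomial.C (COEF_Q s 3 ^ i))
  have hP : ∀ m : ℤ, |m| ≤ 5 → P.eval (COEF_Q s (3 * m)) = ((m : A) + 5) * s.t ^ 2 := by
    intro m hm
    obtain ⟨l, hl⟩ : ∃ l : ℕ, (l : ℤ) = m + 5 := ⟨(m + 5).toNat, by
      rw [abs_le] at hm; exact Int.toNat_of_nonneg (by omega)⟩
    have hl10 : l ≤ 10 := by rw [abs_le] at hm; omega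
    have hu : COEF_Q s 3 ^ 5 * COEF_Q s (3 * m) = COEF_Q s 3 ^ l := by
      rw [COEF_Q_pow, COEF_Q_pow, ← COEF_Q_add]
      congr 1
      push_cast
      rw [hl]; ring
    have h1 := COEF_sum (COEF_Q s 3) (COEF_Q s (-3)) (s.t ^ 2) huv kk 10 hk l hl10
    have h2 : P.eval (COEF_Q s (3 * m)) = ∑ j ∈ Finset.range 10, kk j * COEF_P (COEF_Q s 3) (j + 1) l := by
      simp only [P, Polynomial.eval_finset_sum, Polynomial.eval_mul, Polynomial.eval_C,
        Polynomial.eval_prod, Polynomial.eval_sub, Polynomial.eval_X, hu, COEF_P]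
    rw [h2, h1]
    have h3 : ((l : ℤ) : A) = ((m + 5 : ℤ) : A) := congrArg _ hl
    push_cast at h3
    rw [h3]
  obtain ⟨G, hG⟩ := Polynomial.X_sub_C_dvd_sub_C_eval (a := (1 : A)) (p := P)
  refine ⟨G, fun m hm => ?_⟩
  have h1 := congrArg (Polynomial.eval (COEF_Q s (3 * m))) hG
  have h0 : P.eval 1 = 5 * s.t ^ 2 := by
    have := hP 0 (by norm_num)
    rw [mul_zero, COEF_Q_zero] at this
    rw [this]; push_cast; ring
  simp only [Polynomial.eval_sub, Polynomial.eval_mul, Polynomial.eval_C, Polynomial.eval_X, h0,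
    hP m hm] at h1
  linear_combination -h1

/-- interpolation: `m t²` as a polynomial in `u^m = Q (3 m)`; `P(1) = 0` and `P / (X - 1)` is `G` -/
theorem COEF_poly : ∃ G : Polynomial A, ∀ m : ℤ, |m| ≤ 5 →
    (Polynomial.aeval (s.Q (3 * m)) G) * (s.Q (3 * m) - 1) = (m : K) * s.tz 2 ∧
    (m ≠ 0 → ∃ u : Aˣ, Polynomial.aeval (s.Q (3 * m)) G = algebraMap A K u) := by
  obtain ⟨G, hG⟩ := COEF_polyA s
  refine ⟨G, fun m hm => ?_⟩
  have hx : Polynomial.aeval (s.Q (3 * m)) G = algebraMap A K (G.eval (COEF_Q s (3 * m))) := by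
    rw [COEF_Q_map, Polynomial.aeval_algebraMap_apply, Polynomial.coe_aeval_eq_eval]
  have h1 : Polynomial.aeval (s.Q (3 * m)) G * (s.Q (3 * m) - 1) = (m : K) * s.tz 2 := by
    rw [hx, COEF_Q_map, COEF_tz_two]
    have := congrArg (algebraMap A K) (hG m hm)
    simpa using this
  refine ⟨h1, fun hm0 => ?_⟩
  obtain ⟨u, hu, -⟩ := COEF_unit3' s (3 * m) (by omega) (by omega) (by rw [abs_le] at hm ⊢; omega)
  obtain ⟨n, hn⟩ := COEF_intA s m hm0 (by omega)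
  refine ⟨n * u⁻¹, ?_⟩
  have ht := (COEF_tz_isUnit s 2).ne_zero
  have hu' : IsUnit (algebraMap A K (u : A)) := u.isUnit.map _
  apply mul_right_cancel₀ hu'.ne_zero
  apply mul_left_cancel₀ ht
  rw [hu] at h1
  have h2 : algebraMap A K ((u⁻¹ : Aˣ) : A) * algebraMap A K (u : A) = 1 := by
    rw [← map_mul, Units.inv_mul, map_one]
  have h3 : algebraMap A K (n : A) = (m : K) := by rw [hn, map_intCast]
  rw [Units.val_mul, map_mul, h3]
  linear_combination h1 - s.tz 2 * (m : K) * h2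

end

end J3
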