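import Pool.Agent.J3.BRIDGEcore
import Pool.Agent.J3.COEF

/-!
# BRIDGE: the homogeneous KLR operators lie in the image of the Hecke algebra (MP_36c429_al)
-/

set_option autoImplicit false

namespace J3
open Finsupp

section
variable {O A K : Type} [CommRing O] [IsDomain O] [CommRing A] [IsDomain A]
    [CommRing K] [IsDomain K] [Algebra A K] (s : Setup O A K)

/-! ### BRIDGE: the homogeneous KLR operators are in the image of the Hecke algebra -/
theorem BRIDGE_Psi (r : ℕ) (h1 : 1 ≤ r) (h2 : r < 32) :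
    ∃ g ∈ HAlg A 32, ∀ v ∈ s.VK, act s.TA g v = s.Psi r v := by
  obtain ⟨G, hG⟩ := COEF_poly s
  exact BR_main s ⟨COEF_a s, COEF_b s, COEF_ne s⟩ hG r h1 h2

end

end J3
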