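import Pool.Agent.J3.Defs

/-!
# BRIDGE: the homogeneous KLR operators lie in the image of the Hecke algebra (MP_36c429_al)
-/

set_option autoImplicit false

namespace J3
open Finsupp

/-! ### combinatorics of content lists -/

/-- difference of the contents of the letters `r + 1` and `r` -/
def BRdl (r : ℕ) : List ℤ → ℤ
  | [] => 0
  | [_] => 0
  | c' :: c :: l => if l.length + 1 = r then c' - c else BRdl r (c :: l)

/-- content of the letter `r` -/
def BRct (r : ℕ) : List ℤ → ℤ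
  | [] => 0
  | c :: l => if l.length + 1 = r then c else BRct r l

theorem BR_opB {R : Type*} [CommRing R] (D S : ℤ → R) (r : ℕ) (h1 : 1 ≤ r) :
    ∀ l : List ℤ, r < l.length →
      opB D S r l = single l (D (BRdl r l)) + single (swp r l) (S (BRdl r l))
  | [], h => by simp at h
  | [_], h => by simp at h; omega
  | c' :: c :: l, h => by
    rw [opB, BRdl, swp]
    by_cases hr : l.length + 1 = r
    · rw [if_pos hr, if_pos hr, if_pos hr]
    · rw [if_neg hr, if_neg hr, if_neg hr]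
      have h2 : r < (c :: l).length := by
        simp only [List.length_cons] at h ⊢
        omega
      rw [BR_opB D S r h1 (c :: l) h2, mapDomain_add, mapDomain_single, mapDomain_single]

theorem BR_op {R : Type*} [CommRing R] (D S : ℤ → R) (r : ℕ) (h1 : 1 ≤ r) (l : List ℤ)
    (h : r < l.length) : op D S r (single l 1) =
      single l (D (BRdl r l)) + single (swp r l) (S (BRdl r l)) := by
  rw [op, linearCombination_single, one_smul, BR_opB D S r h1 l h]

theorem BR_swp_perm (r : ℕ) : ∀ l : List ℤ, (swp r l).Perm l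
  | [] => by simp [swp]
  | [_] => by simp [swp]
  | c' :: c :: l => by
    rw [swp]
    split_ifs
    · exact List.Perm.swap _ _ _
    · exact (BR_swp_perm r (c :: l)).cons c'

theorem BR_swp_swp (r : ℕ) : ∀ l : List ℤ, swp r (swp r l) = l
  | [] => by simp [swp]
  | [_] => by simp [swp]
  | c' :: c :: l => by
    have h := (BR_swp_perm r (c :: l)).length_eq
    by_cases hr : l.length + 1 = r
    · simp [swp, hr]
    · rw [swp, if_neg hr]
      match hm : swp r (c :: l) with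
      | [] => rw [hm] at h; simp at h
      | d :: m =>
        rw [hm] at h
        simp only [List.length_cons, Nat.add_right_cancel_iff] at h
        rw [swp, if_neg (by rw [h]; exact hr), ← hm, BR_swp_swp r (c :: l)]

theorem BR_ct_swp (r : ℕ) (h1 : 1 ≤ r) : ∀ l : List ℤ, r < l.length →
    BRct r (swp r l) = BRct (r + 1) l ∧ BRct (r + 1) (swp r l) = BRct r l
  | [], h => by simp at h
  | [_], h => by simp at h; omega
  | c' :: c :: l, h => by
    by_cases hr : l.length + 1 = r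
    · rw [swp, if_pos hr]
      simp only [BRct, List.length_cons]
      rw [if_neg (by omega), if_pos hr, if_pos (by omega), if_pos (by omega), if_neg (by omega),
        if_pos hr]
      exact ⟨rfl, rfl⟩
    · rw [swp, if_neg hr]
      have hlen := (BR_swp_perm r (c :: l)).length_eq
      have h2 : r < (c :: l).length := by
        simp only [List.length_cons] at h ⊢
        omega
      obtain ⟨h3, h4⟩ := BR_ct_swp r h1 (c :: l) h2
      have e1 : BRct r (c' :: swp r (c :: l)) = BRct r (swp r (c :: l)) := by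
        rw [BRct, if_neg]
        rw [hlen]
        simp only [List.length_cons] at h2 ⊢
        omega
      have e2 : BRct (r + 1) (c' :: swp r (c :: l)) = BRct (r + 1) (swp r (c :: l)) := by
        rw [BRct, if_neg]
        rw [hlen]
        simp only [List.length_cons] at h2 ⊢
        omega
      have e3 : BRct r (c' :: c :: l) = BRct r (c :: l) := by
        rw [BRct, if_neg]
        simp only [List.length_cons] at h2 ⊢
        omega
      have e4 : BRct (r + 1) (c' :: c :: l) = BRct (r + 1) (c :: l) := by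
        rw [BRct, if_neg]
        simp only [List.length_cons] at h2 ⊢
        omega
      rw [e1, e2, e3, e4]
      exact ⟨h3, h4⟩

theorem BR_dl_ct (r : ℕ) (h1 : 1 ≤ r) : ∀ l : List ℤ, r < l.length →
    BRdl r l = BRct (r + 1) l - BRct r l
  | [], h => by simp at h
  | [_], h => by simp at h; omega
  | c' :: c :: l, h => by
    by_cases hr : l.length + 1 = r
    · rw [BRdl, if_pos hr]
      simp only [BRct, List.length_cons]
      rw [if_pos (by omega), if_neg (by omega), if_pos hr]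
    · rw [BRdl, if_neg hr]
      have h2 : r < (c :: l).length := by
        simp only [List.length_cons] at h ⊢
        omega
      have e3 : BRct r (c' :: c :: l) = BRct r (c :: l) := by
        rw [BRct, if_neg]
        simp only [List.length_cons] at h2 ⊢
        omega
      have e4 : BRct (r + 1) (c' :: c :: l) = BRct (r + 1) (c :: l) := by
        rw [BRct, if_neg]
        simp only [List.length_cons] at h2 ⊢
        omega
      rw [e3, e4, BR_dl_ct r h1 (c :: l) h2]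

theorem BR_dl_swp (r : ℕ) (h1 : 1 ≤ r) (l : List ℤ) (h : r < l.length) :
    BRdl r (swp r l) = - BRdl r l := by
  have h2 : r < (swp r l).length := by rwa [(BR_swp_perm r l).length_eq]
  obtain ⟨h3, h4⟩ := BR_ct_swp r h1 l h
  rw [BR_dl_ct r h1 _ h2, BR_dl_ct r h1 _ h, h3, h4]
  ring

theorem BR_ct_mem (r : ℕ) (h1 : 1 ≤ r) : ∀ l : List ℤ, r ≤ l.length → BRct r l ∈ l
  | [], h => by simp at h; omega
  | c :: l, h => by
    rw [BRct]
    split_ifs with h2
    · exact List.mem_cons_self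
    · refine List.mem_cons_of_mem _ (BR_ct_mem r h1 l ?_)
      simp only [List.length_cons] at h
      omega

theorem BR_addable_congr {f g : ℤ → ℕ} {c : ℤ} (h0 : f c = g c) (h1 : f (c + 1) = g (c + 1))
    (h2 : f (c - 1) = g (c - 1)) : Addable f c ↔ Addable g c := by
  unfold Addable
  rw [h0, h1, h2]

theorem BR_std_swap {c c' : ℤ} {l : List ℤ} (h : IsStd (c' :: c :: l)) (hc : 2 ≤ |c' - c|) :
    IsStd (c :: c' :: l) := by
  obtain ⟨h1, h2, h3⟩ := h
  have hne : ∀ d : ℤ, |d| ≤ 1 → c ≠ c' + d := by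
    intro d hd he
    rw [he] at hc
    have : c' - (c' + d) = -d := by ring
    rw [this, abs_neg] at hc
    omega
  have hne' : ∀ d : ℤ, |d| ≤ 1 → c' ≠ c + d := by
    intro d hd he
    rw [he] at hc
    have : c + d - c = d := by ring
    rw [this] at hc
    omega
  refine ⟨?_, ?_, h3⟩
  · refine (BR_addable_congr ?_ ?_ ?_).1 h2
    · have := hne' 0 (by norm_num)
      rw [add_zero] at this
      rw [List.count_cons_of_ne this]
    · rw [List.count_cons_of_ne (hne' 1 (by norm_num))]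
    · have := hne' (-1) (by norm_num)
      rw [← sub_eq_add_neg] at this
      rw [List.count_cons_of_ne this]
  · refine (BR_addable_congr ?_ ?_ ?_).1 h1
    · have := hne 0 (by norm_num)
      rw [add_zero] at this
      rw [List.count_cons_of_ne this]
    · rw [List.count_cons_of_ne (hne 1 (by norm_num))]
    · have := hne (-1) (by norm_num)
      rw [← sub_eq_add_neg] at this
      rw [List.count_cons_of_ne this]

theorem BR_std_swp (r : ℕ) (h1 : 1 ≤ r) : ∀ l : List ℤ, r < l.length → IsStd l →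
    2 ≤ |BRdl r l| → IsStd (swp r l)
  | [], h, _, _ => by simp at h
  | [_], h, _, _ => by simp at h; omega
  | c' :: c :: l, h, hs, hd => by
    by_cases hr : l.length + 1 = r
    · rw [BRdl, if_pos hr] at hd
      rw [swp, if_pos hr]
      exact BR_std_swap hs hd
    · rw [BRdl, if_neg hr] at hd
      rw [swp, if_neg hr]
      have h2 : r < (c :: l).length := by
        simp only [List.length_cons] at h ⊢
        omega
      refine ⟨?_, BR_std_swp r h1 (c :: l) h2 hs.2 hd⟩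
      have hp := BR_swp_perm r (c :: l)
      refine (BR_addable_congr ?_ ?_ ?_).1 hs.1 <;> exact (hp.count_eq _).symm

theorem BR_inK_swp (r : ℕ) (h1 : 1 ≤ r) (l : List ℤ) (h : r < l.length) (hl : InK l)
    (hd : 2 ≤ |BRdl r l|) : InK (swp r l) :=
  ⟨BR_std_swp r h1 l h hl.1 hd, (BR_swp_perm r l).trans hl.2⟩

theorem BR_dl_ne (r : ℕ) (h1 : 1 ≤ r) : ∀ l : List ℤ, r < l.length → IsStd l → BRdl r l ≠ 0
  | [], h, _ => by simp at h
  | [_], h, _ => by simp at h; omega
  | c' :: c :: l, h, hs => by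
    by_cases hr : l.length + 1 = r
    · rw [BRdl, if_pos hr]
      intro he
      have : c' = c := by omega
      subst this
      obtain ⟨⟨a1, a2, -, -⟩, ⟨b1, b2, -, -⟩, -⟩ := hs
      rcases le_total 0 c' with h0 | h0
      · have h3 : List.count (c' + 1) (c' :: l) = List.count c' (c' :: l) := a1 h0
        have h4 : List.count (c' + 1) l = List.count c' l := b1 h0
        rw [List.count_cons_of_ne (by omega), List.count_cons_self] at h3
        omega
      · have h3 : List.count (c' - 1) (c' :: l) = List.count c' (c' :: l) := a2 h0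
        have h4 : List.count (c' - 1) l = List.count c' l := b2 h0
        rw [List.count_cons_of_ne (by omega), List.count_cons_self] at h3
        omega
    · rw [BRdl, if_neg hr]
      have h2 : r < (c :: l).length := by
        simp only [List.length_cons] at h ⊢
        omega
      exact BR_dl_ne r h1 (c :: l) h2 hs.2

theorem BR_len {l : List ℤ} (hl : InK l) : l.length = 32 := by
  rw [hl.2.length_eq]; rfl

theorem BR_bound {l : List ℤ} (hl : InK l) {x : ℤ} (hx : x ∈ l) : -8 ≤ x ∧ x ≤ 6 := by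
  have h1 : x ∈ rowL := hl.2.mem_iff.1 hx
  have h2 : ∀ y ∈ rowL, -8 ≤ y ∧ y ≤ 6 := by decide
  exact h2 x h1

theorem BR_dl_le (r : ℕ) (h1 : 1 ≤ r) (h2 : r < 32) {l : List ℤ} (hl : InK l) :
    |BRdl r l| ≤ 14 := by
  have hlen := BR_len hl
  rw [BR_dl_ct r h1 l (by omega)]
  have h3 := BR_bound hl (BR_ct_mem r h1 l (by omega))
  have h4 := BR_bound hl (BR_ct_mem (r + 1) (by omega) l (by omega))
  rw [abs_le]
  omega

theorem BR_ct_one : ∀ l : List ℤ, l ≠ [] → IsStd l → BRct 1 l = 0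
  | [], h, _ => absurd rfl h
  | [c], _, hs => by
    have hct : BRct 1 [c] = c := by simp [BRct]
    rw [hct]
    obtain ⟨⟨-, -, h3, h4⟩, -⟩ := hs
    simp only [List.count_nil] at h3 h4
    by_contra hc
    rcases lt_trichotomy c 0 with h | h | h
    · exact absurd (h4 h) (by norm_num)
    · exact hc h
    · exact absurd (h3 h) (by norm_num)
  | c' :: c :: l, _, hs => by
    rw [BRct, if_neg (by simp)]
    exact BR_ct_one (c :: l) (by simp) hs.2

/-! ### operators -/

section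
variable {O A K : Type} [CommRing O] [IsDomain O] [CommRing A] [IsDomain A]
    [CommRing K] [IsDomain K] [Algebra A K] (s : Setup O A K)

theorem BR_mem_VK {l : List ℤ} (hl : InK l) (x : K) : single l x ∈ s.VK :=
  Finsupp.single_mem_supported K x hl

theorem BR_ext {φ ψ : Module.End K (List ℤ →₀ K)}
    (h : ∀ l, InK l → φ (single l 1) = ψ (single l 1)) (v : List ℤ →₀ K) (hv : v ∈ s.VK) :
    φ v = ψ v := by
  have h1 : v = v.sum fun l x => x • single l (1 : K) := by
    conv_lhs => rw [← Finsupp.sum_single v]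
    refine Finsupp.sum_congr fun l _ => ?_
    rw [smul_single, smul_eq_mul, mul_one]
  rw [h1, Finsupp.sum, map_sum, map_sum]
  refine Finset.sum_congr rfl fun l hl => ?_
  rw [map_smul, map_smul, h l ((Finsupp.mem_supported K v).1 hv hl)]

theorem BR_T (r : ℕ) (h1 : 1 ≤ r) (h2 : r < 32) {l : List ℤ} (hl : InK l) :
    s.T r (single l 1) = single l (s.a (BRdl r l)) +
      single (swp r l) (if 2 ≤ |BRdl r l| then s.b (BRdl r l) else 0) := by
  rw [Setup.T, BR_op _ _ r h1 l (by rw [BR_len hl]; exact h2)]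

theorem BR_span {p : (List ℤ →₀ K) → Prop} (hz : p 0) (hadd : ∀ x y, p x → p y → p (x + y))
    (hs : ∀ l, InK l → ∀ x : K, p (single l x)) (v : List ℤ →₀ K) (hv : v ∈ s.VK) : p v := by
  have h1 := (Finsupp.mem_supported K v).1 hv
  rw [← Finsupp.sum_single v, Finsupp.sum]
  refine Finset.sum_induction _ p hadd hz fun l hl => hs l (h1 hl) _

theorem BR_T_VK (r : ℕ) (h1 : 1 ≤ r) (h2 : r < 32) (v : List ℤ →₀ K) (hv : v ∈ s.VK) :
    s.T r v ∈ s.VK := by
  refine BR_span s (p := fun v => s.T r v ∈ s.VK) (by simp) (fun x y hx hy => ?_)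
    (fun l hl x => ?_) v hv
  · rw [map_add]; exact Submodule.add_mem _ hx hy
  · have e1 : single l x = x • single l (1 : K) := by rw [smul_single, smul_eq_mul, mul_one]
    rw [e1, map_smul]
    refine Submodule.smul_mem _ _ ?_
    rw [BR_T s r h1 h2 hl]
    refine Submodule.add_mem _ (BR_mem_VK s hl _) ?_
    split_ifs with h3
    · exact BR_mem_VK s (BR_inK_swp r h1 l (by rw [BR_len hl]; exact h2) hl h3) _
    · rw [single_zero]; exact Submodule.zero_mem _

theorem BR_act_VK (g : FreeAlgebra A ℕ) (hg : g ∈ HAlg A 32) :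
    ∀ v ∈ s.VK, act s.TA g v ∈ s.VK := by
  unfold HAlg at hg
  induction hg using Algebra.adjoin_induction with
  | mem x hx =>
    obtain ⟨i, ⟨h1, h2⟩, rfl⟩ := hx
    intro v hv
    rw [act, FreeAlgebra.lift_ι_apply]
    exact BR_T_VK s i h1 h2 v hv
  | algebraMap c =>
    intro v hv
    rw [AlgHom.commutes, Module.algebraMap_end_apply, ← algebraMap_smul K c v]
    exact Submodule.smul_mem _ _ hv
  | add x y _ _ hx hy =>
    intro v hv
    rw [map_add, LinearMap.add_apply]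
    exact Submodule.add_mem _ (hx v hv) (hy v hv)
  | mul x y _ _ hx hy =>
    intro v hv
    rw [map_mul, Module.End.mul_apply]
    exact hx _ (hy v hv)

/-- operators which on `V` are given by elements of the Hecke algebra -/
def BRIm (φ : Module.End K (List ℤ →₀ K)) : Prop :=
  ∃ g ∈ HAlg A 32, ∀ v ∈ s.VK, act s.TA g v = φ v

theorem BRIm.congr {φ ψ : Module.End K (List ℤ →₀ K)} (h : BRIm s φ)
    (he : ∀ l, InK l → φ (single l 1) = ψ (single l 1)) : BRIm s ψ := by
  obtain ⟨g, hg, h1⟩ := h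
  exact ⟨g, hg, fun v hv => (h1 v hv).trans (BR_ext s he v hv)⟩

theorem BRIm.add {φ ψ : Module.End K (List ℤ →₀ K)} (h : BRIm s φ) (h' : BRIm s ψ) :
    BRIm s (φ + ψ) := by
  obtain ⟨g, hg, h1⟩ := h
  obtain ⟨g', hg', h1'⟩ := h'
  refine ⟨g + g', Subalgebra.add_mem _ hg hg', fun v hv => ?_⟩
  rw [map_add, LinearMap.add_apply, LinearMap.add_apply, h1 v hv, h1' v hv]

theorem BRIm.mul {φ ψ : Module.End K (List ℤ →₀ K)} (h : BRIm s φ) (h' : BRIm s ψ) :
    BRIm s (φ * ψ) := by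
  obtain ⟨g, hg, h1⟩ := h
  obtain ⟨g', hg', h1'⟩ := h'
  refine ⟨g * g', Subalgebra.mul_mem _ hg hg', fun v hv => ?_⟩
  rw [map_mul, Module.End.mul_apply, Module.End.mul_apply, h1 _ (BR_act_VK s g' hg' v hv),
    h1' v hv]

theorem BRIm.smul {φ : Module.End K (List ℤ →₀ K)} (h : BRIm s φ) (c : A) :
    BRIm s (algebraMap A K c • φ) := by
  obtain ⟨g, hg, h1⟩ := h
  refine ⟨c • g, Subalgebra.smul_mem _ hg c, fun v hv => ?_⟩
  rw [map_smul, LinearMap.smul_apply, LinearMap.smul_apply, h1 v hv, algebraMap_smul]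

theorem BRIm_one : BRIm s 1 :=
  ⟨1, Subalgebra.one_mem _, fun v _ => by rw [map_one, Module.End.one_apply, Module.End.one_apply]⟩

theorem BRIm_T (r : ℕ) (h1 : 1 ≤ r) (h2 : r < 32) : BRIm s (s.T r) := by
  refine ⟨FreeAlgebra.ι A r, Algebra.subset_adjoin ⟨r, ⟨h1, h2⟩, rfl⟩, fun v _ => ?_⟩
  rw [act, FreeAlgebra.lift_ι_apply]
  rfl

/-- the diagonal operator with the eigenvalues `f l` -/
noncomputable def BRdg (f : List ℤ → K) : Module.End K (List ℤ →₀ K) :=
  linearCombination K (fun l => single l (f l))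

theorem BRdg_apply (f : List ℤ → K) (l : List ℤ) (x : K) :
    BRdg f (single l x) = single l (x * f l) := by
  rw [BRdg, linearCombination_single, smul_single, smul_eq_mul]

/-- functions of lists whose diagonal operator is given by the Hecke algebra -/
def BRL (f : List ℤ → K) : Prop := BRIm s (BRdg f)

theorem BRL.congr {f g : List ℤ → K} (h : BRL s f) (he : ∀ l, InK l → f l = g l) : BRL s g :=
  BRIm.congr s h fun l hl => by rw [BRdg_apply, BRdg_apply, he l hl]

theorem BRL.add {f g : List ℤ → K} (h : BRL s f) (h' : BRL s g) : BRL s (fun l => f l + g l) :=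
  BRIm.congr s (BRIm.add s h h') fun l _ => by
    rw [LinearMap.add_apply, BRdg_apply, BRdg_apply, BRdg_apply, ← single_add]
    congr 1; ring

theorem BRL.mul {f g : List ℤ → K} (h : BRL s f) (h' : BRL s g) : BRL s (fun l => f l * g l) :=
  BRIm.congr s (BRIm.mul s h h') fun l _ => by
    rw [Module.End.mul_apply, BRdg_apply, BRdg_apply, BRdg_apply]
    congr 1; ring

theorem BRL_const (c : A) : BRL s (fun _ => algebraMap A K c) :=
  BRIm.congr s (BRIm.smul s (BRIm_one s) c) fun l _ => by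
    rw [LinearMap.smul_apply, Module.End.one_apply, BRdg_apply, smul_single, smul_eq_mul]
    congr 1; ring

theorem BRL_poly {f : List ℤ → K} (h : BRL s f) (p : Polynomial A) :
    BRL s (fun l => Polynomial.aeval (f l) p) := by
  induction p using Polynomial.induction_on' with
  | add p q hp hq =>
    exact BRL.congr s (BRL.add s hp hq) fun l _ => by rw [map_add]
  | monomial n a =>
    have h1 : ∀ n : ℕ, BRL s (fun l => f l ^ n) := by
      intro n
      induction n with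
      | zero => exact BRL.congr s (BRL_const s 1) fun l _ => by rw [map_one, pow_zero]
      | succ n ih => exact BRL.congr s (BRL.mul s ih h) fun l _ => by rw [pow_succ]
    exact BRL.congr s (BRL.mul s (BRL_const s a) (h1 n)) fun l _ => by
      rw [Polynomial.aeval_monomial]

/-- polynomial inverses of finitely many units -/
theorem BR_poly_inv (I : Finset ℤ) (u : ℤ → Aˣ) : ∃ P : Polynomial A, ∀ i ∈ I,
    algebraMap A K (u i) * Polynomial.aeval (algebraMap A K (u i)) P = 1 := by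
  classical
  set f : Polynomial A := ∏ i ∈ I, (Polynomial.X - Polynomial.C (u i : A)) with hf
  have h0 : IsUnit (f.coeff 0) := by
    rw [Polynomial.coeff_zero_eq_eval_zero, hf, Polynomial.eval_prod]
    refine IsUnit.prod_iff.2 fun i _ => ?_
    rw [Polynomial.eval_sub, Polynomial.eval_X, Polynomial.eval_C, zero_sub]
    exact (u i).isUnit.neg
  obtain ⟨w, hw⟩ := h0
  refine ⟨Polynomial.C (-((w⁻¹ : Aˣ) : A)) * f.divX, fun i hi => ?_⟩
  set x : K := algebraMap A K (u i) with hx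
  have h1 : Polynomial.aeval x f = 0 := by
    rw [hf, map_prod]
    refine Finset.prod_eq_zero hi ?_
    rw [map_sub, Polynomial.aeval_X, Polynomial.aeval_C, sub_self]
  have h2 : Polynomial.aeval x f = Polynomial.aeval x f.divX * x + algebraMap A K (f.coeff 0) := by
    conv_lhs => rw [← Polynomial.divX_mul_X_add f]
    rw [map_add, map_mul, Polynomial.aeval_X, Polynomial.aeval_C]
  rw [h1, ← hw] at h2
  rw [map_mul, Polynomial.aeval_C, map_neg]
  have h3 : algebraMap A K ((w⁻¹ : Aˣ) : A) * algebraMap A K (w : A) = 1 := by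
    rw [← map_mul, Units.inv_mul, map_one]
  have h4 : Polynomial.aeval x f.divX * x = - algebraMap A K (w : A) := by
    rw [eq_neg_iff_add_eq_zero]; exact h2.symm
  calc x * (-algebraMap A K ((w⁻¹ : Aˣ) : A) * Polynomial.aeval x f.divX) =
      -algebraMap A K ((w⁻¹ : Aˣ) : A) * (Polynomial.aeval x f.divX * x) := by ring
    _ = 1 := by rw [h4]; linear_combination h3

/-! ### powers of `q` -/

/-- `q` as a unit of `A` -/
noncomputable def BRqA : Aˣ := s.q_isUnit.unit

theorem BR_Q_eq (δ : ℤ) : s.Q δ = algebraMap A K ((BRqA s ^ δ : Aˣ) : A) := by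
  rw [Setup.Q, Setup.qU, ← map_zpow]
  rfl

theorem BR_Q_add (δ ε : ℤ) : s.Q (δ + ε) = s.Q δ * s.Q ε := by
  rw [BR_Q_eq, BR_Q_eq, BR_Q_eq, ← map_mul, zpow_add, Units.val_mul]

theorem BR_Q_zero : s.Q 0 = 1 := by rw [BR_Q_eq, zpow_zero, Units.val_one, map_one]

theorem BR_Q_unit (δ : ℤ) : ∃ u : Aˣ, s.Q δ = algebraMap A K u := ⟨_, BR_Q_eq s δ⟩

theorem BR_ev_q : s.ev (BRqA s : A) = s.zeta := by
  have : (BRqA s : A) = s.q := rfl
  rw [this, Setup.q]
  simp [s.ev_cst, s.ev_t]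

/-- `ζ` as a unit -/
noncomputable def BRz : Oˣ := Units.map (s.ev : A →* O) (BRqA s)

theorem BRz_val : (BRz s : O) = s.zeta := BR_ev_q s

theorem BRz_cube : BRz s ^ (3 : ℤ) = 1 := by
  ext
  have : ((BRz s ^ (3 : ℤ) : Oˣ) : O) = s.zeta ^ 3 := by
    rw [show (3 : ℤ) = ((3 : ℕ) : ℤ) from rfl, zpow_natCast, Units.val_pow_eq_pow_val, BRz_val]
  rw [this, Units.val_one]
  linear_combination (s.zeta - 1) * s.hzeta

theorem BR_isUnit_sub (δ : ℤ) (h : δ % 3 ≠ 0) : ∃ u : Aˣ, s.Q δ - 1 = algebraMap A K u := by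
  have h3 : IsUnit (3 : O) := by
    have := s.hunit 3 (by norm_num) (by norm_num)
    exact_mod_cast this
  have hz : (s.zeta - 1) * (s.zeta ^ 2 - 1) = 3 := by
    linear_combination (s.zeta - 2) * s.hzeta
  have h1 : IsUnit (s.zeta - 1) := isUnit_of_dvd_unit ⟨_, hz.symm⟩ h3
  have h2 : IsUnit (s.zeta ^ 2 - 1) := isUnit_of_dvd_unit ⟨s.zeta - 1, by rw [mul_comm]; exact hz.symm⟩ h3
  have key : IsUnit (((BRqA s ^ δ : Aˣ) : A) - 1) := by
    apply s.isUnit_of_ev
    have h4 : s.ev ((BRqA s ^ δ : Aˣ) : A) = ((BRz s ^ δ : Oˣ) : O) := by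
      rw [BRz, ← map_zpow]; rfl
    rw [map_sub, map_one, h4]
    have h5 : BRz s ^ δ = BRz s ^ (δ % 3) := by
      conv_lhs => rw [← Int.mul_ediv_add_emod δ 3]
      rw [zpow_add, zpow_mul, BRz_cube, one_zpow, one_mul]
    rw [h5]
    have h6 : δ % 3 = 1 ∨ δ % 3 = 2 := by omega
    rcases h6 with h6 | h6
    · rw [h6, zpow_one, BRz_val]; exact h1
    · rw [h6, show (2 : ℤ) = ((2 : ℕ) : ℤ) from rfl, zpow_natCast, Units.val_pow_eq_pow_val, BRz_val]
      exact h2
  obtain ⟨u, hu⟩ := key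
  exact ⟨u, by rw [hu, map_sub, map_one, BR_Q_eq]⟩

/-! ### Jucys-Murphy elements -/

/-- the Jucys-Murphy element `L_(i+1)` -/
noncomputable def BRjm : ℕ → Module.End K (List ℤ →₀ K)
  | 0 => 1
  | i + 1 => algebraMap A K (((BRqA s)⁻¹ : Aˣ) : A) • (s.T (i + 1) * BRjm i * s.T (i + 1))

theorem BRIm_jm : ∀ i, i < 32 → BRIm s (BRjm s i)
  | 0, _ => BRIm_one s
  | i + 1, h => by
    rw [BRjm]
    exact BRIm.smul s (BRIm.mul s (BRIm.mul s (BRIm_T s (i + 1) (by omega) h)
      (BRIm_jm i (by omega))) (BRIm_T s (i + 1) (by omega) h)) _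

theorem BR_a_one (ha : ∀ δ : ℤ, δ ≠ 0 → |δ| ≤ 14 →
      s.a δ * (s.Q δ - 1) = (s.Q 1 - 1) * s.Q δ)
    (hne : ∀ δ : ℤ, δ ≠ 0 → |δ| ≤ 14 → s.Q δ ≠ 1) : s.a 1 = s.Q 1 ∧ s.a (-1) = -1 := by
  constructor
  · have h1 := ha 1 (by norm_num) (by norm_num)
    have h2 : s.Q 1 - 1 ≠ 0 := sub_ne_zero.2 (hne 1 (by norm_num) (by norm_num))
    apply mul_right_cancel₀ h2
    rw [h1, mul_comm]
  · have h1 := ha (-1) (by norm_num) (by norm_num)
    have h2 : s.Q (-1) - 1 ≠ 0 := sub_ne_zero.2 (hne (-1) (by norm_num) (by norm_num))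
    have h3 : s.Q 1 * s.Q (-1) = 1 := by rw [← BR_Q_add, add_neg_cancel, BR_Q_zero]
    apply mul_right_cancel₀ h2
    rw [h1]
    linear_combination h3

theorem BR_jm (ha : ∀ δ : ℤ, δ ≠ 0 → |δ| ≤ 14 →
      s.a δ * (s.Q δ - 1) = (s.Q 1 - 1) * s.Q δ)
    (hb : ∀ δ : ℤ, 2 ≤ |δ| → |δ| ≤ 14 →
      s.b δ * s.b (-δ) * (s.Q δ - 1) ^ 2 = (s.Q (δ + 1) - 1) * (s.Q δ - s.Q 1))
    (hne : ∀ δ : ℤ, δ ≠ 0 → |δ| ≤ 14 → s.Q δ ≠ 1) :
    ∀ i, i < 32 → ∀ l, InK l → BRjm s i (single l 1) = single l (s.Q (BRct (i + 1) l))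
  | 0, _, l, hl => by
    rw [BRjm, Module.End.one_apply, zero_add, BR_ct_one l ?_ hl.1, BR_Q_zero]
    intro h
    have := BR_len hl
    rw [h] at this
    simp at this
  | i + 1, h, l, hl => by
    have ih := BR_jm ha hb hne i (by omega)
    have ih' : ∀ l, InK l → ∀ x : K, BRjm s i (single l x) =
        single l (x * s.Q (BRct (i + 1) l)) := by
      intro l hl x
      have e1 : single l x = x • single l (1 : K) := by rw [smul_single, smul_eq_mul, mul_one]
      rw [e1, map_smul, ih l hl, smul_single, smul_eq_mul]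
    have hT : ∀ l, InK l → ∀ x : K, s.T (i + 1) (single l x) =
        single l (x * s.a (BRdl (i + 1) l)) + single (swp (i + 1) l)
          (x * (if 2 ≤ |BRdl (i + 1) l| then s.b (BRdl (i + 1) l) else 0)) := by
      intro l hl x
      have e1 : single l x = x • single l (1 : K) := by rw [smul_single, smul_eq_mul, mul_one]
      rw [e1, map_smul, BR_T s (i + 1) (by omega) h hl, smul_add, smul_single, smul_single,
        smul_eq_mul, smul_eq_mul]
    have hlen : i + 1 < l.length := by rw [BR_len hl]; exact h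
    set δ := BRdl (i + 1) l with hδ
    set c := BRct (i + 1) l with hc
    have hct : BRct (i + 1 + 1) l = c + δ := by
      have := BR_dl_ct (i + 1) (by omega) l hlen
      rw [← hδ, ← hc] at this
      omega
    have hδ0 : δ ≠ 0 := BR_dl_ne (i + 1) (by omega) l hlen hl.1
    have hδ14 : |δ| ≤ 14 := BR_dl_le (i + 1) (by omega) h hl
    have hqq : algebraMap A K (((BRqA s)⁻¹ : Aˣ) : A) * s.Q 1 = 1 := by
      rw [BR_Q_eq, zpow_one, ← map_mul, Units.inv_mul, map_one]
    have hx1 : s.Q δ - 1 ≠ 0 := sub_ne_zero.2 (hne δ hδ0 hδ14)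
    have hxy : s.Q δ * s.Q (-δ) = 1 := by rw [← BR_Q_add, add_neg_cancel, BR_Q_zero]
    rw [BRjm, LinearMap.smul_apply, Module.End.mul_apply, Module.End.mul_apply, hT l hl, ← hδ,
      one_mul, one_mul, map_add, ih' l hl, ← hc, hct]
    by_cases h2 : 2 ≤ |δ|
    · have hsl : InK (swp (i + 1) l) := BR_inK_swp (i + 1) (by omega) l hlen hl (by rw [← hδ]; exact h2)
      have hct' := BR_ct_swp (i + 1) (by omega) l hlen
      have hdl' := BR_dl_swp (i + 1) (by omega) l hlen
      rw [if_pos h2, ih' _ hsl, hct'.1, hct, map_add, hT l hl, hT _ hsl, BR_swp_swp, hdl', ← hδ,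
        abs_neg, if_pos h2, if_pos h2]
      have hy1 : s.Q (-δ) - 1 ≠ 0 :=
        sub_ne_zero.2 (hne (-δ) (by omega) (by rw [abs_neg]; exact hδ14))
      have ha1 := ha δ hδ0 hδ14
      have ha2 := ha (-δ) (by omega) (by rw [abs_neg]; exact hδ14)
      have hb1 := hb δ h2 hδ14
      rw [BR_Q_add s δ 1] at hb1
      -- coefficient of the swapped list
      have hoff : s.a δ + s.a (-δ) * s.Q δ = 0 := by
        apply mul_right_cancel₀ hx1
        apply mul_right_cancel₀ hy1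
        rw [zero_mul, zero_mul]
        linear_combination (s.Q (-δ) - 1) * ha1 + s.Q δ * (s.Q δ - 1) * ha2 +
          (s.Q 1 - 1) * s.Q δ * hxy
      have hdiag : s.a δ ^ 2 + s.b δ * s.b (-δ) * s.Q δ = s.Q 1 * s.Q δ := by
        apply mul_right_cancel₀ (pow_ne_zero 2 hx1)
        linear_combination (s.a δ * (s.Q δ - 1) + (s.Q 1 - 1) * s.Q δ) * ha1 + s.Q δ * hb1
      rw [BR_Q_add]
      have e1 : single l (s.a δ * s.Q c * s.a δ) + single (swp (i + 1) l) (s.a δ * s.Q c * s.b δ) +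
          (single (swp (i + 1) l) (s.b δ * (s.Q c * s.Q δ) * s.a (-δ)) +
            single l (s.b δ * (s.Q c * s.Q δ) * s.b (-δ))) =
          single l ((s.a δ ^ 2 + s.b δ * s.b (-δ) * s.Q δ) * s.Q c) +
          single (swp (i + 1) l) ((s.a δ + s.a (-δ) * s.Q δ) * (s.Q c * s.b δ)) := by
        have e2 : (s.a δ ^ 2 + s.b δ * s.b (-δ) * s.Q δ) * s.Q c = s.a δ * s.Q c * s.a δ +
            s.b δ * (s.Q c * s.Q δ) * s.b (-δ) := by ring
        have e3 : (s.a δ + s.a (-δ) * s.Q δ) * (s.Q c * s.b δ) = s.a δ * s.Q c * s.b δ +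
            s.b δ * (s.Q c * s.Q δ) * s.a (-δ) := by ring
        rw [e2, e3, single_add, single_add]
        abel
      rw [e1, hoff, hdiag, zero_mul, single_zero, add_zero, smul_single, smul_eq_mul]
      congr 1
      linear_combination s.Q δ * s.Q c * hqq
    · rw [if_neg h2, single_zero, map_zero, add_zero, hT l hl, ← hδ, if_neg h2, mul_zero,
        single_zero, add_zero, smul_single, smul_eq_mul]
      congr 1
      have hcase : δ = 1 ∨ δ = -1 := by
        rcases abs_cases δ with ⟨h3, h4⟩ | ⟨h3, h4⟩ <;> omega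
      obtain ⟨a1, a2⟩ := BR_a_one s ha hne
      rcases hcase with h3 | h3
      · rw [h3, a1, BR_Q_add]
        linear_combination s.Q 1 * s.Q c * hqq
      · rw [h3, a2, BR_Q_add]
        have h5 : s.Q 1 * s.Q (-1) = 1 := by rw [← BR_Q_add, add_neg_cancel, BR_Q_zero]
        linear_combination s.Q (-1) * s.Q c * hqq - algebraMap A K (((BRqA s)⁻¹ : Aˣ) : A) * s.Q c * h5

/-- the standing facts about the coefficients -/
structure BRH : Prop where
  ha : ∀ δ : ℤ, δ ≠ 0 → |δ| ≤ 14 → s.a δ * (s.Q δ - 1) = (s.Q 1 - 1) * s.Q δ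
  hb : ∀ δ : ℤ, 2 ≤ |δ| → |δ| ≤ 14 →
      s.b δ * s.b (-δ) * (s.Q δ - 1) ^ 2 = (s.Q (δ + 1) - 1) * (s.Q δ - s.Q 1)
  hne : ∀ δ : ℤ, δ ≠ 0 → |δ| ≤ 14 → s.Q δ ≠ 1

theorem BRL_ct (h : BRH s) (i : ℕ) (hi : i < 32) : BRL s (fun l => s.Q (BRct (i + 1) l)) :=
  BRIm.congr s (BRIm_jm s i hi) fun l hl => by
    rw [BR_jm s h.ha h.hb h.hne i hi l hl, BRdg_apply, one_mul]

theorem BRL_dl (h : BRH s) (r : ℕ) (h1 : 1 ≤ r) (h2 : r < 32) :
    BRL s (fun l => s.Q (BRdl r l)) := by
  obtain ⟨i, rfl⟩ : ∃ i, r = i + 1 := ⟨r - 1, by omega⟩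
  obtain ⟨P, hP⟩ := BR_poly_inv (K := K) (Finset.Icc (-8 : ℤ) 6) (fun j => BRqA s ^ j)
  have h3 := BRL_ct s h i (by omega)
  have h4 := BRL_ct s h (i + 1) h2
  refine BRL.congr s (BRL.mul s h4 (BRL_poly s h3 P)) fun l hl => ?_
  have hlen := BR_len hl
  have hb := BR_bound hl (BR_ct_mem (i + 1) (by omega) l (by omega))
  have h5 := hP (BRct (i + 1) l) (Finset.mem_Icc.2 hb)
  rw [← BR_Q_eq] at h5
  have h6 := BR_dl_ct (i + 1) (by omega) l (by omega)
  have h7 : BRct (i + 1 + 1) l = BRdl (i + 1) l + BRct (i + 1) l := by omega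
  rw [h7, BR_Q_add, mul_assoc, h5, mul_one]

/-- functions of `δ` which are realised as diagonal operators -/
def BRD (r : ℕ) (φ : ℤ → K) : Prop := BRL s (fun l => φ (BRdl r l))

theorem BRD.congr {r : ℕ} (h1 : 1 ≤ r) (h2 : r < 32) {φ ψ : ℤ → K} (h : BRD s r φ)
    (he : ∀ δ : ℤ, δ ≠ 0 → |δ| ≤ 14 → φ δ = ψ δ) : BRD s r ψ :=
  BRL.congr s h fun l hl => he _ (BR_dl_ne r h1 l (by rw [BR_len hl]; exact h2) hl.1)
    (BR_dl_le r h1 h2 hl)

theorem BRD.add {r : ℕ} {φ ψ : ℤ → K} (h : BRD s r φ) (h' : BRD s r ψ) :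
    BRD s r (fun δ => φ δ + ψ δ) := BRL.add s h h'

theorem BRD.mul {r : ℕ} {φ ψ : ℤ → K} (h : BRD s r φ) (h' : BRD s r ψ) :
    BRD s r (fun δ => φ δ * ψ δ) := BRL.mul s h h'

theorem BRD_const (r : ℕ) (c : A) : BRD s r (fun _ => algebraMap A K c) := BRL_const s c

theorem BRD_one (r : ℕ) : BRD s r (fun _ => 1) :=
  BRL.congr s (BRL_const s 1) fun _ _ => map_one _

theorem BRD_poly {r : ℕ} {φ : ℤ → K} (h : BRD s r φ) (p : Polynomial A) :
    BRD s r (fun δ => Polynomial.aeval (φ δ) p) := BRL_poly s h p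

theorem BRD_inv {r : ℕ} {φ : ℤ → K} (h : BRD s r φ)
    (hu : ∀ δ : ℤ, δ ≠ 0 → |δ| ≤ 14 → ∃ u : Aˣ, φ δ = algebraMap A K u) :
    ∃ ψ : ℤ → K, BRD s r ψ ∧ ∀ δ : ℤ, δ ≠ 0 → |δ| ≤ 14 → φ δ * ψ δ = 1 := by
  classical
  set u : ℤ → Aˣ := fun δ => if hd : δ ≠ 0 ∧ |δ| ≤ 14 then (hu δ hd.1 hd.2).choose else 1 with hu'
  have hu2 : ∀ δ : ℤ, δ ≠ 0 → |δ| ≤ 14 → φ δ = algebraMap A K (u δ) := by
    intro δ h1 h2
    rw [hu']
    simp only
    rw [dif_pos ⟨h1, h2⟩]
    exact (hu δ h1 h2).choose_spec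
  obtain ⟨P, hP⟩ := BR_poly_inv (K := K) ((Finset.Icc (-14 : ℤ) 14).erase 0) u
  refine ⟨fun δ => Polynomial.aeval (φ δ) P, BRD_poly s h P, fun δ h1 h2 => ?_⟩
  have := hP δ (Finset.mem_erase.2 ⟨h1, Finset.mem_Icc.2 (abs_le.1 h2)⟩)
  rw [← hu2 δ h1 h2] at this
  exact this

theorem BRD_Q (h : BRH s) (r : ℕ) (h1 : 1 ≤ r) (h2 : r < 32) : BRD s r s.Q := BRL_dl s h r h1 h2

theorem BRD_prod {r : ℕ} {ι : Type} (S : Finset ι) (f : ι → ℤ → K)
    (h : ∀ i ∈ S, BRD s r (f i)) : BRD s r (fun δ => ∏ i ∈ S, f i δ) := by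
  classical
  induction S using Finset.induction_on with
  | empty => simpa using BRD_one s r
  | insert i S hi ih =>
    have h1 := BRD.mul s (h i (Finset.mem_insert_self _ _))
      (ih (fun j hj => h j (Finset.mem_insert_of_mem hj)))
    have : (fun δ => ∏ j ∈ insert i S, f j δ) = fun δ => f i δ * ∏ j ∈ S, f j δ := by
      funext δ; rw [Finset.prod_insert hi]
    rw [this]
    exact h1

/-- the product vanishing off the residue class `j` -/
noncomputable def BRP (j : ℤ) (δ : ℤ) : K :=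
  ∏ ε ∈ ((Finset.Icc (-14 : ℤ) 14).erase 0).filter (fun ε => ε % 3 ≠ j), (s.Q δ - s.Q ε)

theorem BRD_P (h : BRH s) (r : ℕ) (h1 : 1 ≤ r) (h2 : r < 32) (j : ℤ) : BRD s r (BRP s j) := by
  unfold BRP
  refine BRD_prod s _ (fun ε δ => s.Q δ - s.Q ε) fun ε _ => ?_
  refine BRD.congr s h1 h2 (BRD.add s (BRD_Q s h r h1 h2)
    (BRD_const s r (-((BRqA s ^ ε : Aˣ) : A)))) fun δ _ _ => ?_
  rw [map_neg, ← BR_Q_eq, ← sub_eq_add_neg]

theorem BRP_unit (j δ : ℤ) (hj : δ % 3 = j) : ∃ u : Aˣ, BRP s j δ = algebraMap A K u := by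
  unfold BRP
  have key : ∀ S : Finset ℤ, (∀ ε ∈ S, ε % 3 ≠ j) →
      ∃ u : Aˣ, ∏ ε ∈ S, (s.Q δ - s.Q ε) = algebraMap A K u := by
    classical
    intro S
    induction S using Finset.induction_on with
    | empty => exact fun _ => ⟨1, by simp⟩
    | insert ε S hε ih =>
      intro hS
      obtain ⟨u, hu⟩ := ih (fun ε' h' => hS ε' (Finset.mem_insert_of_mem h'))
      have h1 := hS ε (Finset.mem_insert_self _ _)
      obtain ⟨w, hw⟩ := BR_isUnit_sub s (δ - ε) (by omega)
      obtain ⟨y, hy⟩ := BR_Q_unit s ε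
      refine ⟨y * w * u, ?_⟩
      rw [Finset.prod_insert hε, hu, Units.val_mul, Units.val_mul, map_mul, map_mul, ← hw, ← hy]
      have : s.Q δ = s.Q ε * s.Q (δ - ε) := by rw [← BR_Q_add]; congr 1; ring
      rw [this]
      ring
  exact key _ fun ε hε => (Finset.mem_filter.1 hε).2

theorem BRP_zero (j δ : ℤ) (h0 : δ ≠ 0) (h14 : |δ| ≤ 14) (hj : δ % 3 ≠ j) : BRP s j δ = 0 := by
  unfold BRP
  refine Finset.prod_eq_zero (i := δ) ?_ (sub_self _)
  rw [Finset.mem_filter, Finset.mem_erase, Finset.mem_Icc]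
  exact ⟨⟨h0, abs_le.1 h14⟩, hj⟩

/-- the projectors onto the residue classes -/
theorem BRD_e (h : BRH s) (r : ℕ) (h1 : 1 ≤ r) (h2 : r < 32) (j : ℤ) (hj : j = 0 ∨ j = 1 ∨ j = 2) :
    BRD s r (fun δ => if δ % 3 = j then 1 else 0) := by
  have hP := fun j => BRD_P s h r h1 h2 j
  have hs := BRD.add s (BRD.add s (hP 0) (hP 1)) (hP 2)
  have hval : ∀ δ : ℤ, δ ≠ 0 → |δ| ≤ 14 →
      BRP s 0 δ + BRP s 1 δ + BRP s 2 δ = BRP s (δ % 3) δ := by
    intro δ h0 h14
    have h3 : δ % 3 = 0 ∨ δ % 3 = 1 ∨ δ % 3 = 2 := by omega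
    rcases h3 with h3 | h3 | h3
    · rw [h3, BRP_zero s 1 δ h0 h14 (by omega), BRP_zero s 2 δ h0 h14 (by omega)]; ring
    · rw [h3, BRP_zero s 0 δ h0 h14 (by omega), BRP_zero s 2 δ h0 h14 (by omega)]; ring
    · rw [h3, BRP_zero s 0 δ h0 h14 (by omega), BRP_zero s 1 δ h0 h14 (by omega)]; ring
  obtain ⟨ψ, hψ, hψ1⟩ := BRD_inv s hs (fun δ h0 h14 => by
    obtain ⟨u, hu⟩ := BRP_unit s (δ % 3) δ rfl
    exact ⟨u, (hval δ h0 h14).trans hu⟩)
  refine BRD.congr s h1 h2 (BRD.mul s (hP j) hψ) fun δ h0 h14 => ?_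
  have h3 := hψ1 δ h0 h14
  rw [hval δ h0 h14] at h3
  by_cases h4 : δ % 3 = j
  · rw [if_pos h4, ← h4]; exact h3
  · rw [if_neg h4, BRP_zero s j δ h0 h14 h4, zero_mul]

/-! ### the coefficient functions -/

theorem BRD_neg {r : ℕ} {φ : ℤ → K} (h : BRD s r φ) : BRD s r (fun δ => - φ δ) := by
  refine BRL.congr s (BRL.mul s (BRL_const s (-1)) h) fun l _ => ?_
  rw [map_neg, map_one]; ring

/-- `a` away from the multiples of `3` -/
theorem BRD_a (h : BRH s) (r : ℕ) (h1 : 1 ≤ r) (h2 : r < 32) :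
    BRD s r (fun δ => if δ % 3 = 0 then 0 else s.a δ) := by
  have hQ := BRD_Q s h r h1 h2
  have he := BRD_e s h r h1 h2
  have h12 : BRD s r (fun δ => if δ % 3 = 0 then 0 else 1) := by
    refine BRD.congr s h1 h2 (BRD.add s (BRD_one s r) (BRD_neg s (he 0 (Or.inl rfl))))
      fun δ _ _ => ?_
    split_ifs <;> ring
  have hφ : BRD s r (fun δ => if δ % 3 = 0 then 1 else s.Q δ - 1) := by
    refine BRD.congr s h1 h2 (BRD.add s (BRD.mul s (BRD.add s hQ (BRD_neg s (BRD_one s r))) h12)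
      (he 0 (Or.inl rfl))) fun δ _ _ => ?_
    split_ifs <;> ring
  obtain ⟨ψ, hψ, hψ1⟩ := BRD_inv s hφ (fun δ _ _ => by
    by_cases h3 : δ % 3 = 0
    · exact ⟨1, by simp [h3]⟩
    · obtain ⟨u, hu⟩ := BR_isUnit_sub s δ h3
      exact ⟨u, by rw [if_neg h3]; exact hu⟩)
  have hq1 : BRD s r (fun _ => s.Q 1 - 1) := by
    refine BRD.congr s h1 h2 (BRD_const s r ((BRqA s : A) - 1)) fun δ _ _ => ?_
    rw [map_sub, map_one, BR_Q_eq, zpow_one]
  refine BRD.congr s h1 h2 (BRD.mul s (BRD.mul s (BRD.mul s hq1 hQ) hψ) h12) fun δ h0 h14 => ?_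
  have h4 := hψ1 δ h0 h14
  by_cases h3 : δ % 3 = 0
  · simp [h3]
  · rw [if_neg h3] at h4
    rw [if_neg h3, if_neg h3, mul_one]
    have h5 := h.ha δ h0 h14
    linear_combination -ψ δ * h5 + s.a δ * h4

theorem BR_tz_add (m n : ℤ) : s.tz (m + n) = s.tz m * s.tz n := by
  rw [Setup.tz, Setup.tz, Setup.tz, zpow_add, Units.val_mul]

theorem BR_tz_zero : s.tz 0 = 1 := by rw [Setup.tz, zpow_zero, Units.val_one]

/-- the correction factor on the residue class `1` -/
theorem BRD_U (h : BRH s) {G : Polynomial A}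
    (hG : ∀ m : ℤ, |m| ≤ 5 →
      (Polynomial.aeval (s.Q (3 * m)) G) * (s.Q (3 * m) - 1) = (m : K) * s.tz 2)
    (r : ℕ) (h1 : 1 ≤ r) (h2 : r < 32) :
    ∃ U : ℤ → K, BRD s r U ∧ (∀ δ : ℤ, δ % 3 ≠ 1 → U δ = 0) ∧
      ∀ δ : ℤ, δ % 3 = 1 → 2 ≤ |δ| → |δ| ≤ 14 →
        U δ * s.b δ = s.tz 1 * (((δ - 1) / 3 : ℤ) : K) := by
  have hQ := BRD_Q s h r h1 h2
  have he := BRD_e s h r h1 h2
  have hc : ∀ x : ℤ, BRD s r (fun _ => s.Q x) := fun x => by
    refine BRD.congr s h1 h2 (BRD_const s r ((BRqA s ^ x : Aˣ) : A)) fun δ _ _ => ?_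
    rw [BR_Q_eq]
  have he1 := he 1 (Or.inr (Or.inl rfl))
  have hφ : BRD s r (fun δ => if δ % 3 = 1 then s.Q (δ + 1) - 1 else 1) := by
    refine BRD.congr s h1 h2 (BRD.add s (BRD.mul s (BRD.add s (BRD.mul s hQ (hc 1))
      (BRD_neg s (BRD_one s r))) he1) (BRD.add s (BRD_one s r) (BRD_neg s he1)))
      fun δ _ _ => ?_
    by_cases h3 : δ % 3 = 1
    · simp only [if_pos h3, BR_Q_add]; ring
    · simp only [if_neg h3]; ring
  obtain ⟨ψ, hψ, hψ1⟩ := BRD_inv s hφ (fun δ _ _ => by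
    by_cases h3 : δ % 3 = 1
    · obtain ⟨u, hu⟩ := BR_isUnit_sub s (δ + 1) (by omega)
      exact ⟨u, by rw [if_pos h3]; exact hu⟩
    · exact ⟨1, by simp [h3]⟩)
  have hGQ : BRD s r (fun δ => Polynomial.aeval (s.Q (δ - 1)) G) := by
    refine BRD.congr s h1 h2 (BRD_poly s (BRD.mul s hQ (hc (-1))) G) fun δ _ _ => ?_
    rw [sub_eq_add_neg, BR_Q_add]
  have hQ1 := BRD.add s hQ (BRD_neg s (BRD_one s r))
  refine ⟨_, BRD.mul s (BRD.mul s (BRD.mul s (BRD.mul s hGQ (BRD.mul s hQ1 hQ1)) hψ) (hc (-1))) he1,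
    ?_, ?_⟩
  · intro δ h3
    simp only [if_neg h3, mul_zero]
  · intro δ h3 hd2 h14
    have h0 : δ ≠ 0 := by rintro rfl; norm_num at hd2
    have h4 := hψ1 δ h0 h14
    rw [if_pos h3] at h4
    simp only [if_pos h3, mul_one]
    set m : ℤ := (δ - 1) / 3 with hm
    have hδm : δ = 3 * m + 1 := by omega
    have hm5 : |m| ≤ 5 := by
      rw [abs_le] at h14 ⊢
      omega
    have h5 := hG m hm5
    have h6 : δ - 1 = 3 * m := by omega
    rw [h6]
    have hb : s.b δ = s.tz (-1) * ((s.Q (δ + 1) - 1) * (s.Q δ - s.Q 1)) *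
        Ring.inverse (s.Q δ - 1) ^ 2 := by
      rw [Setup.b, if_neg (by omega), if_neg (by omega)]
    obtain ⟨u, hu⟩ := BR_isUnit_sub s δ (by omega)
    have hinv : (s.Q δ - 1) * Ring.inverse (s.Q δ - 1) = 1 := by
      refine Ring.mul_inverse_cancel _ ?_
      rw [hu]; exact u.isUnit.map _
    have h7 : s.Q δ = s.Q 1 * s.Q (3 * m) := by rw [← BR_Q_add]; congr 1; omega
    have h8 : s.Q 1 * s.Q (-1) = 1 := by rw [← BR_Q_add, add_neg_cancel, BR_Q_zero]
    have h9 : s.tz (-1) * s.tz 2 = s.tz 1 := by rw [← BR_tz_add]; norm_num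
    have h10 : s.Q δ - s.Q 1 = s.Q 1 * (s.Q (3 * m) - 1) := by rw [h7]; ring
    rw [hb, h10]
    set g := Polynomial.aeval (s.Q (3 * m)) G
    set x := s.Q δ
    set i := Ring.inverse (x - 1)
    set y := s.Q (δ + 1)
    calc g * ((x + -1) * (x + -1)) * ψ δ * s.Q (-1) *
          (s.tz (-1) * ((y - 1) * (s.Q 1 * (s.Q (3 * m) - 1))) * i ^ 2) =
        ((x - 1) * i) ^ 2 * ((y - 1) * ψ δ) * (s.Q 1 * s.Q (-1)) * s.tz (-1) *
          (g * (s.Q (3 * m) - 1)) := by ring
      _ = s.tz 1 * (m : K) := by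
          rw [hinv, h4, h8, h5]
          linear_combination (m : K) * h9

theorem BR_inv_int (m : ℤ) (hm0 : m ≠ 0) (hm : |m| ≤ 4) :
    (m : K) * algebraMap A K (s.cst (Ring.inverse (m : O))) = 1 := by
  have hu : IsUnit (m : O) := by
    have h1 : IsUnit ((m.natAbs : ℕ) : O) := by
      refine s.hunit m.natAbs (Int.natAbs_pos.2 hm0) ?_
      have : (m.natAbs : ℤ) = |m| := Int.natCast_natAbs m
      omega
    rcases Int.natAbs_eq m with h2 | h2
    · rw [h2, Int.cast_natCast]; exact h1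
    · rw [h2, Int.cast_neg, Int.cast_natCast]; exact h1.neg
  have h1 : (m : O) * Ring.inverse (m : O) = 1 := Ring.mul_inverse_cancel _ hu
  have h2 : (m : K) = algebraMap A K (s.cst (m : O)) := by rw [map_intCast, map_intCast]
  rw [h2, ← map_mul, ← map_mul, h1, map_one, map_one]

/-- the correction factor on the residue class `0` -/
theorem BRD_V (h : BRH s) {G : Polynomial A}
    (hG : ∀ m : ℤ, |m| ≤ 5 →
      (Polynomial.aeval (s.Q (3 * m)) G) * (s.Q (3 * m) - 1) = (m : K) * s.tz 2 ∧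
      (m ≠ 0 → ∃ u : Aˣ, Polynomial.aeval (s.Q (3 * m)) G = algebraMap A K u))
    (r : ℕ) (h1 : 1 ≤ r) (h2 : r < 32) :
    ∃ V : ℤ → K, BRD s r V ∧ (∀ δ : ℤ, δ % 3 ≠ 0 → V δ = 0) ∧
      ∀ δ : ℤ, δ % 3 = 0 → δ ≠ 0 → |δ| ≤ 14 →
        V δ * s.b δ = s.tz (-2) * algebraMap A K (s.cst (Ring.inverse ((δ / 3 : ℤ) : O))) := by
  have hQ := BRD_Q s h r h1 h2
  have he := BRD_e s h r h1 h2
  have hc : ∀ x : ℤ, BRD s r (fun _ => s.Q x) := fun x => by
    refine BRD.congr s h1 h2 (BRD_const s r ((BRqA s ^ x : Aˣ) : A)) fun δ _ _ => ?_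
    rw [BR_Q_eq]
  have he0 := he 0 (Or.inl rfl)
  have hφ : BRD s r (fun δ => if δ % 3 = 0 then
      Polynomial.aeval (s.Q δ) G * (s.Q (δ + 1) - 1) else 1) := by
    refine BRD.congr s h1 h2 (BRD.add s (BRD.mul s (BRD.mul s (BRD_poly s hQ G)
      (BRD.add s (BRD.mul s hQ (hc 1)) (BRD_neg s (BRD_one s r)))) he0)
      (BRD.add s (BRD_one s r) (BRD_neg s he0))) fun δ _ _ => ?_
    by_cases h3 : δ % 3 = 0
    · simp only [if_pos h3, BR_Q_add]; ring
    · simp only [if_neg h3]; ring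
  obtain ⟨ψ, hψ, hψ1⟩ := BRD_inv s hφ (fun δ h0 h14 => by
    by_cases h3 : δ % 3 = 0
    · obtain ⟨u, hu⟩ := BR_isUnit_sub s (δ + 1) (by omega)
      have hm : δ = 3 * (δ / 3) := by omega
      obtain ⟨w, hw⟩ := (hG (δ / 3) (by rw [abs_le] at h14 ⊢; omega)).2 (by omega)
      rw [← hm] at hw
      exact ⟨w * u, by rw [if_pos h3, hw, hu, Units.val_mul, map_mul]⟩
    · exact ⟨1, by simp [h3]⟩)
  refine ⟨_, BRD.mul s hψ he0, ?_, ?_⟩
  · intro δ h3
    simp only [if_neg h3, mul_zero]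
  · intro δ h3 h0 h14
    have h4 := hψ1 δ h0 h14
    rw [if_pos h3] at h4
    simp only [if_pos h3, mul_one]
    set m : ℤ := δ / 3 with hm
    have hδm : δ = 3 * m := by omega
    have hm4 : |m| ≤ 4 := by
      rw [abs_le] at h14 ⊢
      omega
    have hm0 : m ≠ 0 := by omega
    have h5 := (hG m (by omega)).1
    rw [← hδm] at h5
    have h6 := BR_inv_int s m hm0 hm4
    have hb : s.b δ = s.a δ + 1 := by rw [Setup.b, if_pos h3]
    have h7 : s.b δ * (s.Q δ - 1) = s.Q (δ + 1) - 1 := by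
      rw [hb, BR_Q_add]
      linear_combination h.ha δ h0 h14
    have h8 : s.tz (-2) * s.tz 2 = 1 := by rw [← BR_tz_add]; norm_num [BR_tz_zero]
    set g := Polynomial.aeval (s.Q δ) G
    set inv := algebraMap A K (s.cst (Ring.inverse (m : O)))
    -- multiply by m t^2
    have h9 : (ψ δ * s.b δ) * ((m : K) * s.tz 2) = 1 := by
      rw [← h5]
      linear_combination h4 + ψ δ * g * h7
    calc ψ δ * s.b δ = (ψ δ * s.b δ) * ((m : K) * inv) * (s.tz (-2) * s.tz 2) := by
          rw [h6, h8, mul_one, mul_one]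
      _ = ((ψ δ * s.b δ) * ((m : K) * s.tz 2)) * (s.tz (-2) * inv) := by ring
      _ = s.tz (-2) * inv := by rw [h9, one_mul]

/-- the statement, from the facts on the coefficients -/
theorem BR_main (h : BRH s) {G : Polynomial A}
    (hG : ∀ m : ℤ, |m| ≤ 5 →
      (Polynomial.aeval (s.Q (3 * m)) G) * (s.Q (3 * m) - 1) = (m : K) * s.tz 2 ∧
      (m ≠ 0 → ∃ u : Aˣ, Polynomial.aeval (s.Q (3 * m)) G = algebraMap A K u))
    (r : ℕ) (h1 : 1 ≤ r) (h2 : r < 32) : BRIm s (s.Psi r) := by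
  have ha := BRD_a s h r h1 h2
  have he2 := BRD_e s h r h1 h2 2 (Or.inr (Or.inr rfl))
  obtain ⟨U, hU, hU0, hU1⟩ := BRD_U s h (fun m hm => (hG m hm).1) r h1 h2
  obtain ⟨V, hV, hV0, hV1⟩ := BRD_V s h hG r h1 h2
  -- (T - a)(e2 + U) + (T + 1) V
  have hEU := BRD.add s he2 hU
  have hT := BRIm_T s r h1 h2
  have hop1 := BRIm.mul s hT (show BRIm s (BRdg _) from hEU)
  have hop2 : BRIm s (BRdg _) := BRD_neg s (BRD.mul s ha hEU)
  have hop3 := BRIm.mul s hT (show BRIm s (BRdg _) from hV)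
  have hop4 : BRIm s (BRdg _) := hV
  refine BRIm.congr s (BRIm.add s (BRIm.add s hop1 hop2) (BRIm.add s hop3 hop4)) fun l hl => ?_
  have hlen : r < l.length := by rw [BR_len hl]; exact h2
  have hTx : ∀ x : K, s.T r (single l x) =
      single l (x * s.a (BRdl r l)) + single (swp r l)
        (x * (if 2 ≤ |BRdl r l| then s.b (BRdl r l) else 0)) := by
    intro x
    have e1 : single l x = x • single l (1 : K) := by rw [smul_single, smul_eq_mul, mul_one]
    rw [e1, map_smul, BR_T s r h1 h2 hl, smul_add, smul_single, smul_single,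
      smul_eq_mul, smul_eq_mul]
  simp only [LinearMap.add_apply, Module.End.mul_apply, BRdg_apply, one_mul, hTx]
  rw [Setup.Psi, BR_op _ _ r h1 l hlen]
  have hδ0 : BRdl r l ≠ 0 := BR_dl_ne r h1 l hlen hl.1
  have hδ14 : |BRdl r l| ≤ 14 := BR_dl_le r h1 h2 hl
  set δ := BRdl r l with hδ
  have h3 : δ % 3 = 0 ∨ δ % 3 = 1 ∨ δ % 3 = 2 := by omega
  rcases h3 with h3 | h3 | h3
  · have hab : 2 ≤ |δ| := by
      rcases abs_cases δ with ⟨h4, h5⟩ | ⟨h4, h5⟩ <;> omega
    have h5 := hV1 δ h3 hδ0 hδ14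
    have hU2 : U δ = 0 := hU0 δ (by omega)
    have hb : s.b δ = s.a δ + 1 := by rw [Setup.b, if_pos h3]
    have h6 : s.tz (-2) * algebraMap A K (s.cst (D1 O δ)) = V δ * s.b δ := by
      rw [h5, D1, if_pos h3]
    have h7 : s.tz (-2) * algebraMap A K (s.cst (S1 O δ)) = V δ * s.b δ := by
      rw [h5, S1, if_pos h3]
    simp only [if_pos h3, if_pos hab, hU2, h6, h7]
    rw [if_neg (by omega : ¬ δ % 3 = 2)]
    simp only [add_zero, zero_mul, mul_zero, neg_zero, single_zero, zero_add]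
    rw [hb]
    have : V δ * (s.a δ + 1) = V δ * s.a δ + V δ := by ring
    rw [this, single_add l]
    abel
  · have hV2 : V δ = 0 := hV0 δ (by omega)
    rw [if_neg (by omega : ¬ δ % 3 = 2), if_neg (by omega : ¬ δ % 3 = 0),
      if_neg (by omega : ¬ δ % 3 = 0), if_neg (by omega : ¬ δ % 3 = 0), hV2]
    simp only [add_zero, zero_mul, single_zero, zero_add]
    have e1 : single l (U δ * s.a δ) + single (swp r l) (U δ * if 2 ≤ |δ| then s.b δ else 0) +
        single l (-(s.a δ * U δ)) = single (swp r l) (U δ * if 2 ≤ |δ| then s.b δ else 0) := by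
      rw [mul_comm (s.a δ), single_neg]; abel
    rw [e1]
    congr 1
    by_cases hab : 2 ≤ |δ|
    · rw [if_pos hab, hU1 δ h3 hab hδ14, S1, if_neg (by omega), if_pos h3, map_intCast, map_intCast]
    · have : δ = 1 := by
        rcases abs_cases δ with ⟨h4, h5⟩ | ⟨h4, h5⟩ <;> omega
      rw [if_neg hab, mul_zero, this, S1, if_neg (by norm_num), if_pos (by norm_num)]
      norm_num
  · have hV2 : V δ = 0 := hV0 δ (by omega)
    have hU2 : U δ = 0 := hU0 δ (by omega)
    rw [if_pos h3, if_neg (by omega : ¬ δ % 3 = 0),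
      if_neg (by omega : ¬ δ % 3 = 0), if_neg (by omega : ¬ δ % 3 = 0), hV2, hU2]
    simp only [add_zero, zero_mul, single_zero, zero_add, one_mul, mul_one]
    have e1 : single l (s.a δ) + single (swp r l) (if 2 ≤ |δ| then s.b δ else 0) +
        single l (-(s.a δ)) = single (swp r l) (if 2 ≤ |δ| then s.b δ else 0) := by
      rw [single_neg]; abel
    rw [e1]
    congr 1
    have hS : S1 O δ = if 2 ≤ |δ| then 1 else 0 := by
      rw [S1, if_neg (by omega), if_neg (by omega)]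
    rw [hS]
    by_cases hab : 2 ≤ |δ|
    · rw [if_pos hab, if_pos hab, Setup.b, if_neg (by omega), if_pos h3, map_one, map_one, mul_one]
    · rw [if_neg hab, if_neg hab, map_zero, map_zero, mul_zero]

end

end J3
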