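import Pool.Agent.J3.Defs
import Pool.Agent.J3.COEF

/-!
# CONN: connectivity of standard content lists by admissible swaps, and nondegeneracy
-/

set_option autoImplicit false

namespace J3
open Finsupp

/-! ### Combinatorics of admissible swaps -/

/-- one admissible swap -/
def CONN_Step (l m : List ℤ) : Prop :=
  ∃ (p : List ℤ) (c' c : ℤ) (r : List ℤ), 2 ≤ |c' - c| ∧ l = p ++ c' :: c :: r ∧ m = p ++ c :: c' :: r

theorem CONN_Step_symm {l m : List ℤ} (h : CONN_Step l m) : CONN_Step m l := by
  obtain ⟨p, c', c, r, h2, rfl, rfl⟩ := h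
  exact ⟨p, c, c', r, by rwa [abs_sub_comm], rfl, rfl⟩

theorem CONN_Step_cons (x : ℤ) {l m : List ℤ} (h : CONN_Step l m) : CONN_Step (x :: l) (x :: m) := by
  obtain ⟨p, c', c, r, h2, rfl, rfl⟩ := h
  exact ⟨x :: p, c', c, r, h2, rfl, rfl⟩

theorem CONN_Step_perm {l m : List ℤ} (h : CONN_Step l m) : l.Perm m := by
  obtain ⟨p, c', c, r, h2, rfl, rfl⟩ := h
  exact List.Perm.append_left p (List.Perm.swap _ _ _)

/-- connectivity -/
def CONN_R : List ℤ → List ℤ → Prop := Relation.ReflTransGen CONN_Step

theorem CONN_R_symm {l m : List ℤ} (h : CONN_R l m) : CONN_R m l := by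
  induction h with
  | refl => exact Relation.ReflTransGen.refl
  | tail _ hbc ih => exact Relation.ReflTransGen.head (CONN_Step_symm hbc) ih

theorem CONN_R_cons (x : ℤ) {l m : List ℤ} (h : CONN_R l m) : CONN_R (x :: l) (x :: m) := by
  induction h with
  | refl => exact Relation.ReflTransGen.refl
  | tail _ hbc ih => exact Relation.ReflTransGen.tail ih (CONN_Step_cons x hbc)

theorem CONN_R_perm {l m : List ℤ} (h : CONN_R l m) : l.Perm m := by
  induction h with
  | refl => exact List.Perm.refl _
  | tail _ hbc ih => exact ih.trans (CONN_Step_perm hbc)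

theorem CONN_R_swap {c' c : ℤ} (h : 2 ≤ |c' - c|) (r : List ℤ) :
    CONN_R (c' :: c :: r) (c :: c' :: r) :=
  Relation.ReflTransGen.single ⟨[], c', c, r, h, rfl, rfl⟩

/-- `Addable` only depends on the values at `c - 1, c, c + 1` -/
theorem CONN_addable_congr {f g : ℤ → ℕ} {c : ℤ} (h0 : f c = g c) (h1 : f (c + 1) = g (c + 1))
    (h2 : f (c - 1) = g (c - 1)) (h : Addable f c) : Addable g c := by
  unfold Addable at h ⊢
  rw [← h0, ← h1, ← h2]
  exact h

/-- two different removable boxes are not on neighbouring diagonals -/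
theorem CONN_two_removable {f g k : ℤ → ℕ} {c d : ℤ} (hcd : c ≠ d)
    (hf : Addable f c) (hg : Addable g d)
    (hkf : ∀ e, k e = f e + if e = c then 1 else 0)
    (hkg : ∀ e, k e = g e + if e = d then 1 else 0) : 2 ≤ |c - d| := by
  by_contra hlt
  have hlt' : |c - d| < 2 := by omega
  rw [abs_lt] at hlt'
  have hcd' : c = d + 1 ∨ d = c + 1 := by omega
  obtain ⟨a1, a2, a3, a4⟩ := hf
  obtain ⟨b1, b2, b3, b4⟩ := hg
  rcases hcd' with rfl | rfl
  · have k0 := hkf d
    have k1 := hkf (d + 1)
    have l0 := hkg d
    have l1 := hkg (d + 1)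
    have k2 := hkf (d + 1 - 1)
    have l2 := hkg (d + 1 - 1)
    have e1 : (d + 1 - 1 : ℤ) = d := by ring
    rw [e1] at a2 a3 k2 l2
    have hne : ¬ (d = d + 1) := by omega
    have hne' : ¬ (d + 1 = d) := by omega
    simp only [hne, hne', if_true, if_false] at k0 k1 l0 l1
    rcases lt_trichotomy d 0 with hd | hd | hd
    · have := b4 hd
      have := a2 (by omega)
      omega
    · have := b1 (by omega)
      have := a3 (by omega)
      omega
    · have := b1 (by omega)
      have := a3 (by omega)
      omega
  · have k0 := hkf c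
    have k1 := hkf (c + 1)
    have l0 := hkg c
    have l1 := hkg (c + 1)
    have e1 : (c + 1 - 1 : ℤ) = c := by ring
    rw [e1] at b2 b3
    have hne : ¬ (c = c + 1) := by omega
    have hne' : ¬ (c + 1 = c) := by omega
    simp only [hne, hne', if_true, if_false] at k0 k1 l0 l1
    rcases lt_trichotomy c 0 with hd | hd | hd
    · have := a4 hd
      have := b2 (by omega)
      omega
    · have := a1 (by omega)
      have := b3 (by omega)
      omega
    · have := a1 (by omega)
      have := b3 (by omega)
      omega

theorem CONN_count_cons (c : ℤ) (l : List ℤ) (e : ℤ) :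
    (c :: l).count e = l.count e + if e = c then 1 else 0 := by
  rw [List.count_cons]
  by_cases h : c = e
  · subst h; simp
  · have h' : ¬ e = c := fun h1 => h h1.symm
    simp [h, h']

/-- a removable box can be moved to the head by admissible swaps -/
theorem CONN_head (l : List ℤ) : ∀ (c : ℤ) (f : ℤ → ℕ), IsStd l → Addable f c →
    (∀ e, l.count e = f e + if e = c then 1 else 0) →
    ∃ l', CONN_R l (c :: l') ∧ IsStd (c :: l') := by
  induction l with
  | nil =>
    intro c f _ _ hc
    have := hc c
    simp at this
  | cons d l1 ih =>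
    intro c f hl hf hc
    by_cases hcd : c = d
    · subst hcd
      exact ⟨l1, Relation.ReflTransGen.refl, hl⟩
    · obtain ⟨hd, hl1⟩ := hl
      have h2 : 2 ≤ |c - d| := CONN_two_removable hcd hf hd hc (fun e => CONN_count_cons d l1 e)
      have hne1 : d ≠ c + 1 := by
        rintro rfl
        simp at h2
      have hne2 : d ≠ c - 1 := by
        rintro rfl
        simp at h2
      have hne3 : c ≠ d := hcd
      -- the function `f - δ_d`
      have hval : ∀ e, f e + (if e = c then 1 else 0) = l1.count e + (if e = d then 1 else 0) := by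
        intro e
        rw [← hc e, CONN_count_cons]
      have hfd : ∀ e, l1.count e = (f e - if e = d then 1 else 0) + if e = c then 1 else 0 := by
        intro e
        have h1 := hval e
        by_cases he : e = d
        · subst he
          have hne : ¬ e = c := fun h => hcd h.symm
          simp only [hne, if_true, if_false] at h1 ⊢
          omega
        · simp only [he, if_false] at h1 ⊢
          omega
      have hadd : Addable (fun e => f e - if e = d then 1 else 0) c := by
        refine CONN_addable_congr ?_ ?_ ?_ hf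
        · simp [hcd]
        · have : ¬ (c + 1 = d) := fun h => hne1 h.symm
          simp [this]
        · have : ¬ (c - 1 = d) := fun h => hne2 h.symm
          simp [this]
      obtain ⟨l2, hR, hs2⟩ := ih c (fun e => f e - if e = d then 1 else 0) hl1 hadd hfd
      obtain ⟨hc2, hl2⟩ := hs2
      have hperm := CONN_R_perm hR
      have hcount : ∀ e, l1.count e = l2.count e + if e = c then 1 else 0 := by
        intro e
        rw [hperm.count_eq e, CONN_count_cons]
      have hd2 : Addable (fun e => l2.count e) d := by
        refine CONN_addable_congr ?_ ?_ ?_ hd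
        · have h1 := hcount d
          have : ¬ d = c := fun h => hcd h.symm
          simpa [this] using h1
        · have h1 := hcount (d + 1)
          have : ¬ (d + 1 = c) := by omega
          simpa [this] using h1
        · have h1 := hcount (d - 1)
          have : ¬ (d - 1 = c) := by omega
          simpa [this] using h1
      refine ⟨d :: l2, ?_, ?_⟩
      · refine (CONN_R_cons d hR).trans (CONN_R_swap ?_ l2)
        rwa [abs_sub_comm]
      · refine ⟨?_, hd2, hl2⟩
        refine CONN_addable_congr ?_ ?_ ?_ hc2
        · show l2.count _ = (d :: l2).count _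
          rw [CONN_count_cons]
          simp [hcd]
        · show l2.count _ = (d :: l2).count _
          rw [CONN_count_cons]
          have : ¬ (c + 1 = d) := fun h => hne1 h.symm
          simp [this]
        · show l2.count _ = (d :: l2).count _
          rw [CONN_count_cons]
          have : ¬ (c - 1 = d) := fun h => hne2 h.symm
          simp [this]

/-- two standard lists with the same entries are connected -/
theorem CONN_conn (l : List ℤ) : ∀ m : List ℤ, IsStd l → IsStd m → m.Perm l → CONN_R m l := by
  induction l with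
  | nil =>
    intro m _ _ h
    have : m = [] := h.eq_nil
    subst this
    exact Relation.ReflTransGen.refl
  | cons c l1 ih =>
    intro m hl hm h
    obtain ⟨hc, hl1⟩ := hl
    obtain ⟨m1, hR, hs⟩ := CONN_head m c (fun e => l1.count e) hm hc (by
      intro e
      rw [h.count_eq e, CONN_count_cons])
    have hp : m1.Perm l1 := by
      have := (CONN_R_perm hR).symm.trans h
      exact (List.perm_cons c).1 this
    exact hR.trans (CONN_R_cons c (ih m1 hl1 hs.2 hp))

/-! ### The operators on a single list -/

section op
variable {R : Type*} [CommRing R]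

theorem CONN_opB_append (D S : ℤ → R) (c' c : ℤ) (r : List ℤ) : ∀ p : List ℤ,
    opB D S (r.length + 1) (p ++ c' :: c :: r) =
      single (p ++ c' :: c :: r) (D (c' - c)) + single (p ++ c :: c' :: r) (S (c' - c)) := by
  intro p
  induction p with
  | nil => simp [opB]
  | cons x p ih =>
    have key : ∀ (y : ℤ) (s : List ℤ), s.length + 1 ≠ r.length + 1 →
        opB D S (r.length + 1) (x :: y :: s) = mapDomain (List.cons x) (opB D S (r.length + 1) (y :: s)) := by
      intro y s h
      simp only [opB]
      rw [if_neg h]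
    cases p with
    | nil =>
      simp only [List.cons_append, List.nil_append] at ih ⊢
      rw [key _ _ (by simp), ih, mapDomain_add, mapDomain_single, mapDomain_single]
    | cons y p =>
      simp only [List.cons_append] at ih ⊢
      rw [key _ _ (by simp; omega), ih, mapDomain_add, mapDomain_single, mapDomain_single]

theorem CONN_op_append (D S : ℤ → R) (c' c : ℤ) (p r : List ℤ) (k : R) :
    op D S (r.length + 1) (single (p ++ c' :: c :: r) k) =
      k • (single (p ++ c' :: c :: r) (D (c' - c)) + single (p ++ c :: c' :: r) (S (c' - c))) := by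
  unfold op
  rw [linearCombination_single, CONN_opB_append]

theorem CONN_form_single (γ : List ℤ → R) (v : List ℤ →₀ R) (l : List ℤ) (k : R) :
    form γ v (single l k) = γ l * v l * k := by
  unfold form
  induction v using Finsupp.induction_linear with
  | zero => simp
  | add f g hf hg => rw [map_add, LinearMap.add_apply, hf, hg]; simp; ring
  | single m x =>
    rw [linearCombination_single]
    simp only [LinearMap.smul_apply, lapply_apply, smul_eq_mul]
    by_cases h : m = l
    · subst h; simp; ring
    · have h' : ¬ l = m := fun h1 => h h1.symm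
      simp [h, h']

end op

/-! ### Contents are between `-8` and `6` -/

theorem CONN_mem_rowL {c : ℤ} (h : c ∈ rowL) : -8 ≤ c ∧ c ≤ 6 := by
  have : ∀ c ∈ rowL, -8 ≤ c ∧ c ≤ 6 := by decide
  exact this c h

theorem CONN_colL_perm : colL.Perm rowL := by decide

instance CONN_decIsStd : DecidablePred IsStd
  | [] => isTrue trivial
  | c :: l => by
    haveI := CONN_decIsStd l
    unfold IsStd
    infer_instance

theorem CONN_colL_std : IsStd colL := by decide +kernel

theorem CONN_colL_length : colL.length = 32 := by decide

/-! ### Units -/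

section
variable {O A K : Type} [CommRing O] [IsDomain O] [CommRing A] [IsDomain A]
    [CommRing K] [IsDomain K] [Algebra A K] (s : Setup O A K)

/-- hypothesis on the weights (a consequence of `COEF_w`) -/
def CONN_W : Prop := ∀ δ : ℤ, 2 ≤ |δ| → |δ| ≤ 14 → IsUnit (s.w δ)

theorem CONN_tz_unit (m : ℤ) : IsUnit (s.tz m) := (s.tU ^ m).isUnit

theorem CONN_b_unit (hW : CONN_W s) (δ : ℤ) (h2 : 2 ≤ |δ|) (h14 : |δ| ≤ 14) : IsUnit (s.b δ) := by
  have h := hW δ h2 h14
  unfold Setup.w at h
  split_ifs at h
  · exact isUnit_of_mul_isUnit_right h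
  · exact isUnit_of_mul_isUnit_right h

theorem CONN_gam_unit (hW : CONN_W s) (l : List ℤ) (hl : ∀ c ∈ l, -8 ≤ c ∧ c ≤ 6) :
    IsUnit (gam s.w l) := by
  induction l with
  | nil => simp [gam]
  | cons c l ih =>
    simp only [gam]
    refine (ih (fun d hd => hl d (List.mem_cons_of_mem _ hd))).mul ?_
    have hc := hl c List.mem_cons_self
    have hall : ∀ d ∈ l, -8 ≤ d ∧ d ≤ 6 := fun d hd => hl d (List.mem_cons_of_mem _ hd)
    clear ih hl
    induction l with
    | nil => simp
    | cons d l ih2 =>
      simp only [List.map_cons, List.prod_cons]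
      refine IsUnit.mul ?_ (ih2 (fun e he => hall e (List.mem_cons_of_mem _ he)))
      split_ifs with h
      · exact isUnit_one
      · have hd := hall d List.mem_cons_self
        refine hW _ (by omega) ?_
        rw [abs_le]
        constructor <;> linarith [hc.1, hc.2, hd.1, hd.2]

/-- the `K`-span of the orbit of `z'` -/
noncomputable def CONN_N : Submodule K (List ℤ →₀ K) :=
  Submodule.span K ((orb s.TA 32 s.z' : Submodule A (List ℤ →₀ K)) : Set (List ℤ →₀ K))

theorem CONN_orb_T (i : ℕ) (h1 : 1 ≤ i) (h2 : i < 32) (x : List ℤ →₀ K) (hx : x ∈ orb s.TA 32 s.z') :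
    s.TA i x ∈ orb s.TA 32 s.z' := by
  unfold orb at hx ⊢
  rw [Submodule.mem_sInf] at hx ⊢
  intro P hP
  exact hP.2 i h1 h2 x (hx P hP)

theorem CONN_N_T (i : ℕ) (h1 : 1 ≤ i) (h2 : i < 32) (x : List ℤ →₀ K) (hx : x ∈ CONN_N s) :
    s.T i x ∈ CONN_N s := by
  unfold CONN_N at hx ⊢
  induction hx using Submodule.span_induction with
  | mem x hx => exact Submodule.subset_span (CONN_orb_T s i h1 h2 x hx)
  | zero => rw [map_zero]; exact Submodule.zero_mem _
  | add x y _ _ hx hy => rw [map_add]; exact Submodule.add_mem _ hx hy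
  | smul a x _ hx => rw [map_smul]; exact Submodule.smul_mem _ _ hx

theorem CONN_N_step (hW : CONN_W s) {l m : List ℤ} (h : CONN_Step l m) (hl : ∀ c ∈ l, -8 ≤ c ∧ c ≤ 6)
    (hlen : l.length = 32) (hN : (single l 1 : List ℤ →₀ K) ∈ CONN_N s) :
    (single m 1 : List ℤ →₀ K) ∈ CONN_N s := by
  obtain ⟨p, c', c, r, h2, rfl, rfl⟩ := h
  have hlen' : p.length + (r.length + 2) = 32 := by simpa using hlen
  have hT := CONN_N_T s (r.length + 1) (by omega) (by omega) _ hN
  unfold Setup.T at hT
  rw [CONN_op_append, one_smul] at hT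
  rw [if_pos h2] at hT
  have hc' := hl c' (by simp)
  have hc := hl c (by simp)
  have hb : IsUnit (s.b (c' - c)) := by
    refine CONN_b_unit s hW _ h2 ?_
    rw [abs_le]
    constructor <;> linarith [hc.1, hc.2, hc'.1, hc'.2]
  obtain ⟨u, hu⟩ := hb
  have h3 : (single (p ++ c' :: c :: r) (s.a (c' - c)) : List ℤ →₀ K) ∈ CONN_N s := by
    have : (single (p ++ c' :: c :: r) (s.a (c' - c)) : List ℤ →₀ K) =
        s.a (c' - c) • single (p ++ c' :: c :: r) 1 := by simp
    rw [this]
    exact Submodule.smul_mem _ _ hN
  have h4 := (Submodule.add_mem_iff_right _ h3).1 hT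
  have h5 : (single (p ++ c :: c' :: r) 1 : List ℤ →₀ K) =
      ((u⁻¹ : Kˣ) : K) • single (p ++ c :: c' :: r) (s.b (c' - c)) := by
    rw [← hu]
    simp
  rw [h5]
  exact Submodule.smul_mem _ _ h4

theorem CONN_N_all (hW : CONN_W s) (l : List ℤ) (hl : InK l) :
    (single l 1 : List ℤ →₀ K) ∈ CONN_N s := by
  have h0 : (single colL 1 : List ℤ →₀ K) ∈ CONN_N s := by
    have hz : s.z' ∈ CONN_N s := by
      refine Submodule.subset_span ?_
      show s.z' ∈ orb s.TA 32 s.z'
      unfold orb
      rw [Submodule.mem_sInf]
      exact fun P hP => hP.1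
    have h1 : (single colL 1 : List ℤ →₀ K) = s.tz 2 • s.z' := by
      unfold Setup.z' Setup.tz
      rw [smul_single, smul_eq_mul, ← Units.val_mul, ← zpow_add]
      norm_num
    rw [h1]
    exact Submodule.smul_mem _ _ hz
  have hR : CONN_R colL l := CONN_conn l colL hl.1 CONN_colL_std (CONN_colL_perm.trans hl.2.symm)
  have key : ∀ m, CONN_R colL m → (single m 1 : List ℤ →₀ K) ∈ CONN_N s := by
    intro m hm
    induction hm with
    | refl => exact h0
    | @tail b c hab hbc ih =>
      have hp := CONN_R_perm hab
      refine CONN_N_step s hW hbc ?_ ?_ ih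
      · intro e he
        have : e ∈ rowL := CONN_colL_perm.mem_iff.1 (hp.mem_iff.2 he)
        exact CONN_mem_rowL this
      · rw [← hp.length_eq]
        exact CONN_colL_length
  exact key l hR

theorem CONN_total_aux (hW : CONN_W s) (v : List ℤ →₀ K) (hv : v ∈ s.VK)
    (h : ∀ x ∈ orb s.TA 32 s.z', s.B v x = 0) : v = 0 := by
  have hN : ∀ x ∈ CONN_N s, s.B v x = 0 := by
    intro x hx
    unfold CONN_N at hx
    induction hx using Submodule.span_induction with
    | mem x hx => exact h x hx
    | zero => simp
    | add x y _ _ hx hy => rw [map_add, hx, hy, add_zero]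
    | smul a x _ hx => rw [map_smul, hx, smul_zero]
  ext l
  by_cases hl : InK l
  · have h1 := hN _ (CONN_N_all s hW l hl)
    unfold Setup.B at h1
    rw [CONN_form_single, mul_one] at h1
    have hg : IsUnit (gam s.w l) :=
      CONN_gam_unit s hW l (fun c hc => CONN_mem_rowL (hl.2.mem_iff.1 hc))
    exact (mul_eq_zero.1 h1).resolve_left hg.ne_zero
  · by_contra hne
    exact hl ((Finsupp.mem_supported K v).1 hv (Finsupp.mem_support_iff.2 hne))

theorem CONN_W_holds : CONN_W s := by
  intro δ h2 h14
  obtain ⟨u, hu, _⟩ := COEF_w s δ h2 h14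
  rw [hu]
  exact u.isUnit.map (algebraMap A K)

theorem CONN_total (v : List ℤ →₀ K) (hv : v ∈ s.VK)
    (h : ∀ x ∈ orb s.TA 32 s.z', s.B v x = 0) : v = 0 :=
  CONN_total_aux s (CONN_W_holds s) v hv h

end

end J3
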