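import Mathlib

/-!
# Common definitions for the counterexample to James's conjecture for `e = 3` (MP_36c429_al)

Standard tableaux of shape `κ = (7,5,4,4,4,3,3,1,1)` (and of its subdiagrams) are encoded by their
content lists, the LAST letter being the HEAD of the list.
-/

set_option autoImplicit false

namespace J3

open Finsupp

instance fact13 : Fact (Nat.Prime 13) := ⟨by norm_num⟩

/-! ## 1. Content lists -/

/-- `f d` is the number of boxes on the diagonal `d`.  `Addable f c`: a box can be added on the diagonal `c`. -/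
def Addable (f : ℤ → ℕ) (c : ℤ) : Prop :=
  (0 ≤ c → f (c + 1) = f c) ∧ (c ≤ 0 → f (c - 1) = f c) ∧
  (0 < c → f (c - 1) = f c + 1) ∧ (c < 0 → f (c + 1) = f c + 1)

instance (f : ℤ → ℕ) (c : ℤ) : Decidable (Addable f c) := by unfold Addable; infer_instance

/-- standard content lists (the head is the content of the last letter) -/
def IsStd : List ℤ → Prop
  | [] => True
  | c :: l => Addable (fun d => l.count d) c ∧ IsStd l

/-- contents of the row reading tableau of shape `κ`, first letter first -/
def rowSeq : List ℤ :=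
  [0,1,2,3,4,5,6, -1,0,1,2,3, -2,-1,0,1, -3,-2,-1,0, -4,-3,-2,-1, -5,-4,-3, -6,-5,-4, -7, -8]

/-- contents of the column reading tableau of shape `κ`, first letter first -/
def colSeq : List ℤ :=
  [0,-1,-2,-3,-4,-5,-6,-7,-8, 1,0,-1,-2,-3,-4,-5, 2,1,0,-1,-2,-3,-4, 3,2,1,0,-1, 4,3, 5, 6]

/-- head = last letter -/
def rowL : List ℤ := rowSeq.reverse
/-- head = last letter -/
def colL : List ℤ := colSeq.reverse

/-- standard tableaux of shape `κ` -/
def InK (l : List ℤ) : Prop := IsStd l ∧ l.Perm rowL

/-! ## 2. Local operators -/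

section op
variable {R : Type*} [CommRing R]

/-- The operator acting on the letters `r, r+1` (`r ≥ 1`): if the letters `r`, `r+1` have contents `c`, `c'`
and `δ = c' - c`, the list is sent to `D δ • (itself) + S δ • (swapped list)`. -/
noncomputable def opB (D S : ℤ → R) (r : ℕ) : List ℤ → (List ℤ →₀ R)
  | [] => 0
  | [_] => 0
  | c' :: c :: l =>
      if l.length + 1 = r then
        single (c' :: c :: l) (D (c' - c)) + single (c :: c' :: l) (S (c' - c))
      else mapDomain (List.cons c') (opB D S r (c :: l))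

/-- linear extension of `opB` -/
noncomputable def op (D S : ℤ → R) (r : ℕ) : Module.End R (List ℤ →₀ R) :=
  linearCombination R (opB D S r)

/-- diagonal operator: multiplies the list by `g δ`, `δ = (content of letter r+1) - (content of letter r)` -/
noncomputable def diagOp (g : ℤ → R) (r : ℕ) : Module.End R (List ℤ →₀ R) := op g (fun _ => 0) r

/-- coefficients of the Khovanov-Lauda-Rouquier operators at `x = 1` -/
noncomputable def D1 (R : Type*) [CommRing R] (δ : ℤ) : R :=
  if δ % 3 = 0 then Ring.inverse ((δ / 3 : ℤ) : R) else 0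

noncomputable def S1 (R : Type*) [CommRing R] (δ : ℤ) : R :=
  if δ % 3 = 0 then Ring.inverse ((δ / 3 : ℤ) : R)
  else if δ % 3 = 1 then (((δ - 1) / 3 : ℤ) : R)
  else if 2 ≤ |δ| then 1 else 0

/-- the KLR generator at `x = 1` -/
noncomputable def psi1 (R : Type*) [CommRing R] (r : ℕ) : Module.End R (List ℤ →₀ R) :=
  op (D1 R) (S1 R) r

/-- weights on pairs: `gam w l = ∏ over pairs (d earlier, c later) of w (c - d)`, pairs with `|c - d| ≤ 1` omitted -/
noncomputable def gam (w : ℤ → R) : List ℤ → R
  | [] => 1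
  | c :: l => gam w l * (l.map (fun d => if |c - d| ≤ 1 then 1 else w (c - d))).prod

/-- the diagonal bilinear form with weights `γ` -/
noncomputable def form (γ : List ℤ → R) : LinearMap.BilinForm R (List ℤ →₀ R) :=
  linearCombination R (fun l => (γ l) • (Finsupp.lapply l : (List ℤ →₀ R) →ₗ[R] R))

end op

/-- product of operators along a word; the LAST entry of the word acts first -/
def wact {X : Type*} {R : Type*} [CommRing R] [AddCommGroup X] [Module R X]
    (T : ℕ → Module.End R X) (w : List ℕ) : Module.End R X := (w.map T).prod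

/-! ## 3. Hecke systems -/

/-- operators `T 1, …, T (n-1)` on an `A`-module satisfying the relations of the Iwahori-Hecke algebra -/
structure HSys (A : Type*) [CommRing A] (X : Type*) [AddCommGroup X] [Module A X] (q : A) (n : ℕ) where
  T : ℕ → Module.End A X
  quad : ∀ i, 1 ≤ i → i < n → ∀ x, T i (T i x) = (q - 1) • T i x + q • x
  braid : ∀ i, 1 ≤ i → i + 1 < n → ∀ x, T i (T (i+1) (T i x)) = T (i+1) (T i (T (i+1) x))
  comm : ∀ i j, 1 ≤ i → i + 1 < j → j < n → ∀ x, T i (T j x) = T j (T i x)

/-- the smallest `A`-submodule containing `v` and stable under `T 1, …, T (n-1)` -/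
def orb {A : Type*} [CommRing A] {X : Type*} [AddCommGroup X] [Module A X]
    (T : ℕ → Module.End A X) (n : ℕ) (v : X) : Submodule A X :=
  sInf {P | v ∈ P ∧ ∀ i, 1 ≤ i → i < n → ∀ x ∈ P, T i x ∈ P}

/-- noncommutative polynomials in `T_1, …, T_(n-1)` -/
def HAlg (A : Type*) [CommRing A] (n : ℕ) : Subalgebra A (FreeAlgebra A ℕ) :=
  Algebra.adjoin A (FreeAlgebra.ι A '' {i | 1 ≤ i ∧ i < n})

/-- action of noncommutative polynomials -/
noncomputable def act {A : Type*} [CommRing A] {X : Type*} [AddCommGroup X] [Module A X]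
    (T : ℕ → Module.End A X) : FreeAlgebra A ℕ →ₐ[A] Module.End A X := FreeAlgebra.lift A T

/-! ## 4. The base rings: `A` plays the role of `O[[t]]`, `K` of `O((t))` -/

structure Setup (O A K : Type) [CommRing O] [IsDomain O] [CommRing A] [IsDomain A]
    [CommRing K] [IsDomain K] [Algebra A K] where
  ev : A →+* O
  cst : O →+* A
  ev_cst : ∀ x, ev (cst x) = x
  t : A
  ev_t : ev t = 0
  ker_ev : ∀ a, ev a = 0 → ∃ b, a = t * b
  isUnit_of_ev : ∀ a, IsUnit (ev a) → IsUnit a
  inj : Function.Injective (algebraMap A K)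
  tK_unit : IsUnit (algebraMap A K t)
  sat : ∀ (a : A) (x : K), algebraMap A K a = 13 * x → ∃ b, a = 13 * b
  zeta : O
  hzeta : zeta ^ 2 + zeta + 1 = 0
  hunit : ∀ m : ℕ, 0 < m → m < 13 → IsUnit (m : O)

namespace Setup
variable {O A K : Type} [CommRing O] [IsDomain O] [CommRing A] [IsDomain A]
    [CommRing K] [IsDomain K] [Algebra A K] (s : Setup O A K)

/-- `q = ζ (1 + t²)` -/
def q : A := s.cst s.zeta * (1 + s.t ^ 2)

theorem q_isUnit : IsUnit s.q := by
  apply s.isUnit_of_ev
  have h : s.ev s.q = s.zeta := by simp [q, s.ev_cst, s.ev_t]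
  rw [h]
  refine IsUnit.of_mul_eq_one (-(s.zeta + 1)) ?_
  linear_combination (-1 : O) * s.hzeta

noncomputable def qU : Kˣ := Units.map (algebraMap A K : A →* K) s.q_isUnit.unit

/-- `Q δ = q ^ δ` in `K` -/
noncomputable def Q (δ : ℤ) : K := ((s.qU ^ δ : Kˣ) : K)

/-- `t` as a unit of `K` -/
noncomputable def tU : Kˣ := s.tK_unit.unit

/-- powers of `t` in `K` -/
noncomputable def tz (m : ℤ) : K := ((s.tU ^ m : Kˣ) : K)

/-- diagonal coefficient of the seminormal form: `a δ = (q - 1) q^δ / (q^δ - 1)` -/
noncomputable def a (δ : ℤ) : K := (s.Q 1 - 1) * s.Q δ * Ring.inverse (s.Q δ - 1)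

/-- swap coefficient of the seminormal form -/
noncomputable def b (δ : ℤ) : K :=
  if δ % 3 = 0 then s.a δ + 1
  else if δ % 3 = 2 then s.tz 1
  else s.tz (-1) * ((s.Q (δ + 1) - 1) * (s.Q δ - s.Q 1)) * Ring.inverse (s.Q δ - 1) ^ 2

/-- the Hecke operator `T_r`, on all content lists -/
noncomputable def T (r : ℕ) : Module.End K (List ℤ →₀ K) :=
  op s.a (fun δ => if 2 ≤ |δ| then s.b δ else 0) r

/-- the homogeneous KLR operator `Ψ_r` on all content lists -/
noncomputable def Psi (r : ℕ) : Module.End K (List ℤ →₀ K) :=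
  op (fun δ => if δ % 3 = 0 then s.tz (-2) * algebraMap A K (s.cst (D1 O δ)) else 0)
     (fun δ => if δ % 3 = 0 then s.tz (-2) * algebraMap A K (s.cst (S1 O δ))
        else s.tz 1 * algebraMap A K (s.cst (S1 O δ))) r

/-- `V`: span of the standard tableaux of shape `κ` -/
def VK (_ : Setup O A K) : Submodule K (List ℤ →₀ K) := Finsupp.supported K K {l | InK l}

/-- weights for the form: `w δ = t^(2) b δ` if `3 ∣ δ`, `t^(-1) b δ` otherwise -/
noncomputable def w (δ : ℤ) : K := if δ % 3 = 0 then s.tz 2 * s.b δ else s.tz (-1) * s.b δ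

/-- the invariant form -/
noncomputable def B : LinearMap.BilinForm K (List ℤ →₀ K) := form (gam s.w)

/-- `z = t^8 e_row` -/
noncomputable def z : List ℤ →₀ K := single rowL (s.tz 8)
/-- `z' = t^(-2) e_col` -/
noncomputable def z' : List ℤ →₀ K := single colL (s.tz (-2))

/-- `T_r` as an `A`-linear operator -/
noncomputable def TA (r : ℕ) : Module.End A (List ℤ →₀ K) := (s.T r).restrictScalars A

end Setup

/-! ## 5. Words and combinatorial data -/

/-- indices `i` with `i, i+1` in the same row of the row reading tableau -/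
def rowIdx : List ℕ := [1,2,3,4,5,6, 8,9,10,11, 13,14,15, 17,18,19, 21,22,23, 25,26, 28,29]
/-- indices `i` with `i, i+1` in the same column of the column reading tableau -/
def colIdx : List ℕ := [1,2,3,4,5,6,7,8, 10,11,12,13,14,15, 17,18,19,20,21,22, 24,25,26,27, 29]

/-- `dword n m = [n-1, n-2, …, m]` -/
def dword (n m : ℕ) : List ℕ := (List.range' m (n - m)).reverse

/-- ends of the blocks of a composition `a`: `blockEnd a j = a_0 + … + a_j` -/
def blockEnd (a : List ℕ) (j : ℕ) : ℕ := (a.take (j + 1)).sum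

/-- decrease the `j`-th part -/
def decr (a : List ℕ) (j : ℕ) : List ℕ := a.set j (a.getD j 0 - 1)

/-- The minimal word taking the sorted word of type `a` to the word `w` (given LAST letter first):
`T_(w) = T_(w⁻) T_(n-1) … T_(m_j)`. The last entry acts first. -/
def cword : (a : List ℕ) → (w : List ℕ) → List ℕ
  | _, [] => []
  | a, j :: w => cword (decr a j) w ++ dword (w.length + 1) (blockEnd a j)

def kap : List ℕ := [7,5,4,4,4,3,3,1,1]
def kap' : List ℕ := [9,7,7,5,2,1,1]
/-- rows of the letters of the column reading tableau, last letter first -/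
def rowsOfCol : List ℕ :=
  ([0,1,2,3,4,5,6,7,8, 0,1,2,3,4,5,6, 0,1,2,3,4,5,6, 0,1,2,3,4, 0,1, 0, 0] : List ℕ).reverse
/-- columns of the letters of the row reading tableau, last letter first -/
def colsOfRow : List ℕ :=
  ([0,1,2,3,4,5,6, 0,1,2,3,4, 0,1,2,3, 0,1,2,3, 0,1,2,3, 0,1,2, 0,1,2, 0, 0] : List ℕ).reverse
def wRC : List ℕ := cword kap rowsOfCol
def wCR : List ℕ := cword kap' colsOfRow

/-- the Poincaré polynomial `∏_a [κ_a]_q!` -/
def poinc {A : Type*} [CommRing A] (q : A) : A :=
  (kap.map (fun m => ((List.range m).map (fun j => ((List.range (j+1)).map (fun i => q ^ i)).sum)).prod)).prod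

/-- swap letters `r`, `r+1` of a list (last letter = head) -/
def swp (r : ℕ) : List ℤ → List ℤ
  | [] => []
  | [x] => [x]
  | c' :: c :: l => if l.length + 1 = r then c :: c' :: l else c' :: swp r (c :: l)

/-- do the letters `r, r+1` have equal entries? -/
def eqAt (r : ℕ) : List ℤ → Bool
  | [] => false
  | [_] => false
  | c' :: c :: l => if l.length + 1 = r then c' == c else eqAt r (c :: l)

/-- degree and final residue list of a word, applied to a residue list (entries in `{0,1,2}`);
the last entry of the word acts first -/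
def wdeg : List ℕ → List ℤ → ℤ × List ℤ
  | [], ρ => (0, ρ)
  | r :: w, ρ => ((wdeg w ρ).1 + (if eqAt r (wdeg w ρ).2 then -2 else 1), swp r (wdeg w ρ).2)

/-- word of the block crossing at level `n` (letters `n-5, …, n`) -/
def xw (n : ℕ) : List ℕ := [n-3, n-2, n-1, n-4, n-3, n-2, n-5, n-4, n-3]

/-- the factors used at level `n` -/
def lam (n : ℕ) : List ℕ :=
  match n with
  | 8 => [2] | 11 => [3] | 12 => [3] | 14 => [4] | 15 => [4] | 16 => [4] | 17 => [5] | 18 => [5] | 19 => [5]
  | 20 => [5,6] | 21 => [6] | 22 => [6] | 23 => [6,7] | 24 => [6,7] | 25 => [7] | 26 => [7,8] | 27 => [7,8]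
  | 28 => [7,8] | 29 => [8,9] | 30 => [8,8] | 31 => [8] | 32 => [8,9,10] | _ => []

/-- `F_n = F_{n-1} ∏_m (1 + ((m-1)/m) x_n F_{n-1})` -/
noncomputable def Fop {R : Type*} [CommRing R] (psi : ℕ → Module.End R (List ℤ →₀ R)) :
    ℕ → Module.End R (List ℤ →₀ R)
  | 0 => 1
  | n + 1 => (lam (n+1)).foldl
      (fun G m => G * (1 + (((m - 1 : ℕ) : R) * Ring.inverse (m : R)) • (wact psi (xw (n+1)) * Fop psi n)))
      (Fop psi n)

/-- the residue sequence of the one column partition, last letter first, `n` letters -/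
def resI : ℕ → List ℤ
  | 0 => []
  | n + 1 => ((-(n : ℤ)) % 3) :: resI n

/-- words given by positions (last letter first): letter number `p+1` among the first `m` is moved to place `m` -/
def pword : List ℕ → List ℕ
  | [] => []
  | p :: ps => pword ps ++ dword (ps.length + 1) (p + 1)

/-- weights at `t = 0`, in `ZMod 169`, for `ζ = 22` -/
noncomputable def w0 (δ : ℤ) : ZMod 169 :=
  if δ % 3 = 0 then 21 * Ring.inverse (δ : ZMod 169)
  else if δ % 3 = 1 then ((δ - 1 : ℤ) : ZMod 169) * 8 else 1

end J3
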