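import Pool.Agent.J3.RELcomb

/-!
# The invariant form: symmetry and self-adjointness of the Hecke operators (MP_36c429_al, module FORM)
-/

set_option autoImplicit false

namespace J3

open Finsupp

section form
variable {R : Type*} [CommRing R]

theorem FORM_form_single (γ : List ℤ → R) (l : List ℤ) (v : List ℤ →₀ R) :
    form γ (single l 1) v = γ l * v l := by
  unfold form
  rw [linearCombination_single, one_smul, LinearMap.smul_apply, Finsupp.lapply_apply, smul_eq_mul]

theorem FORM_single_smul (l : List ℤ) (a : R) :
    (single l a : List ℤ →₀ R) = a • single l 1 := by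
  rw [Finsupp.smul_single, smul_eq_mul, mul_one]

/-- two bilinear expressions that agree on basis vectors agree -/
theorem FORM_ext (f g : LinearMap.BilinForm R (List ℤ →₀ R))
    (h : ∀ l l' : List ℤ, f (single l 1) (single l' 1) = g (single l 1) (single l' 1))
    (u v : List ℤ →₀ R) : f u v = g u v := by
  induction u using Finsupp.induction_linear with
  | zero => simp
  | add u1 u2 h1 h2 => rw [map_add, map_add, LinearMap.add_apply, LinearMap.add_apply, h1, h2]
  | single l a =>
    rw [FORM_single_smul l a, map_smul, map_smul, LinearMap.smul_apply, LinearMap.smul_apply]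
    congr 1
    induction v using Finsupp.induction_linear with
    | zero => simp
    | add v1 v2 h1 h2 => rw [map_add, map_add, h1, h2]
    | single l' b =>
      rw [FORM_single_smul l' b, map_smul, map_smul, h l l']

theorem FORM_form_symm (γ : List ℤ → R) (u v : List ℤ →₀ R) : form γ u v = form γ v u := by
  have h := FORM_ext (form γ) (LinearMap.flip (form γ)) (fun l l' => by
    rw [LinearMap.flip_apply, FORM_form_single, FORM_form_single]
    by_cases hl : l = l'
    · subst hl; rfl
    · rw [Finsupp.single_eq_of_ne hl, Finsupp.single_eq_of_ne (Ne.symm hl), mul_zero, mul_zero]) u v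
  rw [h, LinearMap.flip_apply]

theorem FORM_opB_zero (D S : ℤ → R) (r : ℕ) (l : List ℤ) (h : l.length ≤ r) : opB D S r l = 0 := by
  induction l with
  | nil => rfl
  | cons x l ih =>
    match l, ih, h with
    | [], _, _ => rfl
    | c :: l, ih, h =>
      simp only [List.length_cons] at h ih
      have hne : ¬ (l.length + 1 = r) := by omega
      unfold opB
      rw [if_neg hne, ih (by omega), Finsupp.mapDomain_zero]

theorem FORM_op_zero (D S : ℤ → R) (r : ℕ) (l : List ℤ) (h : l.length ≤ r) :
    op D S r (single l 1) = 0 := by
  unfold op
  rw [linearCombination_single, one_smul, FORM_opB_zero D S r l h]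

/-- swapping two letters whose contents differ by at least `2` changes only one factor of the weight -/
theorem FORM_gam_swp (w : ℤ → R) (r : ℕ) (l : List ℤ) (h1 : 1 ≤ r) (h2 : r < l.length)
    (hd : 2 ≤ |ent (r + 1) l - ent r l|) :
    ∃ P : R, gam w l = P * w (ent (r + 1) l - ent r l) ∧
      gam w (swp r l) = P * w (ent r l - ent (r + 1) l) := by
  induction l with
  | nil => simp at h2
  | cons x l ih =>
    by_cases h : l.length = r
    · cases l with
      | nil => simp at h2; omega
      | cons c l =>
        have h' : l.length + 1 = r := by simpa using h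
        have e1 : ent (r + 1) (x :: c :: l) = x := REL_ent_cons_eq (r + 1) x (c :: l) (by simp; omega)
        have e2 : ent r (x :: c :: l) = c := by
          rw [REL_ent_cons_ne r x (c :: l) (by simp; omega), REL_ent_cons_eq r c l h']
        rw [e1, e2] at hd ⊢
        rw [REL_swp_top r x c l h']
        have hd1 : ¬ (|x - c| ≤ 1) := by omega
        have hd2 : ¬ (|c - x| ≤ 1) := by rw [abs_sub_comm]; exact hd1
        refine ⟨gam w l * (l.map (fun d => if |c - d| ≤ 1 then 1 else w (c - d))).prod *
          (l.map (fun d => if |x - d| ≤ 1 then 1 else w (x - d))).prod, ?_, ?_⟩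
        · simp only [gam, List.map_cons, List.prod_cons, if_neg hd1]
          ring
        · simp only [gam, List.map_cons, List.prod_cons, if_neg hd2]
          ring
    · simp only [List.length_cons] at h2
      have e1 : ent (r + 1) (x :: l) = ent (r + 1) l := REL_ent_cons_ne (r + 1) x l (by omega)
      have e2 : ent r (x :: l) = ent r l := REL_ent_cons_ne r x l (by omega)
      rw [e1, e2] at hd ⊢
      obtain ⟨P, hP1, hP2⟩ := ih (by omega) hd
      rw [REL_swp_cons r x l h]
      refine ⟨P * (l.map (fun d => if |x - d| ≤ 1 then 1 else w (x - d))).prod, ?_, ?_⟩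
      · simp only [gam]
        rw [hP1]
        ring
      · simp only [gam]
        rw [hP2, ((REL_swp_perm r l).map (fun d => if |x - d| ≤ 1 then 1 else w (x - d))).prod_eq]
        ring

/-- a local operator is self-adjoint as soon as its swap coefficients match the weights -/
theorem FORM_op_adj (D S w : ℤ → R) (r : ℕ) (h1 : 1 ≤ r)
    (h0 : ∀ δ : ℤ, |δ| < 2 → S δ = 0)
    (hS : ∀ δ : ℤ, S δ * w (-δ) = S (-δ) * w δ) (u v : List ℤ →₀ R) :
    form (gam w) (op D S r u) v = form (gam w) u (op D S r v) := by
  refine FORM_ext ((form (gam w)).comp (op D S r) LinearMap.id)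
    ((form (gam w)).comp LinearMap.id (op D S r)) (fun l l' => ?_) u v
  simp only [LinearMap.BilinForm.comp_apply, LinearMap.id_coe, id_eq]
  by_cases hl : r < l.length
  · by_cases hl' : r < l'.length
    · rw [FORM_form_symm (gam w) (op D S r (single l 1))]
      rw [FORM_form_single, FORM_form_single, REL_op_single D S r l h1 hl,
        REL_op_single D S r l' h1 hl']
      simp only [Finsupp.add_apply, Finsupp.smul_apply, smul_eq_mul]
      by_cases hll : l = l'
      · subst hll; rfl
      · rw [Finsupp.single_eq_of_ne (Ne.symm hll), Finsupp.single_eq_of_ne hll]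
        by_cases hs : swp r l = l'
        · have hs' : swp r l' = l := by rw [← hs, REL_swp_swp]
          rw [hs, hs', Finsupp.single_eq_same, Finsupp.single_eq_same]
          have e1 : ent r l' = ent (r + 1) l := by rw [← hs]; exact REL_ent_swp_left r l h1 hl
          have e2 : ent (r + 1) l' = ent r l := by rw [← hs]; exact REL_ent_swp_right r l h1 hl
          rw [e1, e2]
          by_cases hd : 2 ≤ |ent (r + 1) l - ent r l|
          · obtain ⟨P, hP1, hP2⟩ := FORM_gam_swp w r l h1 hl hd
            rw [hs] at hP2
            have hh := hS (ent (r + 1) l - ent r l)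
            rw [neg_sub] at hh
            rw [hP1, hP2]
            linear_combination P * hh
          · have z1 := h0 (ent (r + 1) l - ent r l) (by omega)
            have z2 := h0 (ent r l - ent (r + 1) l) (by rw [abs_sub_comm]; omega)
            rw [z1, z2]
            ring
        · have hs' : swp r l' ≠ l := by
            intro h
            apply hs
            rw [← h, REL_swp_swp]
          rw [Finsupp.single_eq_of_ne (Ne.symm hs), Finsupp.single_eq_of_ne (Ne.symm hs')]
          ring
    · rw [FORM_op_zero D S r l' (by omega), map_zero]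
      rw [FORM_form_symm (gam w) (op D S r (single l 1))]
      rw [FORM_form_single, REL_op_single D S r l h1 hl]
      simp only [Finsupp.add_apply, Finsupp.smul_apply, smul_eq_mul]
      have hll : l' ≠ l := by intro h; subst h; exact hl' hl
      have hs : l' ≠ swp r l := by
        intro h
        apply hl'
        rw [h, REL_swp_length]
        exact hl
      rw [Finsupp.single_eq_of_ne hll, Finsupp.single_eq_of_ne hs]
      ring
  · rw [FORM_op_zero D S r l (by omega), map_zero, LinearMap.zero_apply, FORM_form_single]
    by_cases hl' : r < l'.length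
    · rw [REL_op_single D S r l' h1 hl']
      simp only [Finsupp.add_apply, Finsupp.smul_apply, smul_eq_mul]
      have hll : l ≠ l' := by intro h; subst h; exact hl hl'
      have hs : l ≠ swp r l' := by
        intro h
        apply hl
        rw [h, REL_swp_length]
        exact hl'
      rw [Finsupp.single_eq_of_ne hll, Finsupp.single_eq_of_ne hs]
      ring
    · rw [FORM_op_zero D S r l' (by omega)]
      simp

end form

section
variable {O A K : Type} [CommRing O] [IsDomain O] [CommRing A] [IsDomain A]
    [CommRing K] [IsDomain K] [Algebra A K] (s : Setup O A K)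

theorem FORM_symm (u v : List ℤ →₀ K) : s.B u v = s.B v u :=
  FORM_form_symm (gam s.w) u v

/-- self-adjointness, without any hypothesis on `u`, `v` -/
theorem FORM_T_gen (i : ℕ) (h1 : 1 ≤ i) (u v : List ℤ →₀ K) :
    s.B (s.T i u) v = s.B u (s.T i v) := by
  refine FORM_op_adj s.a (fun δ => if 2 ≤ |δ| then s.b δ else 0) s.w i h1 ?_ ?_ u v
  · intro δ hδ
    have : ¬ (2 ≤ |δ|) := by omega
    simp only [if_neg this]
  · intro δ
    by_cases hδ : 2 ≤ |δ|
    · have hδ' : 2 ≤ |-δ| := by rw [abs_neg]; exact hδ
      simp only [if_pos hδ, if_pos hδ', Setup.w]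
      by_cases h3 : δ % 3 = 0
      · have h3' : (-δ) % 3 = 0 := by omega
        rw [if_pos h3, if_pos h3']
        ring
      · have h3' : ¬ ((-δ) % 3 = 0) := by omega
        rw [if_neg h3, if_neg h3']
        ring
    · have hδ' : ¬ (2 ≤ |-δ|) := by rw [abs_neg]; exact hδ
      simp only [if_neg hδ, if_neg hδ', zero_mul]

set_option linter.unusedVariables false in
theorem FORM_T (i : ℕ) (h1 : 1 ≤ i) (h2 : i < 32) (u v : List ℤ →₀ K) (hu : u ∈ s.VK)
    (hv : v ∈ s.VK) :
    s.B (s.T i u) v = s.B u (s.T i v) :=
  FORM_T_gen s i h1 u v

end

end J3
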