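import Pool.Agent.J3.Defs

/-!
# Homogeneity of the KLR operators (MP_36c429_al)
-/

set_option autoImplicit false

namespace J3
open Finsupp

section
variable {O A K : Type} [CommRing O] [IsDomain O] [CommRing A] [IsDomain A]
    [CommRing K] [IsDomain K] [Algebra A K] (s : Setup O A K)

/-- `ι : O`-combinations into `K`-combinations -/
noncomputable def iota : (List ℤ →₀ O) →+ (List ℤ →₀ K) :=
  Finsupp.mapRange.addMonoidHom ((algebraMap A K).comp s.cst : O →+* K).toAddMonoidHom

/-! ### generalities on `iota` -/

theorem HOMOG_iota_single (l : List ℤ) (a : O) :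
    iota s (single l a) = single l (algebraMap A K (s.cst a)) := by
  simp [iota]

theorem HOMOG_iota_smul (c : O) (x : List ℤ →₀ O) :
    iota s (c • x) = algebraMap A K (s.cst c) • iota s x := by
  ext l
  simp [iota, Algebra.smul_def]

theorem HOMOG_iota_mapDomain (f : List ℤ → List ℤ) (x : List ℤ →₀ O) :
    iota s (mapDomain f x) = mapDomain f (iota s x) := by
  induction x using Finsupp.induction_linear with
  | zero => simp
  | add x y hx hy => simp only [mapDomain_add, map_add, hx, hy]
  | single l a => simp only [mapDomain_single, HOMOG_iota_single]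

/-! ### combinatorics of residue lists -/

theorem HOMOG_swp_length (r : ℕ) : ∀ ρ : List ℤ, (swp r ρ).length = ρ.length
  | [] => rfl
  | [_] => rfl
  | c' :: c :: l => by
      unfold swp
      split_ifs
      · rfl
      · simp only [List.length_cons]
        rw [HOMOG_swp_length r (c :: l)]
        rfl

theorem HOMOG_wdeg_length : ∀ (w : List ℕ) (ρ : List ℤ), (wdeg w ρ).2.length = ρ.length
  | [], _ => rfl
  | r :: w, ρ => by
      unfold wdeg
      simp only
      rw [HOMOG_swp_length, HOMOG_wdeg_length w ρ]

theorem HOMOG_emod_eq (c c' : ℤ) : (c' % 3 == c % 3) = true ↔ (c' - c) % 3 = 0 := by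
  rw [beq_iff_eq]
  omega

/-- the basic statement for one operator and one list -/
theorem HOMOG_opB (r : ℕ) (h1 : 1 ≤ r) : ∀ l : List ℤ, r < l.length →
    opB (fun δ => if δ % 3 = 0 then s.tz (-2) * algebraMap A K (s.cst (D1 O δ)) else 0)
     (fun δ => if δ % 3 = 0 then s.tz (-2) * algebraMap A K (s.cst (S1 O δ))
        else s.tz 1 * algebraMap A K (s.cst (S1 O δ))) r l =
      s.tz (if eqAt r (l.map (· % 3)) then -2 else 1) • iota s (opB (D1 O) (S1 O) r l) ∧
    ∀ l' ∈ (opB (D1 O) (S1 O) r l).support, l'.map (· % 3) = swp r (l.map (· % 3))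
  | [], h => by simp at h
  | [_], h => by simp at h; omega
  | c' :: c :: l, h => by
      unfold opB eqAt swp
      simp only [List.map_cons, List.length_map]
      by_cases hr : l.length + 1 = r
      · simp only [hr, if_true]
        by_cases hδ : (c' - c) % 3 = 0
        · have he : (c' % 3 == c % 3) = true := (HOMOG_emod_eq c c').2 hδ
          have he' : c' % 3 = c % 3 := by simpa using he
          simp only [hδ, he, if_true]
          constructor
          · rw [map_add, HOMOG_iota_single, HOMOG_iota_single, smul_add, smul_single, smul_single,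
              smul_eq_mul, smul_eq_mul]
          · intro l' hl'
            have h2 := Finsupp.support_add hl'
            rw [Finset.mem_union] at h2
            rcases h2 with h2 | h2
            · have h3 := Finsupp.support_single_subset h2
              rw [Finset.mem_singleton] at h3
              subst h3
              simp [he']
            · have h3 := Finsupp.support_single_subset h2
              rw [Finset.mem_singleton] at h3
              subst h3
              simp
        · have he : (c' % 3 == c % 3) = false := by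
            rw [Bool.eq_false_iff]
            intro hh
            exact hδ ((HOMOG_emod_eq c c').1 hh)
          have hD : D1 O (c' - c) = 0 := by unfold D1; simp [hδ]
          simp only [hδ, he, if_false, hD, single_zero, zero_add, Bool.false_eq_true]
          constructor
          · rw [HOMOG_iota_single, smul_single, smul_eq_mul]
          · intro l' hl'
            have h3 := Finsupp.support_single_subset hl'
            rw [Finset.mem_singleton] at h3
            subst h3
            simp
      · simp only [hr, if_false]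
        have ih := HOMOG_opB r h1 (c :: l) (by simp only [List.length_cons] at h ⊢; omega)
        simp only [List.map_cons] at ih
        constructor
        · rw [ih.1, mapDomain_smul, HOMOG_iota_mapDomain]
        · intro l' hl'
          have h2 := Finsupp.mapDomain_support hl'
          rw [Finset.mem_image] at h2
          obtain ⟨l'', h3, rfl⟩ := h2
          simp only [List.map_cons, ih.2 l'' h3]

/-- one operator, arbitrary vectors with fixed residue list -/
theorem HOMOG_Psi (r : ℕ) (h1 : 1 ≤ r) (ρ : List ℤ) (h2 : r < ρ.length) (x : List ℤ →₀ O)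
    (hx : ∀ l ∈ x.support, l.map (· % 3) = ρ) :
    s.Psi r (iota s x) = s.tz (if eqAt r ρ then -2 else 1) • iota s (psi1 O r x) ∧
    ∀ l' ∈ (psi1 O r x).support, l'.map (· % 3) = swp r ρ := by
  classical
  revert hx
  induction x using Finsupp.induction with
  | zero => intro _; simp
  | single_add l a x hl ha ih =>
    intro hx
    have hx' : ∀ l ∈ x.support, l.map (· % 3) = ρ := by
      intro m hm
      apply hx
      rw [Finsupp.support_single_add hl ha]
      exact Finset.mem_cons_of_mem hm
    have hl' : l.map (· % 3) = ρ := by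
      apply hx
      rw [Finsupp.support_single_add hl ha]
      exact Finset.mem_cons_self _ _
    obtain ⟨ih1, ih2⟩ := ih hx'
    have hlen : l.length = ρ.length := by rw [← hl', List.length_map]
    obtain ⟨hb1, hb2⟩ := HOMOG_opB s r h1 l (by omega)
    rw [hl'] at hb1 hb2
    have e1 : psi1 O r (single l a) = a • opB (D1 O) (S1 O) r l := by
      unfold psi1 op
      rw [linearCombination_single]
    have e2 : s.Psi r (iota s (single l a)) =
        s.tz (if eqAt r ρ then -2 else 1) • iota s (psi1 O r (single l a)) := by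
      rw [HOMOG_iota_single, e1, HOMOG_iota_smul]
      unfold Setup.Psi op
      rw [linearCombination_single, hb1, smul_comm]
    constructor
    · rw [map_add, map_add, e2, ih1, map_add, map_add, smul_add]
    · intro l' hl''
      rw [map_add] at hl''
      have h3 := Finsupp.support_add hl''
      rw [Finset.mem_union] at h3
      rcases h3 with h3 | h3
      · rw [e1] at h3
        exact hb2 l' (Finsupp.support_smul h3)
      · exact ih2 l' h3

/-- words, arbitrary vectors with fixed residue list -/
theorem HOMOG_word_gen (ρ : List ℤ) (x : List ℤ →₀ O)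
    (hx : ∀ l ∈ x.support, l.map (· % 3) = ρ) : ∀ w : List ℕ, (∀ r ∈ w, 1 ≤ r ∧ r < ρ.length) →
    wact s.Psi w (iota s x) = s.tz (wdeg w ρ).1 • iota s (wact (psi1 O) w x) ∧
    ∀ l' ∈ (wact (psi1 O) w x).support, l'.map (· % 3) = (wdeg w ρ).2
  | [], _ => by
      constructor
      · simp [wact, wdeg, Setup.tz]
      · intro l' hl'
        simp only [wact, List.map_nil, List.prod_nil, Module.End.one_apply] at hl'
        simpa [wdeg] using hx l' hl'
  | r :: w, hw => by
      obtain ⟨ih1, ih2⟩ := HOMOG_word_gen ρ x hx w (fun r' hr' => hw r' (List.mem_cons_of_mem _ hr'))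
      have hr := hw r List.mem_cons_self
      have eK : wact s.Psi (r :: w) (iota s x) = s.Psi r (wact s.Psi w (iota s x)) := by
        simp [wact]
      have eO : wact (psi1 O) (r :: w) x = psi1 O r (wact (psi1 O) w x) := by
        simp [wact]
      obtain ⟨h1, h2⟩ := HOMOG_Psi s r hr.1 (wdeg w ρ).2
        (by rw [HOMOG_wdeg_length]; exact hr.2) (wact (psi1 O) w x) ih2
      constructor
      · rw [eK, eO, ih1, map_smul, h1, smul_smul]
        congr 1
        have hw' : (wdeg (r :: w) ρ).1 = (wdeg w ρ).1 + (if eqAt r (wdeg w ρ).2 then -2 else 1) := rfl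
        rw [hw']
        unfold Setup.tz
        rw [zpow_add, Units.val_mul]
      · rw [eO]
        exact h2

theorem HOMOG_word (w : List ℕ) (l : List ℤ) (hw : ∀ r ∈ w, 1 ≤ r ∧ r < l.length) :
    wact s.Psi w (single l 1) = s.tz (wdeg w (l.map (· % 3))).1 • iota s (wact (psi1 O) w (single l 1)) ∧
    ∀ l' ∈ (wact (psi1 O) w (single l (1:O))).support,
      l'.length = l.length ∧ l'.map (· % 3) = (wdeg w (l.map (· % 3))).2 := by
  have h := HOMOG_word_gen s (l.map (· % 3)) (single l 1) (by
    intro l' hl'
    have h3 := Finsupp.support_single_subset hl'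
    rw [Finset.mem_singleton] at h3
    rw [h3]) w (by simpa using hw)
  rw [HOMOG_iota_single, map_one, map_one] at h
  refine ⟨h.1, fun l' hl' => ⟨?_, h.2 l' hl'⟩⟩
  have h4 := congrArg List.length (h.2 l' hl')
  rw [HOMOG_wdeg_length] at h4
  simpa using h4

/-! ### operators preserving a residue list, of degree zero -/

/-- `GK` and `GO` correspond to each other on the vectors with residue list `ρ` -/
def HOMOG_Good (ρ : List ℤ) (GK : Module.End K (List ℤ →₀ K)) (GO : Module.End O (List ℤ →₀ O)) : Prop :=
  ∀ x : List ℤ →₀ O, (∀ l ∈ x.support, l.map (· % 3) = ρ) →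
    GK (iota s x) = iota s (GO x) ∧ ∀ l ∈ (GO x).support, l.map (· % 3) = ρ

variable {s}

theorem HOMOG_Good.one (ρ : List ℤ) : HOMOG_Good s ρ 1 1 := fun _ hx => ⟨rfl, hx⟩

theorem HOMOG_Good.mul {ρ : List ℤ} {GK GK' : Module.End K (List ℤ →₀ K)}
    {GO GO' : Module.End O (List ℤ →₀ O)} (h : HOMOG_Good s ρ GK GO) (h' : HOMOG_Good s ρ GK' GO') :
    HOMOG_Good s ρ (GK * GK') (GO * GO') := by
  intro x hx
  obtain ⟨h1, h2⟩ := h' x hx
  obtain ⟨h3, h4⟩ := h _ h2
  refine ⟨?_, h4⟩
  rw [Module.End.mul_apply, h1, h3]
  rfl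

theorem HOMOG_Good.add {ρ : List ℤ} {GK GK' : Module.End K (List ℤ →₀ K)}
    {GO GO' : Module.End O (List ℤ →₀ O)} (h : HOMOG_Good s ρ GK GO) (h' : HOMOG_Good s ρ GK' GO') :
    HOMOG_Good s ρ (GK + GK') (GO + GO') := by
  classical
  intro x hx
  obtain ⟨h1, h2⟩ := h' x hx
  obtain ⟨h3, h4⟩ := h x hx
  refine ⟨?_, ?_⟩
  · rw [LinearMap.add_apply, h1, h3, LinearMap.add_apply, map_add]
  · intro l hl
    rw [LinearMap.add_apply] at hl
    have h5 := Finsupp.support_add hl
    rw [Finset.mem_union] at h5
    rcases h5 with h5 | h5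
    · exact h4 l h5
    · exact h2 l h5

theorem HOMOG_Good.smul {ρ : List ℤ} {GK : Module.End K (List ℤ →₀ K)}
    {GO : Module.End O (List ℤ →₀ O)} (h : HOMOG_Good s ρ GK GO) (c : O) (d : K)
    (hcd : d = algebraMap A K (s.cst c)) :
    HOMOG_Good s ρ (d • GK) (c • GO) := by
  intro x hx
  obtain ⟨h3, h4⟩ := h x hx
  refine ⟨?_, ?_⟩
  · rw [LinearMap.smul_apply, h3, LinearMap.smul_apply, HOMOG_iota_smul, hcd]
  · intro l hl
    rw [LinearMap.smul_apply] at hl
    exact h4 l (Finsupp.support_smul hl)

variable (s)

theorem HOMOG_inv (m : ℕ) (h0 : 0 < m) (h13 : m < 13) :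
    ((m - 1 : ℕ) : K) * Ring.inverse (m : K) =
      algebraMap A K (s.cst (((m - 1 : ℕ) : O) * Ring.inverse (m : O))) := by
  obtain ⟨u, hu⟩ := s.hunit m h0 h13
  have h1 : (m : O) * Ring.inverse (m : O) = 1 := Ring.mul_inverse_cancel _ (s.hunit m h0 h13)
  have h2 : (m : K) * algebraMap A K (s.cst (Ring.inverse (m : O))) = 1 := by
    have h3 := congrArg (fun x => algebraMap A K (s.cst x)) h1
    simpa using h3
  have h4 : IsUnit (m : K) := IsUnit.of_mul_eq_one _ h2
  have h5 : Ring.inverse (m : K) = algebraMap A K (s.cst (Ring.inverse (m : O))) := by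
    have h6 : Ring.inverse (m : K) * (m : K) = 1 := Ring.inverse_mul_cancel _ h4
    calc Ring.inverse (m : K) = Ring.inverse (m : K) * ((m : K) * algebraMap A K (s.cst (Ring.inverse (m : O)))) := by
          rw [h2, mul_one]
      _ = algebraMap A K (s.cst (Ring.inverse (m : O))) := by rw [← mul_assoc, h6, one_mul]
  rw [h5, map_mul, map_mul, map_natCast, map_natCast]

theorem HOMOG_lam_mem (n : ℕ) : ∀ m ∈ lam n, 0 < m ∧ m < 13 ∧ 8 ≤ n := by
  intro m hm
  unfold lam at hm
  split at hm <;> simp at hm <;> omega

theorem HOMOG_xw (n : ℕ) (h8 : 8 ≤ n) (hn : n ≤ 32) : wdeg (xw n) (resI 32) = (0, resI 32) := by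
  interval_cases n <;> decide +kernel

theorem HOMOG_xw_good (n : ℕ) (h8 : 8 ≤ n) (hn : n ≤ 32) :
    HOMOG_Good s (resI 32) (wact s.Psi (xw n)) (wact (psi1 O) (xw n)) := by
  intro x hx
  have h := HOMOG_word_gen s (resI 32) x hx (xw n) (by
    intro r hr
    have hl : (resI 32).length = 32 := by decide +kernel
    rw [hl]
    simp only [xw, List.mem_cons, List.not_mem_nil, or_false] at hr
    omega)
  rw [HOMOG_xw n h8 hn] at h
  refine ⟨?_, h.2⟩
  rw [h.1]
  simp [Setup.tz]

theorem HOMOG_foldl (GK : Module.End K (List ℤ →₀ K)) (GO : Module.End O (List ℤ →₀ O))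
    (ρ : List ℤ) (hG : HOMOG_Good s ρ GK GO) : ∀ (L : List ℕ), (∀ m ∈ L, 0 < m ∧ m < 13) →
    ∀ (FK : Module.End K (List ℤ →₀ K)) (FO : Module.End O (List ℤ →₀ O)), HOMOG_Good s ρ FK FO →
    HOMOG_Good s ρ
      (L.foldl (fun G m => G * (1 + (((m - 1 : ℕ) : K) * Ring.inverse (m : K)) • GK)) FK)
      (L.foldl (fun G m => G * (1 + (((m - 1 : ℕ) : O) * Ring.inverse (m : O)) • GO)) FO)
  | [], _, _, _, hF => hF
  | m :: L, hL, FK, FO, hF => by
      simp only [List.foldl_cons]
      apply HOMOG_foldl GK GO ρ hG L (fun m' hm' => hL m' (List.mem_cons_of_mem _ hm'))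
      exact hF.mul ((HOMOG_Good.one ρ).add (hG.smul _ _
        (HOMOG_inv s m (hL m List.mem_cons_self).1 (hL m List.mem_cons_self).2)))

theorem HOMOG_Fop_good : ∀ n : ℕ, n ≤ 32 → HOMOG_Good s (resI 32) (Fop s.Psi n) (Fop (psi1 O) n)
  | 0, _ => HOMOG_Good.one _
  | n + 1, hn => by
      have ih := HOMOG_Fop_good n (by omega)
      unfold Fop
      by_cases h8 : 8 ≤ n + 1
      · apply HOMOG_foldl s _ _ (resI 32)
          ((HOMOG_xw_good s (n + 1) h8 hn).mul ih)
        · intro m hm
          have := HOMOG_lam_mem (n + 1) m hm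
          exact ⟨this.1, this.2.1⟩
        · exact ih
      · have hnil : lam (n + 1) = [] := by
          apply List.eq_nil_iff_forall_not_mem.2
          intro m hm
          exact h8 (HOMOG_lam_mem (n + 1) m hm).2.2
        rw [hnil]
        exact ih

theorem HOMOG_F (n : ℕ) (hn : n ≤ 32) (l : List ℤ) (hl : l.map (· % 3) = resI 32) :
    Fop s.Psi n (single l 1) = iota s (Fop (psi1 O) n (single l 1)) ∧
    ∀ l' ∈ (Fop (psi1 O) n (single l (1:O))).support, l'.map (· % 3) = resI 32 := by
  have h := HOMOG_Fop_good s n hn (single l 1) (by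
    intro l' hl'
    have h3 := Finsupp.support_single_subset hl'
    rw [Finset.mem_singleton] at h3
    rw [h3, hl])
  rw [HOMOG_iota_single, map_one, map_one] at h
  exact h

end

end J3
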