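import Pool.Agent.J3.COEF
set_option autoImplicit false
set_option linter.unusedSectionVars false

/-!
# Module LEAD: leading coefficients are units of `A`
-/

namespace J3
open Finsupp


/-! ## combinatorics of the local operators -/

/-- difference at position r -/
def LEAD_dlt (r : ℕ) : List ℤ → Option ℤ
  | [] => none
  | [_] => none
  | c' :: c :: l => if l.length + 1 = r then Option.some (c' - c) else LEAD_dlt r (c :: l)

/-- degree of `b δ` -/
def LEAD_deg (δ : ℤ) : ℤ := if δ % 3 = 0 then -2 else 1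

/-- run a word, checking that all differences are of sign `σ` and of size between 2 and 14 -/
def LEAD_run (σ : ℤ) : List ℕ → List ℤ → Option (ℤ × List ℤ)
  | [], l => Option.some (0, l)
  | r :: w, l =>
    match LEAD_run σ w l with
    | none => none
    | Option.some (d, l') =>
      match LEAD_dlt r l' with
      | none => none
      | Option.some δ => if 2 ≤ σ * δ ∧ |δ| ≤ 14 then Option.some (d + LEAD_deg δ, swp r l') else none

set_option maxRecDepth 100000 in
theorem LEAD_runRC : LEAD_run (-1) wRC rowL = Option.some (-6, colL) := by decide +kernel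

set_option maxRecDepth 100000 in
theorem LEAD_runCR : LEAD_run 1 wCR colL = Option.some (-6, rowL) := by decide +kernel

/-- number of entries `d` of `l` with `σ (c - d) < 0` -/
def LEAD_cnt (σ c : ℤ) (l : List ℤ) : ℕ := l.countP (fun d => decide (σ * (c - d) < 0))

/-- number of inversions -/
def LEAD_inv (σ : ℤ) : List ℤ → ℕ
  | [] => 0
  | c :: l => LEAD_inv σ l + LEAD_cnt σ c l

theorem LEAD_cnt_perm (σ c : ℤ) {l l' : List ℤ} (h : l.Perm l') :
    LEAD_cnt σ c l = LEAD_cnt σ c l' := h.countP_eq _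

theorem LEAD_cnt_cons (σ c d : ℤ) (l : List ℤ) :
    LEAD_cnt σ c (d :: l) = LEAD_cnt σ c l + if σ * (c - d) < 0 then 1 else 0 := by
  unfold LEAD_cnt
  rw [List.countP_cons]
  simp

section op
variable {R : Type*} [CommRing R]

theorem LEAD_op_single (D S : ℤ → R) (r : ℕ) (l : List ℤ) (x : R) :
    op D S r (single l x) = x • opB D S r l := by
  unfold op
  rw [linearCombination_single]

theorem LEAD_opB_dlt (D S : ℤ → R) (r : ℕ) (δ : ℤ) : ∀ l : List ℤ, LEAD_dlt r l = Option.some δ →
    opB D S r l = single l (D δ) + single (swp r l) (S δ)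
  | [], h => by simp [LEAD_dlt] at h
  | [_], h => by simp [LEAD_dlt] at h
  | c' :: c :: l, h => by
    by_cases hr : l.length + 1 = r
    · simp only [LEAD_dlt, hr, if_true, Option.some.injEq] at h
      simp only [opB, swp, hr, if_true, h]
    · simp only [LEAD_dlt, hr, if_false] at h
      have ih := LEAD_opB_dlt D S r δ (c :: l) h
      simp only [opB, swp, hr, if_false]
      rw [ih, mapDomain_add, mapDomain_single, mapDomain_single]

theorem LEAD_opB_supp (σ : ℤ) (D S : ℤ → R) (r : ℕ) : ∀ l : List ℤ, ∀ m ∈ (opB D S r l).support,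
    m.Perm l ∧ LEAD_inv σ m ≤ LEAD_inv σ l + 1
  | [], m, hm => by simp [opB] at hm
  | [_], m, hm => by simp [opB] at hm
  | c' :: c :: l, m, hm => by
    by_cases hr : l.length + 1 = r
    · simp only [opB, hr, if_true] at hm
      have h1 : m = c' :: c :: l ∨ m = c :: c' :: l := by
        rcases Finset.mem_union.mp (support_add hm) with h | h
        · exact Or.inl (Finset.mem_singleton.mp (support_single_subset h))
        · exact Or.inr (Finset.mem_singleton.mp (support_single_subset h))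
      rcases h1 with rfl | rfl
      · exact ⟨List.Perm.refl _, by omega⟩
      · refine ⟨List.Perm.swap _ _ _, ?_⟩
        simp only [LEAD_inv, LEAD_cnt_cons]
        split_ifs <;> omega
    · simp only [opB, hr, if_false] at hm
      have h1 := mapDomain_support hm
      rw [Finset.mem_image] at h1
      obtain ⟨m', hm', rfl⟩ := h1
      obtain ⟨ih1, ih2⟩ := LEAD_opB_supp σ D S r (c :: l) m' hm'
      refine ⟨ih1.cons c', ?_⟩
      have e1 : LEAD_inv σ (c' :: m') = LEAD_inv σ m' + LEAD_cnt σ c' m' := rfl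
      have e2 : LEAD_inv σ (c' :: c :: l) = LEAD_inv σ (c :: l) + LEAD_cnt σ c' (c :: l) := rfl
      rw [e1, e2, LEAD_cnt_perm σ c' ih1]
      omega

theorem LEAD_inv_swp (σ : ℤ) (r : ℕ) (δ : ℤ) (hσ : 2 ≤ σ * δ) : ∀ l : List ℤ,
    LEAD_dlt r l = Option.some δ → (swp r l).Perm l ∧ LEAD_inv σ (swp r l) = LEAD_inv σ l + 1
  | [], h => by simp [LEAD_dlt] at h
  | [_], h => by simp [LEAD_dlt] at h
  | c' :: c :: l, h => by
    by_cases hr : l.length + 1 = r
    · simp only [LEAD_dlt, hr, if_true, Option.some.injEq] at h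
      simp only [swp, hr, if_true]
      refine ⟨List.Perm.swap _ _ _, ?_⟩
      simp only [LEAD_inv, LEAD_cnt_cons]
      have h1 : σ * (c - c') < 0 := by
        have : σ * (c - c') = -(σ * δ) := by rw [← h]; ring
        omega
      have h2 : ¬ σ * (c' - c) < 0 := by
        rw [h]
        omega
      rw [if_pos h1, if_neg h2]
      omega
    · simp only [LEAD_dlt, hr, if_false] at h
      obtain ⟨ih1, ih2⟩ := LEAD_inv_swp σ r δ hσ (c :: l) h
      simp only [swp, hr, if_false]
      refine ⟨ih1.cons c', ?_⟩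
      have e1 : LEAD_inv σ (c' :: swp r (c :: l)) =
          LEAD_inv σ (swp r (c :: l)) + LEAD_cnt σ c' (swp r (c :: l)) := rfl
      have e2 : LEAD_inv σ (c' :: c :: l) = LEAD_inv σ (c :: l) + LEAD_cnt σ c' (c :: l) := rfl
      rw [e1, e2, LEAD_cnt_perm σ c' ih1, ih2]
      omega

theorem LEAD_op_supp (σ : ℤ) (D S : ℤ → R) (r : ℕ) (v : List ℤ →₀ R) (N : ℕ)
    (hv : ∀ m ∈ v.support, LEAD_inv σ m < N) : ∀ m ∈ (op D S r v).support, LEAD_inv σ m < N + 1 := by
  intro m hm
  unfold op at hm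
  rw [linearCombination_apply, Finsupp.sum] at hm
  have h1 := support_finsetSum hm
  rw [Finset.mem_biUnion] at h1
  obtain ⟨l, hl, hml⟩ := h1
  have h2 := LEAD_opB_supp σ D S r l m (support_smul hml)
  have h3 := hv l hl
  omega

end op

section
variable {O A K : Type} [CommRing O] [IsDomain O] [CommRing A] [IsDomain A]
    [CommRing K] [IsDomain K] [Algebra A K] (s : Setup O A K)

theorem LEAD_tz_add (m n : ℤ) : s.tz (m + n) = s.tz m * s.tz n := by
  unfold Setup.tz
  rw [zpow_add, Units.val_mul]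

theorem LEAD_tz_zero : s.tz 0 = 1 := by
  unfold Setup.tz
  rw [zpow_zero, Units.val_one]

theorem LEAD_tz_ne (m : ℤ) : s.tz m ≠ 0 := (s.tU ^ m).ne_zero

theorem LEAD_b (δ : ℤ) (h0 : 2 ≤ |δ|) (h : |δ| ≤ 14) :
    ∃ u : Aˣ, s.b δ = s.tz (LEAD_deg δ) * algebraMap A K u := by
  obtain ⟨u, hu, -⟩ := COEF_w s δ h0 h
  refine ⟨u, ?_⟩
  rw [← hu]
  unfold Setup.w LEAD_deg
  split_ifs
  · rw [← mul_assoc, ← LEAD_tz_add]
    norm_num [LEAD_tz_zero]
  · rw [← mul_assoc, ← LEAD_tz_add]
    norm_num [LEAD_tz_zero]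

theorem LEAD_main (σ : ℤ) (hσ : σ = 1 ∨ σ = -1) (l : List ℤ) (x : K) : ∀ (w : List ℕ) (d : ℤ)
    (l' : List ℤ), LEAD_run σ w l = Option.some (d, l') →
    ∃ (u : Aˣ) (rem : List ℤ →₀ K),
      wact s.T w (single l x) = single l' (x * (s.tz d * algebraMap A K u)) + rem ∧
      (∀ m ∈ rem.support, LEAD_inv σ m < LEAD_inv σ l + w.length) ∧
      LEAD_inv σ l' = LEAD_inv σ l + w.length
  | [], d, l', h => by
    simp only [LEAD_run, Option.some.injEq, Prod.mk.injEq] at h
    obtain ⟨rfl, rfl⟩ := h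
    refine ⟨1, 0, ?_, by simp, by simp⟩
    simp [wact, LEAD_tz_zero]
  | r :: w, d, l', h => by
    rw [LEAD_run] at h
    rcases h1 : LEAD_run σ w l with _ | ⟨d0, l0⟩
    · rw [h1] at h
      simp at h
    rw [h1] at h
    simp only at h
    rcases h2 : LEAD_dlt r l0 with _ | δ
    · rw [h2] at h
      simp at h
    rw [h2] at h
    simp only at h
    by_cases hc : 2 ≤ σ * δ ∧ |δ| ≤ 14
    swap
    · rw [if_neg hc] at h
      simp at h
    rw [if_pos hc, Option.some.injEq, Prod.mk.injEq] at h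
    obtain ⟨rfl, rfl⟩ := h
    obtain ⟨u, rem, e1, e2, e3⟩ := LEAD_main σ hσ l x w d0 l0 h1
    have hδ : 2 ≤ |δ| := by
      rcases hσ with rfl | rfl
      · exact le_trans hc.1 (by rw [one_mul]; exact le_abs_self δ)
      · exact le_trans hc.1 (by rw [neg_one_mul]; exact neg_le_abs δ)
    obtain ⟨u', hu'⟩ := LEAD_b s δ hδ hc.2
    obtain ⟨-, e4⟩ := LEAD_inv_swp σ r δ hc.1 l0 h2
    set y : K := x * (s.tz d0 * algebraMap A K u) with hy
    refine ⟨u * u', single l0 (y * s.a δ) + s.T r rem, ?_, ?_, ?_⟩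
    · have h3 : wact s.T (r :: w) (single l x) = s.T r (wact s.T w (single l x)) := by
        simp [wact]
      rw [h3, e1, map_add]
      have h4 : s.T r (single l0 y) = single l0 (y * s.a δ) +
          single (swp r l0) (x * (s.tz (d0 + LEAD_deg δ) * algebraMap A K ((u * u' : Aˣ) : A))) := by
        unfold Setup.T
        rw [LEAD_op_single, LEAD_opB_dlt _ _ r δ l0 h2, smul_add, smul_single, smul_single,
          if_pos hδ, hu', hy, smul_eq_mul, smul_eq_mul, Units.val_mul, map_mul, LEAD_tz_add]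
        congr 2
        ring
      rw [h4]
      abel
    · intro m hm
      rcases Finset.mem_union.mp (support_add hm) with h5 | h5
      · have h6 := Finset.mem_singleton.mp (support_single_subset h5)
        rw [h6, e3, List.length_cons]
        omega
      · have h6 := LEAD_op_supp σ _ _ r rem _ e2 m h5
        rw [List.length_cons]
        omega
    · rw [e4, e3, List.length_cons]
      omega

/-- the weights of lists with contents between -8 and 6 are units -/
theorem LEAD_gam : ∀ l : List ℤ, (∀ c ∈ l, -8 ≤ c ∧ c ≤ 6) →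
    ∃ u : Aˣ, gam s.w l = algebraMap A K u
  | [], _ => ⟨1, by simp [gam]⟩
  | c :: l, h => by
    obtain ⟨u, hu⟩ := LEAD_gam l fun d hd => h d (List.mem_cons_of_mem c hd)
    have hc := h c List.mem_cons_self
    have key : ∀ m : List ℤ, (∀ d ∈ m, -8 ≤ d ∧ d ≤ 6) →
        ∃ u : Aˣ, (m.map (fun d => if |c - d| ≤ 1 then 1 else s.w (c - d))).prod =
          algebraMap A K u := by
      intro m
      induction m with
      | nil => exact fun _ => ⟨1, by simp⟩
      | cons d m ih =>
        intro hm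
        obtain ⟨v, hv⟩ := ih fun d' hd' => hm d' (List.mem_cons_of_mem d hd')
        have hd := hm d List.mem_cons_self
        rw [List.map_cons, List.prod_cons, hv]
        by_cases h1 : |c - d| ≤ 1
        · exact ⟨v, by rw [if_pos h1, one_mul]⟩
        · have h2 : 2 ≤ |c - d| := by omega
          have h3 : |c - d| ≤ 14 := by
            rw [abs_le]
            omega
          obtain ⟨v', hv', -⟩ := COEF_w s (c - d) h2 h3
          refine ⟨v' * v, ?_⟩
          rw [if_neg h1, hv', Units.val_mul, map_mul]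
    obtain ⟨v, hv⟩ := key l fun d hd => h d (List.mem_cons_of_mem c hd)
    refine ⟨u * v, ?_⟩
    rw [gam, hu, hv, Units.val_mul, map_mul]

theorem LEAD_B_single (v : List ℤ →₀ K) (l : List ℤ) (y : K) :
    s.B v (single l y) = gam s.w l * v l * y := by
  unfold Setup.B form
  rw [linearCombination_apply, Finsupp.sum, LinearMap.sum_apply]
  have h1 : ∀ m ∈ v.support, (v m • gam s.w m • (lapply m : (List ℤ →₀ K) →ₗ[K] K)) (single l y) =
      if m = l then gam s.w l * v l * y else 0 := by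
    intro m _
    rw [LinearMap.smul_apply, LinearMap.smul_apply, lapply_apply, smul_eq_mul, smul_eq_mul]
    by_cases hml : m = l
    · subst hml
      rw [if_pos rfl, single_eq_same]
      ring
    · rw [if_neg hml, single_apply, if_neg (fun h => hml h.symm), mul_zero, mul_zero]
  rw [Finset.sum_congr rfl h1, Finset.sum_ite_eq']
  by_cases hl : l ∈ v.support
  · rw [if_pos hl]
  · rw [if_neg hl]
    rw [notMem_support_iff] at hl
    rw [hl, mul_zero, zero_mul]

theorem LEAD_rowL_mem : ∀ c ∈ rowL, -8 ≤ c ∧ c ≤ 6 := by decide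

theorem LEAD_colL_mem : ∀ c ∈ colL, -8 ≤ c ∧ c ≤ 6 := by decide

theorem LEAD_coef (σ : ℤ) (hσ : σ = 1 ∨ σ = -1) (l l' : List ℤ) (x y : K) (w : List ℕ) (d : ℤ)
    (hl' : ∀ c ∈ l', -8 ≤ c ∧ c ≤ 6) (hrun : LEAD_run σ w l = Option.some (d, l'))
    (hxy : x * s.tz d * y = 1) :
    ∃ u : Aˣ, s.B (wact s.T w (single l x)) (single l' y) = algebraMap A K u := by
  obtain ⟨u, rem, e1, e2, e3⟩ := LEAD_main s σ hσ l x w d l' hrun
  obtain ⟨v, hv⟩ := LEAD_gam s l' hl'
  have h1 : rem l' = 0 := by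
    by_contra hne
    have := e2 l' (mem_support_iff.mpr hne)
    omega
  refine ⟨v * u, ?_⟩
  rw [LEAD_B_single, e1, Finsupp.add_apply, single_eq_same, h1, add_zero, hv, Units.val_mul,
    map_mul]
  calc algebraMap A K v * (x * (s.tz d * algebraMap A K u)) * y
      = algebraMap A K v * algebraMap A K u * (x * s.tz d * y) := by ring
    _ = _ := by rw [hxy, mul_one]

theorem LEAD_RC : ∃ u : Aˣ, s.B (wact s.T wRC s.z) s.z' = algebraMap A K u := by
  unfold Setup.z Setup.z'
  apply LEAD_coef s (-1) (Or.inr rfl) rowL colL (s.tz 8) (s.tz (-2)) wRC (-6) LEAD_colL_mem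
    LEAD_runRC
  rw [← LEAD_tz_add, ← LEAD_tz_add]
  have e : (8 : ℤ) + -6 + -2 = 0 := by norm_num
  rw [e, LEAD_tz_zero]

theorem LEAD_CR : ∃ u : Aˣ, s.B (wact s.T wCR s.z') s.z = algebraMap A K u := by
  unfold Setup.z Setup.z'
  apply LEAD_coef s 1 (Or.inl rfl) colL rowL (s.tz (-2)) (s.tz 8) wCR (-6) LEAD_rowL_mem
    LEAD_runCR
  rw [← LEAD_tz_add, ← LEAD_tz_add]
  have e : (-2 : ℤ) + -6 + 8 = 0 := by norm_num
  rw [e, LEAD_tz_zero]

theorem LEAD_zz : ∃ u : Aˣ, s.B s.z s.z = s.tz 16 * algebraMap A K u := by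
  obtain ⟨v, hv⟩ := LEAD_gam s rowL LEAD_rowL_mem
  refine ⟨v, ?_⟩
  unfold Setup.z
  rw [LEAD_B_single, single_eq_same, hv]
  have e : (16 : ℤ) = 8 + 8 := by norm_num
  rw [e, LEAD_tz_add]
  ring

/-! ## the Poincaré polynomial -/

theorem LEAD_Q_nat (n : ℕ) : s.Q (n : ℤ) = algebraMap A K (s.q ^ n) := by
  unfold Setup.Q Setup.qU
  rw [zpow_natCast, Units.val_pow_eq_pow_val, map_pow]
  rfl

theorem LEAD_geom (q : A) (n : ℕ) :
    ((List.range n).map (fun i => q ^ i)).sum * (q - 1) = q ^ n - 1 := by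
  induction n with
  | zero => simp
  | succ n ih =>
    rw [List.range_succ, List.map_append, List.sum_append, add_mul, ih]
    simp only [List.map_cons, List.map_nil, List.sum_cons, List.sum_nil]
    ring

/-- exponent of `[j+1]_q` -/
def LEAD_e (j : ℕ) : ℤ := if (j + 1) % 3 = 0 then 2 else 0

theorem LEAD_qint (j : ℕ) (hj : j < 13) :
    ∃ u : Aˣ, algebraMap A K (((List.range (j + 1)).map (fun i => s.q ^ i)).sum) =
      s.tz (LEAD_e j) * algebraMap A K u := by
  obtain ⟨u1, hu1⟩ := COEF_unit s 1 (by norm_num) (by norm_num)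
  have h1 : algebraMap A K (s.q - 1) = algebraMap A K u1 := by
    have h0 : s.Q 1 = algebraMap A K s.q := by
      have := LEAD_Q_nat s 1
      rwa [Nat.cast_one, pow_one] at this
    rw [← hu1, map_sub, map_one, h0]
  have h2 : algebraMap A K (((List.range (j + 1)).map (fun i => s.q ^ i)).sum) *
      algebraMap A K u1 = s.Q ((j + 1 : ℕ) : ℤ) - 1 := by
    rw [← h1, ← map_mul, LEAD_geom, map_sub, map_one, LEAD_Q_nat]
  have h3 : algebraMap A K ((u1⁻¹ : Aˣ) : A) * algebraMap A K u1 = 1 := by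
    rw [← map_mul, ← Units.val_mul, inv_mul_cancel, Units.val_one, map_one]
  have habs : |((j + 1 : ℕ) : ℤ)| = ((j + 1 : ℕ) : ℤ) := Nat.abs_cast _
  have key : ∀ v : Aˣ, s.Q ((j + 1 : ℕ) : ℤ) - 1 = s.tz (LEAD_e j) * algebraMap A K v →
      ∃ u : Aˣ, algebraMap A K (((List.range (j + 1)).map (fun i => s.q ^ i)).sum) =
      s.tz (LEAD_e j) * algebraMap A K u := by
    intro v hv
    refine ⟨v * u1⁻¹, ?_⟩
    have h4 : algebraMap A K (((List.range (j + 1)).map (fun i => s.q ^ i)).sum) =
        algebraMap A K (((List.range (j + 1)).map (fun i => s.q ^ i)).sum) *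
        algebraMap A K u1 * algebraMap A K ((u1⁻¹ : Aˣ) : A) := by
      rw [mul_assoc, mul_comm (algebraMap A K (u1 : A)), h3, mul_one]
    rw [h4, h2, hv, Units.val_mul, map_mul, mul_assoc]
  by_cases h5 : (j + 1) % 3 = 0
  · obtain ⟨v, hv, -⟩ := COEF_unit3 s ((j + 1 : ℕ) : ℤ) (by omega) (by omega)
      (by rw [habs]; omega)
    refine key v ?_
    rw [hv, LEAD_e, if_pos h5]
  · obtain ⟨v, hv⟩ := COEF_unit s ((j + 1 : ℕ) : ℤ) (by omega) (by rw [habs]; omega)
    refine key v ?_
    rw [hv, LEAD_e, if_neg h5, LEAD_tz_zero, one_mul]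

theorem LEAD_list (F : ℕ → A) (e : ℕ → ℤ) : ∀ L : List ℕ,
    (∀ m ∈ L, ∃ u : Aˣ, algebraMap A K (F m) = s.tz (e m) * algebraMap A K u) →
    ∃ u : Aˣ, algebraMap A K ((L.map F).prod) = s.tz ((L.map e).sum) * algebraMap A K u
  | [], _ => ⟨1, by simp [LEAD_tz_zero]⟩
  | m :: L, h => by
    obtain ⟨u, hu⟩ := h m List.mem_cons_self
    obtain ⟨v, hv⟩ := LEAD_list F e L fun m' hm' => h m' (List.mem_cons_of_mem m hm')
    refine ⟨u * v, ?_⟩
    rw [List.map_cons, List.prod_cons, List.map_cons, List.sum_cons, map_mul, hu, hv,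
      LEAD_tz_add, Units.val_mul, map_mul]
    ring

theorem LEAD_poinc_exp :
    (kap.map (fun m => ((List.range m).map LEAD_e).sum)).sum = 16 := by decide

theorem LEAD_kap_le : ∀ m ∈ kap, m ≤ 13 := by decide

theorem LEAD_poinc : ∃ u : Aˣ, algebraMap A K (poinc s.q) = s.tz 16 * algebraMap A K u := by
  unfold poinc
  rw [← LEAD_poinc_exp]
  refine LEAD_list s _ _ kap fun m hm => ?_
  refine LEAD_list s _ _ (List.range m) fun j hj => ?_
  have h1 := LEAD_kap_le m hm
  rw [List.mem_range] at hj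
  exact LEAD_qint s j (by omega)

end

end J3
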