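import Pool.Agent.J3.Defs

/-!
# Pairing lemma for Hecke systems (module PAIR, helper27)

If `z` satisfies the row relations of the composition `a` and `φ` the column relations of the conjugate
composition, then `φ` of every element of the orbit of `z` is a multiple of `φ (T_{w₀} z)`.
-/

set_option autoImplicit false

namespace J3
open Finsupp

section
variable {A : Type*} [CommRing A] {X : Type*} [AddCommGroup X] [Module A X] {q : A} {n : ℕ}

/-! ### words -/

theorem PAIR_wact_append (T : ℕ → Module.End A X) (u w : List ℕ) (x : X) :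
    wact T (u ++ w) x = wact T u (wact T w x) := by
  simp [wact, List.map_append, List.prod_append, Module.End.mul_apply]

theorem PAIR_wact_cons (T : ℕ → Module.End A X) (k : ℕ) (w : List ℕ) (x : X) :
    wact T (k :: w) x = T k (wact T w x) := by
  simp [wact, Module.End.mul_apply]

theorem PAIR_wact_nil (T : ℕ → Module.End A X) (x : X) : wact T [] x = x := by
  simp [wact]

theorem PAIR_wact_smul (T : ℕ → Module.End A X) (w : List ℕ) (c : A) (x : X) :
    wact T w (c • x) = c • wact T w x := by
  simp

theorem PAIR_dword_self (m : ℕ) : dword m m = [] := by simp [dword]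

theorem PAIR_dword_succ {N m : ℕ} (h : m ≤ N) : dword (N + 1) m = N :: dword N m := by
  unfold dword
  rw [Nat.succ_sub h, Nat.succ_eq_add_one, List.range'_1_concat, List.reverse_append,
    Nat.add_sub_cancel' h]
  rfl

theorem PAIR_dword_last {N m : ℕ} (h : m < N) : dword N m = dword N (m + 1) ++ [m] := by
  unfold dword
  obtain ⟨k, rfl⟩ : ∃ k, N = m + 1 + k := ⟨N - (m + 1), by omega⟩
  have e1 : m + 1 + k - m = k + 1 := by omega
  have e2 : m + 1 + k - (m + 1) = k := by omega
  rw [e1, e2, List.range'_succ, List.reverse_cons]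

theorem PAIR_mem_dword {N m k : ℕ} (h : k ∈ dword N m) : m ≤ k ∧ k < N := by
  unfold dword at h
  rw [List.mem_reverse, List.mem_range'_1] at h
  omega

/-! ### commutation of letters with words -/

theorem PAIR_comm (H : HSys A X q n) (i : ℕ) (h1 : 1 ≤ i) (hn : i < n) (w : List ℕ) (x : X)
    (hw : ∀ k ∈ w, 1 ≤ k ∧ k < n ∧ (i + 1 < k ∨ k + 1 < i)) :
    H.T i (wact H.T w x) = wact H.T w (H.T i x) := by
  induction w with
  | nil => simp [PAIR_wact_nil]
  | cons k w ih =>
    have hk := hw k (by simp)
    have ih' := ih (fun k' hk' => hw k' (by simp [hk']))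
    rw [PAIR_wact_cons, PAIR_wact_cons, ← ih']
    rcases hk with ⟨hk1, hk2, hk3 | hk3⟩
    · exact H.comm i k h1 hk3 hk2 _
    · exact (H.comm k i hk1 hk3 hn _).symm

theorem PAIR_D (H : HSys A X q n) (m : ℕ) (hm : 1 ≤ m) (x : X) :
    ∀ N : ℕ, N ≤ n → ∀ j : ℕ, m ≤ j → j + 1 < N →
      wact H.T (dword N m) (H.T (j + 1) x) = H.T j (wact H.T (dword N m) x) := by
  intro N
  induction N with
  | zero => intro _ j _ h; omega
  | succ N ih =>
    intro hN j hmj hj
    rw [PAIR_dword_succ (by omega), PAIR_wact_cons, PAIR_wact_cons]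
    by_cases hc : j + 1 < N
    · rw [ih (by omega) j hmj hc]
      exact (H.comm j N (by omega) hc (by omega) _).symm
    · have hNj : N = j + 1 := by omega
      subst hNj
      rw [PAIR_dword_succ hmj, PAIR_wact_cons, PAIR_wact_cons]
      rw [← PAIR_comm H (j + 1) (by omega) (by omega) (dword j m) x (by
        intro k hk
        have := PAIR_mem_dword hk
        exact ⟨by omega, by omega, Or.inr (by omega)⟩)]
      exact (H.braid j (by omega) (by omega) _).symm

theorem PAIR_DD (H : HSys A X q n) (m m' : ℕ) (hm : 1 ≤ m) (hmm : m ≤ m') (N : ℕ) (hN : N + 1 ≤ n)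
    (x : X) : ∀ M : ℕ, m' ≤ M → M ≤ N →
      wact H.T (dword (N + 1) m) (wact H.T (dword (M + 1) (m' + 1)) x)
        = wact H.T (dword M m') (wact H.T (dword (N + 1) m) x) := by
  intro M hM
  induction M, hM using Nat.le_induction with
  | base => intro _; simp [PAIR_dword_self, PAIR_wact_nil]
  | succ M hM ih =>
    intro hMN
    rw [PAIR_dword_succ (N := M + 1) (m := m' + 1) (by omega), PAIR_wact_cons,
      PAIR_D H m hm _ (N + 1) hN M (by omega) (by omega), ih (by omega),
      PAIR_dword_succ (N := M) (m := m') hM, PAIR_wact_cons]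

/-! ### compositions -/

theorem PAIR_take_set : ∀ (a : List ℕ) (j k v : ℕ), k ≤ j → (a.set j v).take k = a.take k := by
  intro a
  induction a with
  | nil => intro j k v _; simp
  | cons c a ih =>
    intro j k v h
    cases k with
    | zero => simp
    | succ k =>
      cases j with
      | zero => omega
      | succ j => simp [ih j k v (by omega)]

theorem PAIR_sum_set : ∀ (a : List ℕ) (j k v : ℕ), j < a.length → j < k →
    ((a.set j v).take k).sum + a.getD j 0 = (a.take k).sum + v := by
  intro a
  induction a with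
  | nil => intro j k v h; simp at h
  | cons c a ih =>
    intro j k v hj h
    cases k with
    | zero => omega
    | succ k =>
      cases j with
      | zero => simp; omega
      | succ j =>
        have := ih j k v (by simpa using hj) (by omega)
        simp at this ⊢
        omega

theorem PAIR_take_mono (a : List ℕ) {b c : ℕ} (h : b ≤ c) : (a.take b).sum ≤ (a.take c).sum := by
  have hs : (a.take b).Sublist (a.take c) := by
    have : a.take b = (a.take c).take b := by rw [List.take_take, min_eq_left h]
    rw [this]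
    exact List.take_sublist _ _
  exact hs.sum_le_sum (by intro x _; exact Nat.zero_le x)

theorem PAIR_take_succ (a : List ℕ) (j : ℕ) :
    (a.take (j + 1)).sum = (a.take j).sum + a.getD j 0 := by
  induction a generalizing j with
  | nil => simp
  | cons c a ih =>
    cases j with
    | zero => simp
    | succ j =>
      have := ih j
      simp at this ⊢
      omega

theorem PAIR_lt_length {a : List ℕ} {j : ℕ} (h : 1 ≤ a.getD j 0) : j < a.length := by
  by_contra hc
  rw [List.getD_eq_default _ _ (by omega)] at h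
  omega

theorem PAIR_decr_sum {a : List ℕ} {j k : ℕ} (h : 1 ≤ a.getD j 0) (hk : j < k) :
    ((decr a j).take k).sum + 1 = (a.take k).sum := by
  have := PAIR_sum_set a j k (a.getD j 0 - 1) (PAIR_lt_length h) hk
  unfold decr
  omega

theorem PAIR_decr_take {a : List ℕ} {j k : ℕ} (hk : k ≤ j) :
    ((decr a j).take k).sum = (a.take k).sum := by
  unfold decr
  rw [PAIR_take_set _ _ _ _ hk]

theorem PAIR_decr_total {a : List ℕ} {j : ℕ} (h : 1 ≤ a.getD j 0) : (decr a j).sum + 1 = a.sum := by
  have h1 := PAIR_decr_sum h (k := a.length) (PAIR_lt_length h)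
  have h2 : (decr a j).length = a.length := by simp [decr]
  rw [List.take_of_length_le (by omega), List.take_of_length_le (by omega)] at h1
  exact h1

theorem PAIR_decr_getD {a : List ℕ} {j : ℕ} (h : 1 ≤ a.getD j 0) (k : ℕ) :
    (decr a j).getD k 0 + (if k = j then 1 else 0) = a.getD k 0 := by
  have hl := PAIR_lt_length h
  unfold decr
  by_cases hk : k = j
  · subst hk
    simp only [List.getD_eq_getElem?_getD, List.getElem?_set_self hl, Option.getD_some, if_true] at h ⊢
    omega
  · simp only [List.getD_eq_getElem?_getD, List.getElem?_set_ne (Ne.symm hk), if_neg hk, add_zero]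

theorem PAIR_decr_comm {a : List ℕ} {j k : ℕ} (hjk : j ≠ k) : decr (decr a j) k = decr (decr a k) j := by
  unfold decr
  have e1 : (a.set j (a.getD j 0 - 1)).getD k 0 = a.getD k 0 := by
    simp only [List.getD_eq_getElem?_getD, List.getElem?_set_ne hjk]
  have e2 : (a.set k (a.getD k 0 - 1)).getD j 0 = a.getD j 0 := by
    simp only [List.getD_eq_getElem?_getD, List.getElem?_set_ne (Ne.symm hjk)]
  rw [e1, e2, List.set_comm _ _ hjk]

/-- `v` satisfies the relations `T_i v = ε v` for `i` inside the blocks of the composition `a` -/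
def PAIR_Compat (T : ℕ → Module.End A X) (ε : A) (a : List ℕ) (v : X) : Prop :=
  ∀ b i : ℕ, (a.take b).sum < i → i < (a.take (b + 1)).sum → T i v = ε • v

theorem PAIR_step (H : HSys A X q n) (ε : A) (a : List ℕ) (v : X) (j N : ℕ) (hN : N + 1 ≤ n)
    (ha : a.sum = N + 1) (hj : 1 ≤ a.getD j 0) (hv : PAIR_Compat H.T ε a v) :
    PAIR_Compat H.T ε (decr a j) (wact H.T (dword (N + 1) (blockEnd a j)) v) := by
  intro b i hi1 hi2
  have hm : blockEnd a j = (a.take j).sum + a.getD j 0 := PAIR_take_succ a j
  have hiN : i < N := by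
    have h1 : ((decr a j).take (b + 1)).sum ≤ (decr a j).sum := by
      have := PAIR_take_mono (decr a j) (b := b + 1) (c := max (b + 1) (decr a j).length)
        (le_max_left _ _)
      rwa [List.take_of_length_le (le_max_right _ _)] at this
    have h2 := PAIR_decr_total hj
    omega
  rcases lt_trichotomy b j with hb | hb | hb
  · rw [PAIR_decr_take (by omega)] at hi1 hi2
    have h3 := PAIR_take_mono a (b := b + 1) (c := j) (by omega)
    rw [PAIR_comm H i (by omega) (by omega) _ _ (by
      intro k hk
      have := PAIR_mem_dword hk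
      exact ⟨by omega, by omega, Or.inl (by omega)⟩), hv b i hi1 hi2, PAIR_wact_smul]
  · subst hb
    rw [PAIR_decr_take (le_refl _)] at hi1
    have h3 := PAIR_decr_sum hj (k := b + 1) (by omega)
    have h4 : blockEnd a b = (a.take (b + 1)).sum := rfl
    rw [PAIR_comm H i (by omega) (by omega) _ _ (by
      intro k hk
      have := PAIR_mem_dword hk
      exact ⟨by omega, by omega, Or.inl (by omega)⟩), hv b i hi1 (by omega), PAIR_wact_smul]
  · have h3 := PAIR_decr_sum hj (k := b) hb
    have h4 := PAIR_decr_sum hj (k := b + 1) (by omega)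
    have h5 := PAIR_take_mono a (b := j + 1) (c := b) (by omega)
    have h6 : blockEnd a j = (a.take (j + 1)).sum := rfl
    rw [← PAIR_D H (blockEnd a j) (by omega) v (N + 1) hN i (by omega) (by omega),
      hv b (i + 1) (by omega) (by omega), PAIR_wact_smul]

theorem PAIR_count_decr {a w : List ℕ} {j : ℕ} (ha : ∀ i, (j :: w).count i = a.getD i 0) :
    1 ≤ a.getD j 0 ∧ ∀ i, w.count i = (decr a j).getD i 0 := by
  have hj : 1 ≤ a.getD j 0 := by rw [← ha j]; simp
  refine ⟨hj, ?_⟩
  intro i
  have h2 := ha i
  have h3 := PAIR_decr_getD hj i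
  rw [List.count_cons] at h2
  by_cases hi : i = j
  · subst hi
    rw [if_pos (beq_self_eq_true _)] at h2
    rw [if_pos rfl] at h3
    omega
  · rw [if_neg (by simpa using fun h => hi h.symm)] at h2
    rw [if_neg hi] at h3
    omega

theorem PAIR_mem_cword : ∀ (w a : List ℕ), (∀ j, w.count j = a.getD j 0) →
    ∀ k ∈ cword a w, 1 ≤ k ∧ k < w.length := by
  intro w
  induction w with
  | nil => intro a _ k hk; simp [cword] at hk
  | cons j w ih =>
    intro a ha k hk
    obtain ⟨hj, hc⟩ := PAIR_count_decr ha
    rw [cword, List.mem_append] at hk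
    rw [List.length_cons]
    rcases hk with hk | hk
    · have h1 := ih (decr a j) hc k hk
      omega
    · have h1 := PAIR_mem_dword hk
      have hm : blockEnd a j = (a.take j).sum + a.getD j 0 := PAIR_take_succ a j
      omega

/-! ### equivariance -/

theorem PAIR_equiv (H : HSys A X q n) (ε : A) :
    ∀ (p : List ℕ) (x y : ℕ) (l a : List ℕ) (v : X),
      (∀ j, (p ++ x :: y :: l).count j = a.getD j 0) → a.sum = (p ++ x :: y :: l).length →
      (p ++ x :: y :: l).length ≤ n → PAIR_Compat H.T ε a v →
      (x = y → H.T (l.length + 1) (wact H.T (cword a (p ++ x :: y :: l)) v)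
          = ε • wact H.T (cword a (p ++ x :: y :: l)) v) ∧
      (y < x → H.T (l.length + 1) (wact H.T (cword a (p ++ x :: y :: l)) v)
          = wact H.T (cword a (p ++ y :: x :: l)) v) := by
  intro p
  induction p with
  | cons j p ih =>
    intro x y l a v hc hs hn hv
    obtain ⟨hj, hc'⟩ := PAIR_count_decr (w := p ++ x :: y :: l) hc
    have ht := PAIR_decr_total hj
    simp only [List.cons_append, List.length_cons] at hs hn
    have hst := PAIR_step H ε a v j (p ++ x :: y :: l).length hn hs hj hv
    have := ih x y l (decr a j) _ hc' (by omega) (by omega) hst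
    have e : (p ++ y :: x :: l).length = (p ++ x :: y :: l).length := by simp
    simp only [List.cons_append, cword, PAIR_wact_append, e]
    exact this
  | nil =>
    intro x y l a v hc hs hn hv
    simp only [List.nil_append, List.length_cons] at hs hn hc ⊢
    obtain ⟨hx, hc1⟩ := PAIR_count_decr (w := y :: l) hc
    obtain ⟨hy, hc2⟩ := PAIR_count_decr (w := l) hc1
    have hmx : blockEnd a x = (a.take x).sum + a.getD x 0 := PAIR_take_succ a x
    have hmx' : blockEnd a x = (a.take (x + 1)).sum := rfl
    have hmy : blockEnd (decr a x) y = ((decr a x).take y).sum + (decr a x).getD y 0 :=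
      PAIR_take_succ _ y
    have hmy' : blockEnd (decr a x) y = ((decr a x).take (y + 1)).sum := rfl
    have ht := PAIR_decr_total hx
    have hble : blockEnd (decr a x) y ≤ (decr a x).sum := by
      have := PAIR_take_mono (decr a x) (b := y + 1) (c := max (y + 1) (decr a x).length)
        (le_max_left _ _)
      rwa [List.take_of_length_le (le_max_right _ _)] at this
    have hxle : blockEnd a x ≤ a.sum := by
      have := PAIR_take_mono a (b := x + 1) (c := max (x + 1) a.length)
        (le_max_left _ _)
      rwa [List.take_of_length_le (le_max_right _ _)] at this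
    have hcm := PAIR_comm H (l.length + 1) (by omega) (by omega) (cword (decr (decr a x) y) l)
      (wact H.T (dword (l.length + 1) (blockEnd (decr a x) y))
        (wact H.T (dword (l.length + 1 + 1) (blockEnd a x)) v)) (by
        intro k hk
        have := PAIR_mem_cword l _ hc2 k hk
        exact ⟨by omega, by omega, Or.inr (by omega)⟩)
    have hD : H.T (l.length + 1) (wact H.T (dword (l.length + 1) (blockEnd (decr a x) y))
        (wact H.T (dword (l.length + 1 + 1) (blockEnd a x)) v))
        = wact H.T (dword (l.length + 1 + 1) (blockEnd (decr a x) y))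
        (wact H.T (dword (l.length + 1 + 1) (blockEnd a x)) v) := by
      rw [PAIR_dword_succ (N := l.length + 1) (m := blockEnd (decr a x) y) (by omega), PAIR_wact_cons]
    constructor
    · intro hxy
      subst hxy
      have hg := PAIR_decr_getD hx x
      simp only [if_true] at hg
      have h2 := PAIR_decr_sum hx (k := x + 1) (by omega)
      have h3 := PAIR_decr_take (a := a) (j := x) (k := x) (le_refl _)
      obtain ⟨m, hm⟩ : ∃ m, blockEnd (decr a x) x = m := ⟨_, rfl⟩
      have hm1 : blockEnd a x = m + 1 := by omega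
      simp only [cword, PAIR_wact_append, List.length_cons]
      rw [hcm, hD, hm, hm1, PAIR_DD H m m (by omega) (le_refl _) (l.length + 1) (by omega) v
        (l.length + 1) (by omega) (le_refl _),
        PAIR_dword_last (N := l.length + 1 + 1) (m := m) (by omega), PAIR_wact_append,
        PAIR_wact_cons, PAIR_wact_nil, hv x m (by omega) (by omega)]
      simp only [PAIR_wact_smul]
    · intro hyx
      obtain ⟨hy', hc3⟩ := PAIR_count_decr (a := a) (j := y) (w := x :: l) (by
        intro i
        rw [← hc i]
        simp only [List.count_cons]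
        omega)
      have h2 := PAIR_decr_sum hy' (k := x + 1) (by omega)
      have h3 := PAIR_decr_take (a := a) (j := x) (k := y + 1) (by omega)
      have e1 : blockEnd (decr a x) y = blockEnd a y := h3
      obtain ⟨m, hm⟩ : ∃ m, blockEnd (decr a y) x = m := ⟨_, rfl⟩
      have hm' : ((decr a y).take (x + 1)).sum = m := hm
      have hm1 : blockEnd a x = m + 1 := by omega
      have h4 := PAIR_take_mono a (b := y + 1) (c := x) (by omega)
      have h5 : blockEnd a y = (a.take (y + 1)).sum := rfl
      have h6 : blockEnd a y = (a.take y).sum + a.getD y 0 := PAIR_take_succ a y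
      simp only [cword, PAIR_wact_append, List.length_cons]
      rw [hcm, hD, e1, hm, hm1, PAIR_DD H (blockEnd a y) m (by omega) (by omega) (l.length + 1)
        (by omega) v (l.length + 1) (by omega) (le_refl _),
        PAIR_decr_comm (show x ≠ y by omega)]

/-! ### sorting blocks -/

/-- word (last letter first) whose blocks of lengths `ks` are `0, 1, 2, …` -/
def PAIR_tgt : List ℕ → List ℕ
  | [] => []
  | k :: ks => PAIR_tgt ks ++ (List.range k).reverse

/-- all indices inside the blocks of lengths `ks`, starting after position `s`, are in `Idx` -/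
def PAIR_ok (Idx : List ℕ) : ℕ → List ℕ → Prop
  | _, [] => True
  | s, k :: ks => (∀ i ∈ List.range' (s + 1) (k - 1), i ∈ Idx) ∧ PAIR_ok Idx (s + k) ks

instance PAIR_okDec (Idx : List ℕ) : ∀ s ks, Decidable (PAIR_ok Idx s ks)
  | _, [] => isTrue trivial
  | s, k :: ks => by
      unfold PAIR_ok
      haveI := PAIR_okDec Idx (s + k) ks
      infer_instance

section sort
variable {Y : Type*} [AddCommGroup Y] [Module A Y] (ψ : List ℕ → Y) (w0 Idx : List ℕ)

theorem PAIR_perm
    (h1 : ∀ p x y l, (p ++ x :: y :: l).Perm w0 → l.length + 1 ∈ Idx → x ≠ y →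
      ∃ a : A, ψ (p ++ x :: y :: l) = a • ψ (p ++ y :: x :: l))
    {β β' : List ℕ} (hβ : β.Perm β') :
    ∀ p l : List ℕ, (p ++ β ++ l).Perm w0 → (∀ i, l.length < i → i < l.length + β.length → i ∈ Idx) →
      ∃ a : A, ψ (p ++ β ++ l) = a • ψ (p ++ β' ++ l) := by
  induction hβ with
  | nil => intro p l _ _; exact ⟨1, by simp⟩
  | @cons x β₁ β₂ h ih =>
    intro p l hp hi
    have e1 : p ++ (x :: β₁) ++ l = (p ++ [x]) ++ β₁ ++ l := by simp
    have e2 : p ++ (x :: β₂) ++ l = (p ++ [x]) ++ β₂ ++ l := by simp
    rw [e1] at hp ⊢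
    rw [e2]
    exact ih (p ++ [x]) l hp (by
      intro i h2 h3
      exact hi i h2 (by simp; omega))
  | swap x y β₁ =>
    intro p l hp hi
    by_cases hxy : y = x
    · subst hxy; exact ⟨1, by simp⟩
    · have e1 : p ++ (y :: x :: β₁) ++ l = p ++ y :: x :: (β₁ ++ l) := by simp
      have e2 : p ++ (x :: y :: β₁) ++ l = p ++ x :: y :: (β₁ ++ l) := by simp
      rw [e1] at hp ⊢
      rw [e2]
      exact h1 p y x (β₁ ++ l) hp (hi _ (by simp only [List.length_append]; omega)
        (by simp only [List.length_append, List.length_cons]; omega)) hxy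
  | @trans β₁ β₂ β₃ h12 h23 ih1 ih2 =>
    intro p l hp hi
    obtain ⟨a, ha⟩ := ih1 p l hp hi
    obtain ⟨b, hb⟩ := ih2 p l
      (((List.Perm.append_right l (List.Perm.append_left p h12)).symm).trans hp)
      (by intro i h2 h3; exact hi i h2 (by rw [h12.length_eq]; exact h3))
    exact ⟨a * b, by rw [ha, hb, smul_smul]⟩

theorem PAIR_reduce
    (h0 : ∀ p x l, (p ++ x :: x :: l).Perm w0 → l.length + 1 ∈ Idx → ψ (p ++ x :: x :: l) = 0)
    (h1 : ∀ p x y l, (p ++ x :: y :: l).Perm w0 → l.length + 1 ∈ Idx → x ≠ y →
      ∃ a : A, ψ (p ++ x :: y :: l) = a • ψ (p ++ y :: x :: l)) :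
    ∀ ks : List ℕ, ks.Pairwise (· ≥ ·) → ∀ p l : List ℕ, p.Perm (PAIR_tgt ks) →
      (PAIR_tgt ks ++ l).Perm w0 → PAIR_ok Idx l.length ks →
      ∃ a : A, ψ (p ++ l) = a • ψ (PAIR_tgt ks ++ l) := by
  have hlt : ∀ (ks : List ℕ) (k : ℕ), (∀ k' ∈ ks, k' ≤ k) → ∀ x ∈ PAIR_tgt ks, x < k := by
    intro ks
    induction ks with
    | nil => intro k _ x hx; simp [PAIR_tgt] at hx
    | cons k' ks ih =>
      intro k hk x hx
      rw [PAIR_tgt, List.mem_append, List.mem_reverse, List.mem_range] at hx
      rcases hx with hx | hx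
      · exact ih k (fun k'' h => hk k'' (by simp [h])) x hx
      · exact lt_of_lt_of_le hx (hk k' (by simp))
  intro ks
  induction ks with
  | nil =>
    intro _ p l hp _ _
    have : p = [] := by simpa [PAIR_tgt] using hp
    subst this
    exact ⟨1, by simp [PAIR_tgt]⟩
  | cons k ks ih =>
    intro hks p l hp hw hok
    obtain ⟨hok1, hok2⟩ := hok
    rw [List.pairwise_cons] at hks
    have hlen : p.length = (PAIR_tgt ks).length + k := by
      rw [hp.length_eq]; simp [PAIR_tgt]
    obtain ⟨p', β, rfl, hβl⟩ : ∃ p' β, p = p' ++ β ∧ β.length = k :=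
      ⟨p.take (p.length - k), p.drop (p.length - k), (List.take_append_drop _ _).symm, by
        rw [List.length_drop]; omega⟩
    have hwp : (p' ++ β ++ l).Perm w0 := (List.Perm.append_right l hp).trans hw
    have hidx : ∀ i, l.length < i → i < l.length + β.length → i ∈ Idx := by
      intro i h2 h3
      exact hok1 i (by rw [List.mem_range'_1]; omega)
    by_cases hnd : β.Nodup
    · have hβ : β.Perm (List.range k).reverse := by
        have hsub : β ⊆ List.range k := by
          intro x hx
          rw [List.mem_range]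
          have hx' : x ∈ PAIR_tgt (k :: ks) := hp.subset (by simp [hx])
          exact hlt (k :: ks) k (by
            intro k' hk'
            rcases List.mem_cons.1 hk' with h | h
            · omega
            · exact hks.1 k' h) x hx'
        have hs : β.Subperm (List.range k) := List.subperm_of_subset hnd hsub
        have := hs.perm_of_length_le (by simp [hβl])
        exact this.trans (List.reverse_perm _).symm
      obtain ⟨a, ha⟩ := PAIR_perm (A := A) ψ w0 Idx h1 hβ p' l hwp hidx
      have hp' : p'.Perm (PAIR_tgt ks) := by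
        have h2 : (p' ++ β).Perm (PAIR_tgt ks ++ β) := by
          refine hp.trans ?_
          rw [PAIR_tgt]
          exact List.Perm.append_left _ hβ.symm
        exact (List.perm_append_right_iff β).1 h2
      have hw' : (PAIR_tgt ks ++ ((List.range k).reverse ++ l)).Perm w0 := by
        rw [← List.append_assoc]; exact hw
      have hl' : ((List.range k).reverse ++ l).length = l.length + k := by simp; omega
      obtain ⟨b, hb⟩ := ih hks.2 p' ((List.range k).reverse ++ l) hp' hw' (by rw [hl']; exact hok2)
      refine ⟨a * b, ?_⟩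
      rw [ha, List.append_assoc, hb, smul_smul, PAIR_tgt, List.append_assoc]
    · refine ⟨0, ?_⟩
      rw [zero_smul]
      obtain ⟨x, hx⟩ := List.exists_duplicate_iff_not_nodup.2 hnd
      obtain ⟨β'', hβ''⟩ := (List.duplicate_iff_sublist.1 hx).exists_perm_append
      obtain ⟨a, ha⟩ := PAIR_perm (A := A) ψ w0 Idx h1 hβ'' p' l hwp hidx
      have e : p' ++ ([x, x] ++ β'') ++ l = p' ++ x :: x :: (β'' ++ l) := by simp
      rw [ha, e, h0 p' x (β'' ++ l), smul_zero]
      · rw [← e]
        exact ((List.Perm.append_right l (List.Perm.append_left p' hβ'')).symm).trans hwp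
      · have := hβ''.length_eq
        simp at this
        exact hidx _ (by simp only [List.length_append]; omega) (by simp only [List.length_append]; omega)

end sort

/-! ### the pairing lemma -/

theorem PAIR_main (H : HSys A X q 32) (ε ε' : A) (hε' : IsUnit ε')
    {Y : Type*} [AddCommGroup Y] [Module A Y] (hY : ∀ y : Y, ε • y = ε' • y → y = 0)
    (a ws ks Idx : List ℕ) (ha : a.sum = 32)
    (hcount : ∀ j, (PAIR_tgt ks).count j = a.getD j 0)
    (hws : ws.Perm (PAIR_tgt ks)) (hws0 : cword a ws = [])
    (hks : ks.Pairwise (· ≥ ·)) (hok : PAIR_ok Idx 0 ks) (hlen : (PAIR_tgt ks).length = 32)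
    (z : X) (hz : PAIR_Compat H.T ε a z) (φ : X →ₗ[A] Y)
    (hφ : ∀ i ∈ Idx, ∀ x, φ (H.T i x) = ε' • φ x) :
    ∀ x ∈ orb H.T 32 z, ∃ c : A, φ x = c • φ (wact H.T (cword a (PAIR_tgt ks)) z) := by
  have hcw : ∀ w : List ℕ, w.Perm (PAIR_tgt ks) →
      (∀ j, w.count j = a.getD j 0) ∧ w.length = 32 := by
    intro w hw
    exact ⟨fun j => by rw [hw.count_eq, hcount j], by rw [hw.length_eq, hlen]⟩
  -- equivariance
  have heq : ∀ p x y l, (p ++ x :: y :: l).Perm (PAIR_tgt ks) →
      (x = y → H.T (l.length + 1) (wact H.T (cword a (p ++ x :: y :: l)) z)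
          = ε • wact H.T (cword a (p ++ x :: y :: l)) z) ∧
      (y < x → H.T (l.length + 1) (wact H.T (cword a (p ++ x :: y :: l)) z)
          = wact H.T (cword a (p ++ y :: x :: l)) z) := by
    intro p x y l hw
    obtain ⟨h1, h2⟩ := hcw _ hw
    exact PAIR_equiv H ε p x y l a z h1 (by rw [ha, h2]) (by rw [h2]) hz
  have hswap : ∀ p x y l, (p ++ x :: y :: l).Perm (PAIR_tgt ks) →
      (p ++ y :: x :: l).Perm (PAIR_tgt ks) := by
    intro p x y l hw
    exact (List.Perm.append_left p (List.Perm.swap x y l)).trans hw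
  -- sorting
  have hred : ∀ w : List ℕ, w.Perm (PAIR_tgt ks) →
      ∃ c : A, φ (wact H.T (cword a w) z) = c • φ (wact H.T (cword a (PAIR_tgt ks)) z) := by
    have h0 : ∀ p x l, (p ++ x :: x :: l).Perm (PAIR_tgt ks) → l.length + 1 ∈ Idx →
        φ (wact H.T (cword a (p ++ x :: x :: l)) z) = 0 := by
      intro p x l hw hi
      apply hY
      rw [← map_smul, ← (heq p x x l hw).1 rfl, hφ _ hi]
    have h1 : ∀ p x y l, (p ++ x :: y :: l).Perm (PAIR_tgt ks) → l.length + 1 ∈ Idx → x ≠ y →
        ∃ c : A, φ (wact H.T (cword a (p ++ x :: y :: l)) z)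
          = c • φ (wact H.T (cword a (p ++ y :: x :: l)) z) := by
      intro p x y l hw hi hxy
      rcases lt_or_gt_of_ne hxy with h | h
      · refine ⟨ε', ?_⟩
        rw [← (heq p y x l (hswap _ _ _ _ hw)).2 h, hφ _ hi]
      · obtain ⟨e, he⟩ := hε'
        refine ⟨((e⁻¹ : Aˣ) : A), ?_⟩
        rw [← (heq p x y l hw).2 h, hφ _ hi, smul_smul, ← he, Units.inv_mul, one_smul]
    intro w hw
    have := PAIR_reduce (A := A) (fun w => φ (wact H.T (cword a w) z)) (PAIR_tgt ks) Idx h0 h1 ks hks
      w [] hw (by simp) hok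
    simpa using this
  -- spanning
  have hspan : orb H.T 32 z ≤ Submodule.span A {x | ∃ w : List ℕ, w.Perm (PAIR_tgt ks) ∧
      x = wact H.T (cword a w) z} := by
    refine sInf_le ⟨?_, ?_⟩
    · refine Submodule.subset_span ⟨ws, hws, ?_⟩
      rw [hws0, PAIR_wact_nil]
    · intro i hi1 hi2 x hx
      induction hx using Submodule.span_induction with
      | zero => simp
      | add x y _ _ hx hy => rw [map_add]; exact Submodule.add_mem _ hx hy
      | smul c x _ hx => rw [map_smul]; exact Submodule.smul_mem _ c hx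
      | mem x hx =>
        obtain ⟨w, hw, rfl⟩ := hx
        obtain ⟨-, hwl⟩ := hcw w hw
        obtain ⟨p, x, y, l, rfl, hl⟩ : ∃ p x y l, w = p ++ x :: y :: l ∧ l.length + 1 = i := by
          have e := (List.take_append_drop (31 - i) w).symm
          have hd : (w.drop (31 - i)).length = i + 1 := by rw [List.length_drop]; omega
          match hdd : w.drop (31 - i) with
          | [] => rw [hdd] at hd; simp at hd
          | [_] => rw [hdd] at hd; simp at hd; omega
          | x :: y :: l =>
            rw [hdd] at hd e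
            exact ⟨_, x, y, l, e, by simpa using hd⟩
        have hmem : ∀ w, w.Perm (PAIR_tgt ks) → wact H.T (cword a w) z ∈
            Submodule.span A {x | ∃ w : List ℕ, w.Perm (PAIR_tgt ks) ∧
              x = wact H.T (cword a w) z} := fun w hw => Submodule.subset_span ⟨w, hw, rfl⟩
        subst hl
        rcases lt_trichotomy x y with h | h | h
        · rw [← (heq p y x l (hswap _ _ _ _ hw)).2 h, H.quad _ hi1 hi2,
            (heq p y x l (hswap _ _ _ _ hw)).2 h]
          exact Submodule.add_mem _ (Submodule.smul_mem _ _ (hmem _ hw))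
            (Submodule.smul_mem _ _ (hmem _ (hswap _ _ _ _ hw)))
        · rw [(heq p x y l hw).1 h]
          exact Submodule.smul_mem _ _ (hmem _ hw)
        · rw [(heq p x y l hw).2 h]
          exact hmem _ (hswap _ _ _ _ hw)
  intro x hx
  refine Submodule.span_induction (p := fun x _ => ∃ c : A,
    φ x = c • φ (wact H.T (cword a (PAIR_tgt ks)) z)) ?_ ?_ ?_ ?_ (hspan hx)
  · rintro x ⟨w, hw, rfl⟩
    exact hred w hw
  · exact ⟨0, by simp⟩
  · rintro x y _ _ ⟨c, hc⟩ ⟨d, hd⟩
    exact ⟨c + d, by rw [map_add, hc, hd, add_smul]⟩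
  · rintro c x _ ⟨d, hd⟩
    exact ⟨c * d, by rw [map_smul, hd, smul_smul]⟩

theorem PAIR_compat_of (T : ℕ → Module.End A X) (ε : A) (a Idx : List ℕ) (z : X)
    (hz : ∀ i ∈ Idx, T i z = ε • z)
    (h : ∀ b ∈ List.range a.length, ∀ i ∈ List.range' ((a.take b).sum + 1) (a.getD b 0 - 1), i ∈ Idx) :
    PAIR_Compat T ε a z := by
  intro b i h1 h2
  have h3 := PAIR_take_succ a b
  have hb : b < a.length := by
    by_contra hc
    rw [List.getD_eq_default _ _ (by omega)] at h3
    omega
  exact hz i (h b (List.mem_range.2 hb) i (by rw [List.mem_range'_1]; omega))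

theorem PAIR_count_of (a w : List ℕ) (h1 : ∀ j ∈ List.range a.length, w.count j = a.getD j 0)
    (h2 : ∀ x ∈ w, x < a.length) (j : ℕ) : w.count j = a.getD j 0 := by
  by_cases hj : j < a.length
  · exact h1 j (List.mem_range.2 hj)
  · rw [List.getD_eq_default _ _ (by omega), List.count_eq_zero]
    intro hm
    exact hj (h2 j hm)

theorem PAIR_row (H : HSys A X q 32) (hq : IsUnit q) {Y : Type*} [AddCommGroup Y] [Module A Y]
    (h1q : ∀ y : Y, (1 + q) • y = 0 → y = 0) (z : X) (hz : ∀ i ∈ rowIdx, H.T i z = q • z)
    (φ : X →ₗ[A] Y) (hφ : ∀ i ∈ colIdx, ∀ x, φ (H.T i x) = - φ x) :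
    ∀ x ∈ orb H.T 32 z, ∃ a : A, φ x = a • φ (wact H.T wRC z) := by
  have _ := hq
  have e : PAIR_tgt kap' = rowsOfCol := by decide
  have := PAIR_main H q (-1) isUnit_one.neg (Y := Y) (by
      intro y hy
      apply h1q
      rw [add_smul, one_smul, hy, neg_smul, one_smul]
      abel)
    kap [8,7,6,6,6,5,5,5,4,4,4,4,3,3,3,3,2,2,2,2,1,1,1,1,1,0,0,0,0,0,0,0] kap' colIdx (by decide)
    (PAIR_count_of _ _ (by decide) (by decide)) (by decide) (by decide) (by decide) (by decide)
    (by decide) z (PAIR_compat_of _ _ _ rowIdx z hz (by decide)) φ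
    (by intro i hi x; rw [hφ i hi x, neg_smul, one_smul])
  rw [e] at this
  exact this

theorem PAIR_col (H : HSys A X q 32) (hq : IsUnit q) {Y : Type*} [AddCommGroup Y] [Module A Y]
    (h1q : ∀ y : Y, (1 + q) • y = 0 → y = 0) (z : X) (hz : ∀ i ∈ colIdx, H.T i z = - z)
    (φ : X →ₗ[A] Y) (hφ : ∀ i ∈ rowIdx, ∀ x, φ (H.T i x) = q • φ x) :
    ∀ x ∈ orb H.T 32 z, ∃ a : A, φ x = a • φ (wact H.T wCR z) := by
  have e : PAIR_tgt kap = colsOfRow := by decide
  have := PAIR_main H (-1) q hq (Y := Y) (by
      intro y hy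
      apply h1q
      rw [add_smul, one_smul, ← hy, neg_smul, one_smul]
      abel)
    kap' [6,5,4,4,3,3,3,3,3,2,2,2,2,2,2,2,1,1,1,1,1,1,1,0,0,0,0,0,0,0,0,0] kap rowIdx (by decide)
    (PAIR_count_of _ _ (by decide) (by decide)) (by decide) (by decide) (by decide) (by decide)
    (by decide) z (PAIR_compat_of _ _ _ colIdx z (by
      intro i hi; rw [hz i hi, neg_smul, one_smul]) (by decide)) φ hφ
  rw [e] at this
  exact this

end

end J3

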