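import Pool.Agent.J3.Defs

/-! Module SYM: the row symmetrizer and its adjoint (MP_36c429_al). -/

set_option autoImplicit false

namespace J3

section general
variable {A : Type*} [CommRing A] {E : Type*} [Ring E] [Algebra A E]

/-- the relations of the Iwahori-Hecke algebra in an algebra -/
structure SYM_Rel (T : ℕ → E) (q : A) (n : ℕ) : Prop where
  quad : ∀ i, 1 ≤ i → i < n → T i * T i = (q - 1) • T i + q • (1 : E)
  braid : ∀ i, 1 ≤ i → i + 1 < n → T i * T (i + 1) * T i = T (i + 1) * T i * T (i + 1)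
  comm : ∀ i j, 1 ≤ i → i + 1 < j → j < n → T i * T j = T j * T i

/-- `1 + T_m + T_m T_(m-1) + ... + T_m ... T_1`, shifted by `s` -/
def SYM_R (T : ℕ → E) (s : ℕ) : ℕ → E
  | 0 => 1
  | m + 1 => 1 + T (s + m + 1) * SYM_R T s m

/-- symmetrizer of the letters `s + 1, ..., s + m + 1` -/
def SYM_X (T : ℕ → E) (s : ℕ) : ℕ → E
  | 0 => 1
  | m + 1 => SYM_X T s m * SYM_R T s (m + 1)

lemma SYM_R_comm {T : ℕ → E} {q : A} {n : ℕ} (h : SYM_Rel T q n) (s : ℕ) :
    ∀ (m j : ℕ), s + m + 1 < j → j < n → SYM_R T s m * T j = T j * SYM_R T s m := by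
  intro m
  induction m with
  | zero => intro j _ _; simp [SYM_R]
  | succ m ih =>
    intro j h1 h2
    have h3 := ih j (by omega) h2
    have h4 := h.comm (s + m + 1) j (by omega) (by omega) h2
    simp only [SYM_R]
    rw [add_mul, mul_add, one_mul, mul_one, mul_assoc, h3, ← mul_assoc, h4, mul_assoc]

/-- commutation with far away generators, on the left -/
lemma SYM_R_comm' {T : ℕ → E} {q : A} {n : ℕ} (h : SYM_Rel T q n) (s : ℕ) (j : ℕ) (hj1 : 1 ≤ j)
    (hj : j ≤ s - 1) :
    ∀ (m : ℕ), s + m < n → SYM_R T s m * T j = T j * SYM_R T s m := by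
  intro m
  induction m with
  | zero => intro _; simp [SYM_R]
  | succ m ih =>
    intro h2
    have h3 := ih (by omega)
    have h4 := h.comm j (s + m + 1) hj1 (by omega) (by omega)
    simp only [SYM_R]
    rw [add_mul, mul_add, one_mul, mul_one, mul_assoc, h3, ← mul_assoc, ← h4, mul_assoc]

lemma SYM_X_comm' {T : ℕ → E} {q : A} {n : ℕ} (h : SYM_Rel T q n) (s : ℕ) (j : ℕ) (hj1 : 1 ≤ j)
    (hj : j ≤ s - 1) :
    ∀ (m : ℕ), s + m < n → SYM_X T s m * T j = T j * SYM_X T s m := by
  intro m
  induction m with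
  | zero => intro _; simp [SYM_X]
  | succ m ih =>
    intro h2
    have h3 := ih (by omega)
    have h4 := SYM_R_comm' h s j hj1 hj (m + 1) (by omega)
    simp only [SYM_X]
    rw [mul_assoc, h4, ← mul_assoc, h3, mul_assoc]

lemma SYM_R_mul {T : ℕ → E} {q : A} {n : ℕ} (h : SYM_Rel T q n) (s : ℕ) :
    ∀ (m : ℕ), s + m < n → ∀ i, 1 ≤ i → i ≤ m → ∃ a b c : E, SYM_R T s m = a + b + c ∧
      SYM_R T s m * T (s + i) = T (s + i) * a + T (s + (i - 1)) * b + q • c ∧
      (i = m → a = 0) ∧ (i = 1 → b = 0) := by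
  intro m
  induction m with
  | zero => intro _ i h1 h2; omega
  | succ m ih =>
    intro hm i h1 h2
    rcases Nat.lt_or_ge i (m + 1) with hi | hi
    · -- `i ≤ m`
      obtain ⟨a, b, c, e1, e2, e3, e4⟩ := ih (by omega) i h1 (by omega)
      have e5 : T (s + m + 1) * (T (s + (i - 1)) * b) = T (s + (i - 1)) * (T (s + m + 1) * b) := by
        rcases Nat.lt_or_ge 1 i with hi1 | hi1
        · have := h.comm (s + (i - 1)) (s + m + 1) (by omega) (by omega) (by omega)
          rw [← mul_assoc, ← this, mul_assoc]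
        · have hb := e4 (by omega)
          rw [hb]; simp
      have e6 : T (s + m + 1) * (T (s + i) * a) = T (s + i) * (T (s + m + 1) * a) := by
        rcases Nat.lt_or_ge i m with him | him
        · have := h.comm (s + i) (s + m + 1) (by omega) (by omega) (by omega)
          rw [← mul_assoc, ← this, mul_assoc]
        · have ha := e3 (by omega)
          rw [ha]; simp
      refine ⟨1 + T (s + m + 1) * a, T (s + m + 1) * b, T (s + m + 1) * c, ?_, ?_, ?_, ?_⟩
      · simp only [SYM_R]
        rw [e1, mul_add, mul_add]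
        abel
      · simp only [SYM_R]
        rw [add_mul, one_mul, mul_assoc, e2, mul_add, mul_add, e5, e6, mul_smul_comm, mul_add, mul_one]
        abel
      · intro h; omega
      · intro h
        rw [e4 h, mul_zero]
    · -- `i = m + 1`
      have hi' : i = m + 1 := by omega
      subst hi'
      have hq := h.quad (s + m + 1) (by omega) (by omega)
      have es : s + (m + 1) = s + m + 1 := by omega
      rcases Nat.eq_zero_or_pos m with h0 | h0
      · subst h0
        refine ⟨0, 0, 1 + T (s + 0 + 1), ?_, ?_, fun _ => rfl, fun _ => rfl⟩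
        · simp [SYM_R]
        · simp only [SYM_R, mul_one, mul_zero, zero_add]
          rw [show s + 1 = s + 0 + 1 from rfl, add_mul, one_mul, hq, sub_smul, one_smul, smul_add]
          abel
      · obtain ⟨k, rfl⟩ : ∃ k, m = k + 1 := ⟨m - 1, by omega⟩
        have hc := SYM_R_comm h s k (s + (k + 1) + 1) (by omega) (by omega)
        have hb := h.braid (s + k + 1) (by omega) (by omega)
        have es2 : s + (k + 1 + 1 - 1) = s + k + 1 := by omega
        have es3 : s + (k + 1) + 1 = s + k + 1 + 1 := by omega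
        refine ⟨0, T (s + (k + 1) + 1) * (T (s + k + 1) * SYM_R T s k), 1 + T (s + (k + 1) + 1), ?_, ?_,
          fun _ => rfl, fun h => by omega⟩
        · simp only [SYM_R]
          rw [mul_add, mul_one, zero_add]
          abel
        · rw [es2, es]
          simp only [SYM_R]
          have key : T (s + (k + 1) + 1) * (T (s + k + 1) * SYM_R T s k) * T (s + (k + 1) + 1) =
              T (s + k + 1) * (T (s + (k + 1) + 1) * (T (s + k + 1) * SYM_R T s k)) := by
            rw [mul_assoc, mul_assoc, hc, ← mul_assoc, ← mul_assoc, es3, ← hb]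
            simp only [mul_assoc]
          rw [mul_zero, zero_add, mul_add, mul_one, add_mul, one_mul, add_mul, key, hq, sub_smul,
            one_smul, smul_add]
          abel

/-- right absorption -/
lemma SYM_X_mul {T : ℕ → E} {q : A} {n : ℕ} (h : SYM_Rel T q n) (s : ℕ) :
    ∀ (m : ℕ), s + m < n → ∀ i, 1 ≤ i → i ≤ m → SYM_X T s m * T (s + i) = q • SYM_X T s m := by
  intro m
  induction m with
  | zero => intro _ i h1 h2; omega
  | succ m ih =>
    intro hm i h1 h2
    obtain ⟨a, b, c, e1, e2, e3, e4⟩ := SYM_R_mul h s (m + 1) hm i h1 h2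
    simp only [SYM_X]
    have f1 : SYM_X T s m * (T (s + i) * a) = q • (SYM_X T s m * a) := by
      rcases Nat.lt_or_ge i (m + 1) with hi | hi
      · rw [← mul_assoc, ih (by omega) i h1 (by omega), smul_mul_assoc]
      · rw [e3 (by omega)]; simp
    have f2 : SYM_X T s m * (T (s + (i - 1)) * b) = q • (SYM_X T s m * b) := by
      rcases Nat.lt_or_ge 1 i with hi | hi
      · rw [← mul_assoc, ih (by omega) (i - 1) (by omega) (by omega), smul_mul_assoc]
      · rw [e4 (by omega)]; simp
    rw [mul_assoc, e2, mul_add, mul_add, f1, f2, mul_smul_comm, e1, mul_add, mul_add, smul_add,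
      smul_add]

/-- product over the blocks -/
def SYM_P (T : ℕ → E) : List (ℕ × ℕ) → E
  | [] => 1
  | p :: L => SYM_X T p.1 p.2 * SYM_P T L

/-- the blocks of the list are separated and contained in `1, ..., n - 1` -/
def SYM_Sep (n : ℕ) : ℕ → List (ℕ × ℕ) → Prop
  | _, [] => True
  | k, p :: L => k ≤ p.1 ∧ p.1 + p.2 < n ∧ SYM_Sep n (p.1 + p.2 + 1) L

lemma SYM_P_comm {T : ℕ → E} {q : A} {n : ℕ} (h : SYM_Rel T q n) :
    ∀ (L : List (ℕ × ℕ)) (k : ℕ), SYM_Sep n k L → ∀ j, 1 ≤ j → j < k →
      SYM_P T L * T j = T j * SYM_P T L := by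
  intro L
  induction L with
  | nil => intro k _ j _ _; simp [SYM_P]
  | cons p L ih =>
    intro k hs j h1 h2
    obtain ⟨s1, s2, s3⟩ := hs
    have e1 := SYM_X_comm' h p.1 j h1 (by omega) p.2 s2
    have e2 := ih _ s3 j h1 (by omega)
    simp only [SYM_P]
    rw [mul_assoc, e2, ← mul_assoc, e1, mul_assoc]

lemma SYM_P_mul {T : ℕ → E} {q : A} {n : ℕ} (h : SYM_Rel T q n) :
    ∀ (L : List (ℕ × ℕ)) (k : ℕ), SYM_Sep n k L → ∀ p ∈ L, ∀ i, 1 ≤ i → i ≤ p.2 →
      SYM_P T L * T (p.1 + i) = q • SYM_P T L := by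
  intro L
  induction L with
  | nil => intro k _ p hp; simp at hp
  | cons p L ih =>
    intro k hs p' hp' i h1 h2
    obtain ⟨s1, s2, s3⟩ := hs
    simp only [SYM_P]
    rcases List.mem_cons.mp hp' with hp | hp
    · subst hp
      have e1 := SYM_P_comm h L _ s3 (p'.1 + i) (by omega) (by omega)
      rw [mul_assoc, e1, ← mul_assoc, SYM_X_mul h p'.1 p'.2 s2 i h1 h2, smul_mul_assoc]
    · rw [mul_assoc, ih _ s3 p' hp i h1 h2, mul_smul_comm]

section map
variable {E' : Type*} [Ring E'] [Algebra A E'] (f : E →ₐ[A] E')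

lemma SYM_R_map (T : ℕ → E) (s m : ℕ) : f (SYM_R T s m) = SYM_R (fun i => f (T i)) s m := by
  induction m with
  | zero => simp [SYM_R]
  | succ m ih => simp [SYM_R, ih]

lemma SYM_X_map (T : ℕ → E) (s m : ℕ) : f (SYM_X T s m) = SYM_X (fun i => f (T i)) s m := by
  induction m with
  | zero => simp [SYM_X]
  | succ m ih => simp [SYM_X, ih, SYM_R_map]

lemma SYM_P_map (T : ℕ → E) (L : List (ℕ × ℕ)) : f (SYM_P T L) = SYM_P (fun i => f (T i)) L := by
  induction L with
  | nil => simp [SYM_P]
  | cons p L ih => simp [SYM_P, ih, SYM_X_map]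

end map

end general

/-- the blocks of the rows of `κ` -/
def SYM_blocks : List (ℕ × ℕ) := [(0,6),(7,4),(12,3),(16,3),(20,3),(24,2),(27,2),(30,0),(31,0)]

lemma SYM_blocks_sep : SYM_Sep 32 0 SYM_blocks := by
  simp [SYM_blocks, SYM_Sep]

lemma SYM_rowIdx (i : ℕ) (hi : i ∈ rowIdx) : ∃ p ∈ SYM_blocks, ∃ j, 1 ≤ j ∧ j ≤ p.2 ∧ i = p.1 + j := by
  simp only [rowIdx, List.mem_cons, List.not_mem_nil, or_false] at hi
  rcases hi with rfl | rfl | rfl | rfl | rfl | rfl | rfl | rfl | rfl | rfl | rfl | rfl | rfl | rfl |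
    rfl | rfl | rfl | rfl | rfl | rfl | rfl | rfl | rfl
  · exact ⟨(0,6), by simp [SYM_blocks], 1, by norm_num, by norm_num, by norm_num⟩
  · exact ⟨(0,6), by simp [SYM_blocks], 2, by norm_num, by norm_num, by norm_num⟩
  · exact ⟨(0,6), by simp [SYM_blocks], 3, by norm_num, by norm_num, by norm_num⟩
  · exact ⟨(0,6), by simp [SYM_blocks], 4, by norm_num, by norm_num, by norm_num⟩
  · exact ⟨(0,6), by simp [SYM_blocks], 5, by norm_num, by norm_num, by norm_num⟩
  · exact ⟨(0,6), by simp [SYM_blocks], 6, by norm_num, by norm_num, by norm_num⟩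
  · exact ⟨(7,4), by simp [SYM_blocks], 1, by norm_num, by norm_num, by norm_num⟩
  · exact ⟨(7,4), by simp [SYM_blocks], 2, by norm_num, by norm_num, by norm_num⟩
  · exact ⟨(7,4), by simp [SYM_blocks], 3, by norm_num, by norm_num, by norm_num⟩
  · exact ⟨(7,4), by simp [SYM_blocks], 4, by norm_num, by norm_num, by norm_num⟩
  · exact ⟨(12,3), by simp [SYM_blocks], 1, by norm_num, by norm_num, by norm_num⟩
  · exact ⟨(12,3), by simp [SYM_blocks], 2, by norm_num, by norm_num, by norm_num⟩
  · exact ⟨(12,3), by simp [SYM_blocks], 3, by norm_num, by norm_num, by norm_num⟩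
  · exact ⟨(16,3), by simp [SYM_blocks], 1, by norm_num, by norm_num, by norm_num⟩
  · exact ⟨(16,3), by simp [SYM_blocks], 2, by norm_num, by norm_num, by norm_num⟩
  · exact ⟨(16,3), by simp [SYM_blocks], 3, by norm_num, by norm_num, by norm_num⟩
  · exact ⟨(20,3), by simp [SYM_blocks], 1, by norm_num, by norm_num, by norm_num⟩
  · exact ⟨(20,3), by simp [SYM_blocks], 2, by norm_num, by norm_num, by norm_num⟩
  · exact ⟨(20,3), by simp [SYM_blocks], 3, by norm_num, by norm_num, by norm_num⟩
  · exact ⟨(24,2), by simp [SYM_blocks], 1, by norm_num, by norm_num, by norm_num⟩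
  · exact ⟨(24,2), by simp [SYM_blocks], 2, by norm_num, by norm_num, by norm_num⟩
  · exact ⟨(27,2), by simp [SYM_blocks], 1, by norm_num, by norm_num, by norm_num⟩
  · exact ⟨(27,2), by simp [SYM_blocks], 2, by norm_num, by norm_num, by norm_num⟩

lemma SYM_blocks_mem (p : ℕ × ℕ) (hp : p ∈ SYM_blocks) (j : ℕ) (h1 : 1 ≤ j) (h2 : j ≤ p.2) :
    p.1 + j ∈ rowIdx ∧ 1 ≤ p.1 + j ∧ p.1 + j < 32 := by
  simp only [SYM_blocks, List.mem_cons, List.not_mem_nil, or_false] at hp
  simp only [rowIdx, List.mem_cons, List.not_mem_nil, or_false]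
  rcases hp with rfl | rfl | rfl | rfl | rfl | rfl | rfl | rfl | rfl
  all_goals simp only at h2 ⊢
  all_goals omega

section action
variable {A : Type*} [CommRing A] {X : Type*} [AddCommGroup X] [Module A X] {q : A}

lemma SYM_R_apply (T : ℕ → Module.End A X) (s : ℕ) (x : X) :
    ∀ m, (∀ j, 1 ≤ j → j ≤ m → T (s + j) x = q • x) →
      SYM_R T s m x = (((List.range (m + 1)).map (fun i => q ^ i)).sum) • x := by
  intro m
  induction m with
  | zero => intro _; simp [SYM_R]
  | succ m ih =>
    intro h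
    have h1 := ih (fun j h1 h2 => h j h1 (by omega))
    have h2 := h (m + 1) (by omega) (by omega)
    have key : ((List.range (m + 1 + 1)).map (fun i => q ^ i)).sum =
        1 + ((List.range (m + 1)).map (fun i => q ^ i)).sum * q := by
      rw [List.sum_range_succ', pow_zero, ← List.sum_map_mul_right]
      simp only [Nat.succ_eq_add_one, pow_succ]
    simp only [SYM_R]
    rw [LinearMap.add_apply, Module.End.mul_apply, Module.End.one_apply, h1, map_smul,
      show s + m + 1 = s + (m + 1) by omega, h2, smul_smul, key, add_smul, one_smul]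

lemma SYM_X_apply (T : ℕ → Module.End A X) (s : ℕ) (x : X) :
    ∀ m, (∀ j, 1 ≤ j → j ≤ m → T (s + j) x = q • x) →
      SYM_X T s m x = (((List.range (m + 1)).map
        (fun j => ((List.range (j + 1)).map (fun i => q ^ i)).sum)).prod) • x := by
  intro m
  induction m with
  | zero => intro _; simp [SYM_X]
  | succ m ih =>
    intro h
    have h1 := ih (fun j h1 h2 => h j h1 (by omega))
    have h2 := SYM_R_apply (q := q) T s x (m + 1) h
    simp only [SYM_X]
    rw [Module.End.mul_apply, h2, map_smul, h1, smul_smul, List.prod_range_succ _ (m + 1), mul_comm]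

lemma SYM_P_apply (T : ℕ → Module.End A X) (x : X) :
    ∀ L : List (ℕ × ℕ), (∀ p ∈ L, ∀ j, 1 ≤ j → j ≤ p.2 → T (p.1 + j) x = q • x) →
      SYM_P T L x = ((L.map (fun p => ((List.range (p.2 + 1)).map
        (fun j => ((List.range (j + 1)).map (fun i => q ^ i)).sum)).prod)).prod) • x := by
  intro L
  induction L with
  | nil => intro _; simp [SYM_P]
  | cons p L ih =>
    intro h
    have h1 := ih (fun p' hp' => h p' (List.mem_cons_of_mem _ hp'))
    have h2 := SYM_X_apply (q := q) T p.1 x p.2 (h p (List.mem_cons_self ..))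
    simp only [SYM_P]
    rw [Module.End.mul_apply, h1, map_smul, h2, smul_smul, List.map_cons, List.prod_cons, mul_comm]

lemma SYM_rel_of_HSys {n : ℕ} (H : HSys A X q n) : SYM_Rel (A := A) H.T q n where
  quad i h1 h2 := by
    ext x
    rw [Module.End.mul_apply, H.quad i h1 h2 x]
    simp
  braid i h1 h2 := by
    ext x
    simp only [Module.End.mul_apply]
    exact H.braid i h1 h2 x
  comm i j h1 h2 h3 := by
    ext x
    simp only [Module.End.mul_apply]
    exact H.comm i j h1 h2 h3 x

end action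

/-- the symmetrizer in the free algebra -/
noncomputable def SYM_g' (A : Type*) [CommRing A] : FreeAlgebra A ℕ :=
  SYM_P (FreeAlgebra.ι A) SYM_blocks

lemma SYM_R_mem (A : Type*) [CommRing A] (n s : ℕ) :
    ∀ m, s + m < n → SYM_R (FreeAlgebra.ι A) s m ∈ HAlg A n := by
  intro m
  induction m with
  | zero => intro _; exact one_mem _
  | succ m ih =>
    intro h
    refine add_mem (one_mem _) (mul_mem (Algebra.subset_adjoin ⟨s + m + 1, ⟨by omega, by omega⟩, rfl⟩)
      (ih (by omega)))

lemma SYM_X_mem (A : Type*) [CommRing A] (n s : ℕ) :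
    ∀ m, s + m < n → SYM_X (FreeAlgebra.ι A) s m ∈ HAlg A n := by
  intro m
  induction m with
  | zero => intro _; exact one_mem _
  | succ m ih =>
    intro h
    exact mul_mem (ih (by omega)) (SYM_R_mem A n s (m + 1) h)

lemma SYM_P_mem (A : Type*) [CommRing A] (n : ℕ) :
    ∀ (L : List (ℕ × ℕ)) (k : ℕ), SYM_Sep n k L → SYM_P (FreeAlgebra.ι A) L ∈ HAlg A n := by
  intro L
  induction L with
  | nil => intro _ _; exact one_mem _
  | cons p L ih =>
    intro k hs
    obtain ⟨s1, s2, s3⟩ := hs
    exact mul_mem (SYM_X_mem A n p.1 p.2 s2) (ih _ s3)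

lemma SYM_star_mem (A : Type*) [CommRing A] (n : ℕ) (g : FreeAlgebra A ℕ) (hg : g ∈ HAlg A n) :
    star g ∈ HAlg A n := by
  unfold HAlg at hg ⊢
  induction hg using Algebra.adjoin_induction with
  | mem x hx =>
    obtain ⟨i, hi, rfl⟩ := hx
    rw [FreeAlgebra.star_ι]
    exact Algebra.subset_adjoin ⟨i, hi, rfl⟩
  | algebraMap r =>
    rw [FreeAlgebra.star_algebraMap]
    exact Subalgebra.algebraMap_mem _ r
  | add x y _ _ hx hy => rw [star_add]; exact add_mem hx hy
  | mul x y _ _ hx hy => rw [star_mul]; exact mul_mem hy hx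

/-- `star` gives the adjoint operator -/
lemma SYM_adjoint {A : Type*} [CommRing A] {X Y : Type*} [AddCommGroup X] [Module A X]
    [AddCommGroup Y] [Module A Y] (n : ℕ) (T : ℕ → Module.End A X) (b : X →ₗ[A] X →ₗ[A] Y)
    (hb : ∀ i, 1 ≤ i → i < n → ∀ u v, b (T i u) v = b u (T i v))
    (g : FreeAlgebra A ℕ) (hg : g ∈ HAlg A n) :
    ∀ u v, b (act T g u) v = b u (act T (star g) v) := by
  unfold HAlg at hg
  induction hg using Algebra.adjoin_induction with
  | mem x hx =>
    obtain ⟨i, hi, rfl⟩ := hx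
    intro u v
    rw [FreeAlgebra.star_ι]
    unfold act
    rw [FreeAlgebra.lift_ι_apply]
    exact hb i hi.1 hi.2 u v
  | algebraMap r =>
    intro u v
    rw [FreeAlgebra.star_algebraMap]
    unfold act
    rw [AlgHom.commutes, Module.algebraMap_end_apply, Module.algebraMap_end_apply, map_smul, map_smul,
      LinearMap.smul_apply]
  | add x y _ _ hx hy =>
    intro u v
    rw [star_add, map_add, map_add, LinearMap.add_apply, LinearMap.add_apply, map_add, map_add,
      LinearMap.add_apply, hx, hy]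
  | mul x y _ _ hx hy =>
    intro u v
    rw [star_mul, map_mul, map_mul, Module.End.mul_apply, Module.End.mul_apply, hx, hy]

/-- acting through the opposite algebra -/
lemma SYM_act_star {A : Type*} [CommRing A] {X : Type*} [AddCommGroup X] [Module A X]
    (T : ℕ → Module.End A X) (g : FreeAlgebra A ℕ) :
    MulOpposite.op (act T (star g)) =
      FreeAlgebra.lift A (fun i => MulOpposite.op (T i)) g := by
  induction g using FreeAlgebra.induction with
  | grade0 r =>
    rw [FreeAlgebra.star_algebraMap]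
    unfold act
    rw [AlgHom.commutes, AlgHom.commutes]
    rfl
  | grade1 i =>
    rw [FreeAlgebra.star_ι]
    unfold act
    rw [FreeAlgebra.lift_ι_apply, FreeAlgebra.lift_ι_apply]
  | mul x y hx hy =>
    rw [star_mul, map_mul, MulOpposite.op_mul, hx, hy, map_mul]
  | add x y hx hy =>
    rw [star_add, map_add, MulOpposite.op_add, hx, hy, map_add]

/-- the row symmetrizer `g` and its adjoint `g'` -/
theorem SYM_exists (A : Type) [CommRing A] (q : A) :
    ∃ g ∈ HAlg A 32, ∃ g' ∈ HAlg A 32,
      (∀ {X : Type} [AddCommGroup X] [Module A X] (H : HSys A X q 32),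
        (∀ i ∈ rowIdx, ∀ x, H.T i (act H.T g x) = q • act H.T g x) ∧
        (∀ x, (∀ i ∈ rowIdx, H.T i x = q • x) → act H.T g' x = poinc q • x)) ∧
      (∀ {X Y : Type} [AddCommGroup X] [Module A X] [AddCommGroup Y] [Module A Y] (T : ℕ → Module.End A X)
          (b : X →ₗ[A] X →ₗ[A] Y),
          (∀ i, 1 ≤ i → i < 32 → ∀ u v, b (T i u) v = b u (T i v)) →
            ∀ u v, b (act T g u) v = b u (act T g' v)) := by
  have hmem : SYM_g' A ∈ HAlg A 32 := SYM_P_mem A 32 SYM_blocks 0 SYM_blocks_sep
  refine ⟨star (SYM_g' A), SYM_star_mem A 32 _ hmem, SYM_g' A, hmem, ?_, ?_⟩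
  · intro X _ _ H
    refine ⟨?_, ?_⟩
    · intro i hi x
      obtain ⟨p, hp, j, h1, h2, rfl⟩ := SYM_rowIdx i hi
      have hrel := SYM_rel_of_HSys H
      have hop : SYM_Rel (A := A) (fun i => MulOpposite.op (H.T i)) q 32 := by
        refine ⟨?_, ?_, ?_⟩
        · intro i h1 h2
          rw [← MulOpposite.op_mul, hrel.quad i h1 h2, MulOpposite.op_add, MulOpposite.op_smul,
            MulOpposite.op_smul, MulOpposite.op_one]
        · intro i h1 h2
          rw [← MulOpposite.op_mul, ← MulOpposite.op_mul, ← MulOpposite.op_mul, ← MulOpposite.op_mul,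
            ← mul_assoc, ← mul_assoc, hrel.braid i h1 h2]
        · intro i j h1 h2 h3
          rw [← MulOpposite.op_mul, ← MulOpposite.op_mul, hrel.comm i j h1 h2 h3]
      have hk := SYM_P_mul hop SYM_blocks 0 SYM_blocks_sep p hp j h1 h2
      have hact : MulOpposite.op (act H.T (star (SYM_g' A))) =
          SYM_P (fun i => MulOpposite.op (H.T i)) SYM_blocks := by
        rw [SYM_act_star, SYM_g', SYM_P_map]
        congr 1
        funext i
        rw [FreeAlgebra.lift_ι_apply]
      rw [← hact, ← MulOpposite.op_mul, ← MulOpposite.op_smul] at hk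
      have hk2 := MulOpposite.op_injective hk
      have hk3 := LinearMap.congr_fun hk2 x
      rw [Module.End.mul_apply, LinearMap.smul_apply] at hk3
      exact hk3
    · intro x hx
      have h1 : act H.T (SYM_g' A) = SYM_P H.T SYM_blocks := by
        unfold act
        rw [SYM_g', SYM_P_map]
        congr 1
        funext i
        rw [FreeAlgebra.lift_ι_apply]
      rw [h1, SYM_P_apply (q := q) H.T x SYM_blocks (fun p hp j h1 h2 =>
        hx _ (SYM_blocks_mem p hp j h1 h2).1)]
      rfl
  · intro X Y _ _ _ _ T b hb u v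
    have := SYM_adjoint 32 T b hb (star (SYM_g' A)) (SYM_star_mem A 32 _ hmem) u v
    rw [star_star] at this
    exact this

end J3
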