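import Pool.Agent.J3.REL
import Pool.Agent.J3.FORM
import Pool.Agent.J3.CONN
import Pool.Agent.J3.PAIR
import Pool.Agent.J3.SYM
import Pool.Agent.J3.LEAD

/-!
# J3, module INT: integrality of the form on `H z × H z'`, and the rank one operator
(MP_36c429_al). Mathematics: helper99; formalisation: helper48.
-/

set_option autoImplicit false

namespace J3

open Finsupp

/-! ### General facts on orbits -/

section gen

variable {A : Type*} [CommRing A] {X : Type*} [AddCommGroup X] [Module A X]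

theorem INT_mem_orb (T : ℕ → Module.End A X) (n : ℕ) (v : X) : v ∈ orb T n v := by
  unfold orb
  rw [Submodule.mem_sInf]
  exact fun P hP => hP.1

theorem INT_orb_stable (T : ℕ → Module.End A X) (n : ℕ) (v : X) {i : ℕ} (h1 : 1 ≤ i) (h2 : i < n)
    {x : X} (hx : x ∈ orb T n v) : T i x ∈ orb T n v := by
  unfold orb at hx ⊢
  rw [Submodule.mem_sInf] at hx ⊢
  exact fun P hP => hP.2 i h1 h2 x (hx P hP)

theorem INT_orb_le {T : ℕ → Module.End A X} {n : ℕ} {v : X} {P : Submodule A X} (hv : v ∈ P)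
    (h : ∀ i, 1 ≤ i → i < n → ∀ x ∈ P, T i x ∈ P) : orb T n v ≤ P :=
  sInf_le ⟨hv, h⟩

theorem INT_wact_mem {T : ℕ → Module.End A X} {n : ℕ} {P : Submodule A X}
    (h : ∀ i, 1 ≤ i → i < n → ∀ x ∈ P, T i x ∈ P) (w : List ℕ) (hw : ∀ r ∈ w, 1 ≤ r ∧ r < n)
    {x : X} (hx : x ∈ P) : wact T w x ∈ P := by
  induction w with
  | nil => simpa [wact] using hx
  | cons r w ih =>
    have h1 := ih (fun r hr => hw r (List.mem_cons_of_mem _ hr))
    have h2 : wact T (r :: w) x = T r (wact T w x) := by simp [wact]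
    rw [h2]
    exact h r (hw r List.mem_cons_self).1 (hw r List.mem_cons_self).2 _ h1

theorem INT_act_mem {T : ℕ → Module.End A X} {n : ℕ} {P : Submodule A X}
    (h : ∀ i, 1 ≤ i → i < n → ∀ x ∈ P, T i x ∈ P) {g : FreeAlgebra A ℕ} (hg : g ∈ HAlg A n)
    {x : X} (hx : x ∈ P) : act T g x ∈ P := by
  unfold HAlg at hg
  induction hg using Algebra.adjoin_induction generalizing x with
  | mem y hy =>
    obtain ⟨i, ⟨h1, h2⟩, rfl⟩ := hy
    have : act T (FreeAlgebra.ι A i) = T i := by simp [act]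
    rw [this]
    exact h i h1 h2 x hx
  | algebraMap r =>
    rw [AlgHom.commutes, Module.algebraMap_end_apply]
    exact P.smul_mem r hx
  | add a b _ _ iha ihb =>
    rw [map_add, LinearMap.add_apply]
    exact P.add_mem (iha hx) (ihb hx)
  | mul a b _ _ iha ihb =>
    rw [map_mul, Module.End.mul_apply]
    exact iha (ihb hx)

variable {X' : Type*} [AddCommGroup X'] [Module A X']

theorem INT_wact_map {T : ℕ → Module.End A X} {T' : ℕ → Module.End A X'} {n : ℕ} (f : X →ₗ[A] X')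
    (h : ∀ i, 1 ≤ i → i < n → ∀ x, f (T i x) = T' i (f x)) (w : List ℕ)
    (hw : ∀ r ∈ w, 1 ≤ r ∧ r < n) (x : X) : f (wact T w x) = wact T' w (f x) := by
  induction w with
  | nil => simp [wact]
  | cons r w ih =>
    have h1 := ih (fun r hr => hw r (List.mem_cons_of_mem _ hr))
    have h2 : wact T (r :: w) x = T r (wact T w x) := by simp [wact]
    have h3 : wact T' (r :: w) (f x) = T' r (wact T' w (f x)) := by simp [wact]
    rw [h2, h3, h r (hw r List.mem_cons_self).1 (hw r List.mem_cons_self).2, h1]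

theorem INT_act_map {T : ℕ → Module.End A X} {T' : ℕ → Module.End A X'} {n : ℕ} (f : X →ₗ[A] X')
    (h : ∀ i, 1 ≤ i → i < n → ∀ x, f (T i x) = T' i (f x)) {g : FreeAlgebra A ℕ}
    (hg : g ∈ HAlg A n) (x : X) : f (act T g x) = act T' g (f x) := by
  unfold HAlg at hg
  induction hg using Algebra.adjoin_induction generalizing x with
  | mem y hy =>
    obtain ⟨i, ⟨h1, h2⟩, rfl⟩ := hy
    have e : act T (FreeAlgebra.ι A i) = T i := by simp [act]
    have e' : act T' (FreeAlgebra.ι A i) = T' i := by simp [act]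
    rw [e, e']
    exact h i h1 h2 x
  | algebraMap r =>
    rw [AlgHom.commutes, AlgHom.commutes, Module.algebraMap_end_apply,
      Module.algebraMap_end_apply, map_smul]
  | add a b _ _ iha ihb =>
    rw [map_add, map_add, LinearMap.add_apply, LinearMap.add_apply, map_add, iha, ihb]
  | mul a b _ _ iha ihb =>
    rw [map_mul, map_mul, Module.End.mul_apply, Module.End.mul_apply, iha, ihb]

theorem INT_orb_map {T : ℕ → Module.End A X} {T' : ℕ → Module.End A X'} {n : ℕ} (f : X →ₗ[A] X')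
    (h : ∀ i, 1 ≤ i → i < n → ∀ x, f (T i x) = T' i (f x)) (v : X) {y : X'}
    (hy : y ∈ orb T' n (f v)) : ∃ x ∈ orb T n v, f x = y := by
  have : orb T' n (f v) ≤ (orb T n v).map f := by
    refine INT_orb_le ⟨v, INT_mem_orb _ _ _, rfl⟩ ?_
    rintro i h1 h2 _ ⟨x, hx, rfl⟩
    exact ⟨T i x, INT_orb_stable _ _ _ h1 h2 hx, h i h1 h2 x⟩
  exact this hy

theorem INT_orb_map' {T : ℕ → Module.End A X} {T' : ℕ → Module.End A X'} {n : ℕ} (f : X →ₗ[A] X')
    (h : ∀ i, 1 ≤ i → i < n → ∀ x, f (T i x) = T' i (f x)) (v : X) {x : X}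
    (hx : x ∈ orb T n v) : f x ∈ orb T' n (f v) := by
  have : orb T n v ≤ (orb T' n (f v)).comap f := by
    refine INT_orb_le (INT_mem_orb _ _ _) ?_
    intro i h1 h2 x hx
    rw [Submodule.mem_comap] at hx ⊢
    rw [h i h1 h2]
    exact INT_orb_stable _ _ _ h1 h2 hx
  exact this hx

end gen

/-! ### Combinatorial data -/

instance INT_decStd : (l : List ℤ) → Decidable (IsStd l)
  | [] => isTrue trivial
  | c :: l => by
    unfold IsStd
    have := INT_decStd l
    infer_instance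

theorem INT_row_InK : InK rowL := ⟨by decide +kernel, List.Perm.refl _⟩

theorem INT_col_InK : InK colL := ⟨by decide +kernel, by decide +kernel⟩

theorem INT_rowIdx : ∀ i ∈ rowIdx, 1 ≤ i ∧ i < 32 := by decide
theorem INT_colIdx : ∀ i ∈ colIdx, 1 ≤ i ∧ i < 32 := by decide
theorem INT_wRC : ∀ r ∈ wRC, 1 ≤ r ∧ r < 32 := by decide +kernel
theorem INT_wCR : ∀ r ∈ wCR, 1 ≤ r ∧ r < 32 := by decide +kernel

/-! ### The abstract argument -/

section abs

variable {A K V : Type} [CommRing A] [CommRing K] [Algebra A K] [AddCommGroup V] [Module A V]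
    [Module K V] [IsScalarTower A K V]

/-- the hypotheses of the abstract argument -/
structure INT_Hyp {q : A} (H : HSys A V q 32) (b : V →ₗ[K] V →ₗ[K] K) (z z' : V) : Prop where
  hq : IsUnit q
  h1q : IsUnit (1 + q)
  symm : ∀ u v, b u v = b v u
  adj : ∀ i, 1 ≤ i → i < 32 → ∀ u v, b (H.T i u) v = b u (H.T i v)
  row : ∀ i ∈ rowIdx, H.T i z = q • z
  col : ∀ i ∈ colIdx, H.T i z' = -z'
  total : ∀ v, (∀ x ∈ orb H.T 32 z', b v x = 0) → v = 0
  rc : ∃ u : Aˣ, b (wact H.T wRC z) z' = algebraMap A K u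
  cr : ∃ u : Aˣ, b (wact H.T wCR z') z = algebraMap A K u
  zz : ∃ (τ : Kˣ) (u u' : Aˣ), b z z = τ * algebraMap A K u ∧
    algebraMap A K (poinc q) = τ * algebraMap A K u'

theorem INT_cancel {q : A} (h : IsUnit (1 + q)) (Y : Type) [AddCommGroup Y] [Module A Y] (y : Y)
    (hy : (1 + q) • y = 0) : y = 0 := by
  obtain ⟨u, hu⟩ := h
  rw [← hu] at hy
  have h2 : ((u⁻¹ : Aˣ) : A) • ((u : A) • y) = 0 := by rw [hy, smul_zero]
  rwa [smul_smul, Units.inv_mul, one_smul] at h2

/-- the form with values in the `A`-module `K` -/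
noncomputable def INT_bA (b : V →ₗ[K] V →ₗ[K] K) : V →ₗ[A] V →ₗ[A] K :=
  LinearMap.mk₂ A (fun u v => b u v)
    (fun u u' v => by rw [map_add, LinearMap.add_apply])
    (fun c u v => by
      rw [← algebraMap_smul K c u, map_smul, LinearMap.smul_apply, algebraMap_smul])
    (fun u v v' => by rw [map_add])
    (fun c u v => by rw [← algebraMap_smul K c v, map_smul, algebraMap_smul])

theorem INT_bA_apply (b : V →ₗ[K] V →ₗ[K] K) (u v : V) : (INT_bA b : V →ₗ[A] V →ₗ[A] K) u v = b u v :=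
  rfl

variable {q : A} {H : HSys A V q 32} {b : V →ₗ[K] V →ₗ[K] K} {z z' : V}

theorem INT_Hyp.R1 (h : INT_Hyp H b z z') : ∀ x ∈ orb H.T 32 z, ∀ y ∈ orb H.T 32 z',
    ∃ a : A, b x y = algebraMap A K a := by
  -- the values in the image of `A`
  let I : Submodule A K := LinearMap.range (Algebra.linearMap A K)
  have hI : ∀ k : K, k ∈ I → ∃ a : A, k = algebraMap A K a := by
    rintro k ⟨a, rfl⟩
    exact ⟨a, rfl⟩
  have key : ∀ x ∈ orb H.T 32 z, b x z' ∈ I := by
    intro x hx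
    obtain ⟨a, ha⟩ := PAIR_row H h.hq (INT_cancel h.h1q K) z h.row
      ((INT_bA b).flip z') (fun i hi x => by
        obtain ⟨h1, h2⟩ := INT_colIdx i hi
        show b (H.T i x) z' = - b x z'
        rw [h.adj i h1 h2, h.col i hi, map_neg])
      x hx
    obtain ⟨u, hu⟩ := h.rc
    have ha' : b x z' = a • b (wact H.T wRC z) z' := ha
    rw [ha', hu]
    refine ⟨a * u, ?_⟩
    rw [Algebra.linearMap_apply, map_mul, Algebra.smul_def]
  let P : Submodule A V :=
      { carrier := {y | ∀ x ∈ orb H.T 32 z, b x y ∈ I}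
        add_mem' := fun {a b} ha hb x hx => by
          rw [map_add]
          exact I.add_mem (ha x hx) (hb x hx)
        zero_mem' := fun x _ => by
          rw [map_zero]
          exact I.zero_mem
        smul_mem' := fun c a ha x hx => by
          rw [← algebraMap_smul K c a, map_smul, algebraMap_smul]
          exact I.smul_mem c (ha x hx) }
  have key2 : orb H.T 32 z' ≤ P := by
    refine INT_orb_le key ?_
    intro i h1 h2 y hy x hx
    rw [← h.adj i h1 h2]
    exact hy _ (INT_orb_stable _ _ _ h1 h2 hx)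
  intro x hx y hy
  exact hI _ (key2 hy x hx)

/-- The vectors with `T_i v = q v` for all row indices are multiples of `z`. -/
theorem INT_Hyp.line (h : INT_Hyp H b z z') (v : V) (hv : ∀ i ∈ rowIdx, H.T i v = q • v) :
    ∃ c : K, v = c • z := by
  obtain ⟨u, hu⟩ := h.cr
  set β : K := b (wact H.T wCR z') v with hβ
  let c : K := β * algebraMap A K ((u⁻¹ : Aˣ) : A)
  have hsm : ∀ x y : V, b x (q • y) = q • b x y := fun x y => by
    rw [← algebraMap_smul K q y, map_smul, algebraMap_smul]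
  have key : ∀ x ∈ orb H.T 32 z', b x v = c * b x z := by
    intro x hx
    obtain ⟨a, ha⟩ := PAIR_col H h.hq (INT_cancel h.h1q (K × K)) z' h.col
      (((INT_bA b).flip v).prod ((INT_bA b).flip z)) (fun i hi x => by
        obtain ⟨h1, h2⟩ := INT_rowIdx i hi
        refine Prod.ext ?_ ?_
        · show b (H.T i x) v = q • b x v
          rw [h.adj i h1 h2, hv i hi, hsm]
        · show b (H.T i x) z = q • b x z
          rw [h.adj i h1 h2, h.row i hi, hsm])
      x hx
    have ha1 : b x v = a • b (wact H.T wCR z') v := congrArg Prod.fst ha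
    have ha2 : b x z = a • b (wact H.T wCR z') z := congrArg Prod.snd ha
    rw [ha1, ha2, hu, ← hβ, Algebra.smul_def, Algebra.smul_def]
    have e : algebraMap A K ((u⁻¹ : Aˣ) : A) * algebraMap A K (u : A) = 1 := by
      rw [← map_mul, Units.inv_mul, map_one]
    show _ = β * algebraMap A K ((u⁻¹ : Aˣ) : A) * (algebraMap A K a * algebraMap A K (u : A))
    linear_combination (-(algebraMap A K a * β)) * e
  refine ⟨c, ?_⟩
  have h0 : v - c • z = 0 := by
    refine h.total _ ?_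
    intro x hx
    rw [h.symm, map_sub, map_smul, smul_eq_mul, sub_eq_zero]
    exact key x hx
  exact sub_eq_zero.1 h0

theorem INT_Hyp.R3 (h : INT_Hyp H b z z') : ∃ g ∈ HAlg A 32, ∃ u : Aˣ, ∀ v : V,
    act H.T g v = (algebraMap A K u * b v z) • z := by
  obtain ⟨g, hg, g', hg', hsym, hadj⟩ := SYM_exists A q
  obtain ⟨τ, u2, u1, hu2, hu1⟩ := h.zz
  refine ⟨g, hg, u1 * u2⁻¹, fun v => ?_⟩
  obtain ⟨c, hc⟩ := h.line (act H.T g v) (fun i hi => (hsym H).1 i hi v)
  have e2 : b (act H.T g v) z = poinc q • b v z := by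
    have h1 := hadj H.T (INT_bA b : V →ₗ[A] V →ₗ[A] K) (fun i h1 h2 u v => h.adj i h1 h2 u v) v z
    have h2 : b (act H.T g v) z = b v (act H.T g' z) := h1
    rw [h2, (hsym H).2 z h.row, ← algebraMap_smul K (poinc q) z, map_smul, algebraMap_smul]
  have e3 : c * b z z = algebraMap A K (poinc q) * b v z := by
    have h1 : b (act H.T g v) z = c * b z z := by
      rw [hc, map_smul, LinearMap.smul_apply, smul_eq_mul]
    rw [← h1, e2, Algebra.smul_def]
  have e4 : c = algebraMap A K ((u1 * u2⁻¹ : Aˣ) : A) * b v z := by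
    rw [hu1, hu2] at e3
    have e5 : algebraMap A K ((u2⁻¹ : Aˣ) : A) * algebraMap A K (u2 : A) = 1 := by
      rw [← map_mul, Units.inv_mul, map_one]
    have e6 : (τ : K) * (c * algebraMap A K (u2 : A)) =
        (τ : K) * (algebraMap A K (u1 : A) * b v z) := by
      linear_combination e3
    have e7 := τ.isUnit.mul_left_cancel e6
    rw [Units.val_mul, map_mul]
    linear_combination (algebraMap A K ((u2⁻¹ : Aˣ) : A)) * e7 - c * e5
  rw [hc, e4]

theorem INT_Hyp.R2 (h : INT_Hyp H b z z') : z ∈ orb H.T 32 z' := by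
  obtain ⟨g, hg, u, hgu⟩ := h.R3
  obtain ⟨u0, hu0⟩ := h.cr
  have hstab : ∀ i, 1 ≤ i → i < 32 → ∀ x ∈ orb H.T 32 z', H.T i x ∈ orb H.T 32 z' :=
    fun i h1 h2 x hx => INT_orb_stable _ _ _ h1 h2 hx
  have hO : wact H.T wCR z' ∈ orb H.T 32 z' :=
    INT_wact_mem hstab wCR INT_wCR (INT_mem_orb _ _ _)
  have h1 : act H.T g (wact H.T wCR z') ∈ orb H.T 32 z' := INT_act_mem hstab hg hO
  rw [hgu, hu0, ← map_mul, algebraMap_smul] at h1
  have h2 := (orb H.T 32 z').smul_mem (((u * u0)⁻¹ : Aˣ) : A) h1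
  rw [smul_smul, ← Units.val_mul, ← Units.val_mul, inv_mul_cancel, Units.val_one, one_smul] at h2
  exact h2

end abs

/-! ### The transfer -/

section

variable {O A K : Type} [CommRing O] [IsDomain O] [CommRing A] [IsDomain A]
    [CommRing K] [IsDomain K] [Algebra A K] (s : Setup O A K)

theorem INT_z_mem : s.z ∈ s.VK := by
  unfold Setup.z Setup.VK
  exact Finsupp.single_mem_supported K _ INT_row_InK

theorem INT_z'_mem : s.z' ∈ s.VK := by
  unfold Setup.z' Setup.VK
  exact Finsupp.single_mem_supported K _ INT_col_InK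

theorem INT_one_add_q : IsUnit (1 + s.q) := by
  apply s.isUnit_of_ev
  have h : s.ev (1 + s.q) = 1 + s.zeta := by simp [Setup.q, s.ev_cst, s.ev_t]
  rw [h]
  refine IsUnit.of_mul_eq_one (-s.zeta) ?_
  linear_combination (-1 : O) * s.hzeta

/-- the inclusion of `V`, as an `A`-linear map -/
noncomputable def INT_i : s.VK →ₗ[A] (List ℤ →₀ K) := s.VK.subtype.restrictScalars A

/-- the form on `V` -/
noncomputable def INT_bV : s.VK →ₗ[K] s.VK →ₗ[K] K := s.B.compl₁₂ s.VK.subtype s.VK.subtype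

theorem INT_TA_wact (w : List ℕ) (x : List ℤ →₀ K) : wact s.TA w x = wact s.T w x := by
  induction w with
  | nil => simp [wact]
  | cons r w ih =>
    have e1 : wact s.TA (r :: w) x = s.TA r (wact s.TA w x) := by simp [wact]
    have e2 : wact s.T (r :: w) x = s.T r (wact s.T w x) := by simp [wact]
    rw [e1, e2, ih]
    rfl

/-- `V` as an abstract Hecke system with a form. -/
theorem INT_abs : ∃ (V : Type) (_ : AddCommGroup V) (_ : Module A V) (_ : Module K V)
    (_ : IsScalarTower A K V) (H : HSys A V s.q 32) (ι : V →ₗ[A] (List ℤ →₀ K))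
    (b : V →ₗ[K] V →ₗ[K] K),
    (∀ i, 1 ≤ i → i < 32 → ∀ v, ι (H.T i v) = s.TA i (ι v)) ∧
    (∀ u v, b u v = s.B (ι u) (ι v)) ∧ Function.Injective ι ∧
    (∀ (c : K) v, ι (c • v) = c • ι v) ∧ (∀ v, ι v ∈ s.VK) ∧ ∀ x ∈ s.VK, ∃ v, ι v = x := by
  obtain ⟨H, hH⟩ := REL_sys s
  exact ⟨s.VK, inferInstance, inferInstance, inferInstance, inferInstance, H, INT_i s, INT_bV s,
    fun i h1 h2 v => hH i h1 h2 v, fun _ _ => rfl, Subtype.val_injective, fun _ _ => rfl,
    fun v => v.2, fun x hx => ⟨⟨x, hx⟩, rfl⟩⟩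

theorem INT_hyp {V : Type} [AddCommGroup V] [Module A V] [Module K V] [IsScalarTower A K V]
    (H : HSys A V s.q 32) (ι : V →ₗ[A] (List ℤ →₀ K)) (b : V →ₗ[K] V →ₗ[K] K)
    (hH : ∀ i, 1 ≤ i → i < 32 → ∀ v, ι (H.T i v) = s.TA i (ι v))
    (hb : ∀ u v, b u v = s.B (ι u) (ι v)) (hinj : Function.Injective ι)
    (hV : ∀ v, ι v ∈ s.VK) (z z' : V) (hz : ι z = s.z) (hz' : ι z' = s.z') :
    INT_Hyp H b z z' := by
  have hiw : ∀ (w : List ℕ), (∀ r ∈ w, 1 ≤ r ∧ r < 32) → ∀ v : V,
      ι (wact H.T w v) = wact s.T w (ι v) := by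
    intro w hw v
    rw [← INT_TA_wact]
    exact INT_wact_map ι hH w hw v
  refine
    { hq := s.q_isUnit
      h1q := INT_one_add_q s
      symm := fun u v => by rw [hb, hb, FORM_symm]
      adj := fun i h1 h2 u v => by
        rw [hb, hb, hH i h1 h2, hH i h1 h2]
        exact FORM_T s i h1 h2 _ _ (hV u) (hV v)
      row := fun i hi => by
        obtain ⟨h1, h2⟩ := INT_rowIdx i hi
        apply hinj
        rw [hH i h1 h2, ι.map_smul, hz, ← algebraMap_smul K s.q s.z]
        exact REL_row s i hi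
      col := fun i hi => by
        obtain ⟨h1, h2⟩ := INT_colIdx i hi
        apply hinj
        rw [hH i h1 h2, ι.map_neg, hz']
        exact REL_col s i hi
      total := fun v hv => by
        apply hinj
        rw [ι.map_zero]
        refine CONN_total s _ (hV v) fun x hx => ?_
        rw [← hz'] at hx
        obtain ⟨x1, hx1, rfl⟩ := INT_orb_map ι hH z' hx
        rw [← hb]
        exact hv x1 hx1
      rc := by
        obtain ⟨u, hu⟩ := LEAD_RC s
        refine ⟨u, ?_⟩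
        rw [hb, hiw wRC INT_wRC, hz, hz']
        exact hu
      cr := by
        obtain ⟨u, hu⟩ := LEAD_CR s
        refine ⟨u, ?_⟩
        rw [hb, hiw wCR INT_wCR, hz, hz']
        exact hu
      zz := by
        obtain ⟨u1, hu1⟩ := LEAD_poinc s
        obtain ⟨u2, hu2⟩ := LEAD_zz s
        refine ⟨s.tU ^ (16 : ℤ), u2, u1, ?_, hu1⟩
        rw [hb, hz]
        exact hu2 }

theorem INT_R1 (x y : List ℤ →₀ K) (hx : x ∈ orb s.TA 32 s.z) (hy : y ∈ orb s.TA 32 s.z') :
    ∃ a : A, s.B x y = algebraMap A K a := by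
  obtain ⟨V, _, _, _, _, H, ι, b, hH, hb, hinj, hsm, hV, hl⟩ := INT_abs s
  obtain ⟨z, hz⟩ := hl _ (INT_z_mem s)
  obtain ⟨z', hz'⟩ := hl _ (INT_z'_mem s)
  have h := INT_hyp s H ι b hH hb hinj hV z z' hz hz'
  rw [← hz] at hx
  rw [← hz'] at hy
  obtain ⟨x1, hx1, rfl⟩ := INT_orb_map ι hH z hx
  obtain ⟨y1, hy1, rfl⟩ := INT_orb_map ι hH z' hy
  obtain ⟨a, ha⟩ := h.R1 x1 hx1 y1 hy1
  rw [hb] at ha
  exact ⟨a, ha⟩

theorem INT_R2 : s.z ∈ orb s.TA 32 s.z' := by
  obtain ⟨V, _, _, _, _, H, ι, b, hH, hb, hinj, hsm, hV, hl⟩ := INT_abs s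
  obtain ⟨z, hz⟩ := hl _ (INT_z_mem s)
  obtain ⟨z', hz'⟩ := hl _ (INT_z'_mem s)
  have h := INT_hyp s H ι b hH hb hinj hV z z' hz hz'
  rw [← hz, ← hz']
  exact INT_orb_map' ι hH z' h.R2

theorem INT_R3 : ∃ g ∈ HAlg A 32, ∃ u : Aˣ, ∀ v ∈ s.VK,
    act s.TA g v = (algebraMap A K u * s.B v s.z) • s.z := by
  obtain ⟨V, _, _, _, _, H, ι, b, hH, hb, hinj, hsm, hV, hl⟩ := INT_abs s
  obtain ⟨z, hz⟩ := hl _ (INT_z_mem s)
  obtain ⟨z', hz'⟩ := hl _ (INT_z'_mem s)
  have h := INT_hyp s H ι b hH hb hinj hV z z' hz hz'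
  obtain ⟨g, hg, u, hgu⟩ := h.R3
  refine ⟨g, hg, u, fun v hv => ?_⟩
  obtain ⟨v, rfl⟩ := hl v hv
  have e1 : ι (act H.T g v) = act s.TA g (ι v) := INT_act_map ι hH hg v
  rw [← e1, hgu, hsm, hb, hz]

end

end J3
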