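import Pool.Agent.J3.Defs

/-!
# Orbits under a Hecke system are finitely generated
-/

set_option autoImplicit false

namespace J3

section SPANalg

variable {A : Type*} [CommRing A] {E : Type*} [Ring E] [Algebra A E]

/-- `SPAN_D T k j = T_k T_(k-1) ⋯ T_j` (`1` if `k < j`) -/
def SPAN_D (T : ℕ → E) : ℕ → ℕ → E
  | 0, _ => 1
  | k + 1, j => if j ≤ k + 1 then T (k + 1) * SPAN_D T k j else 1

/-- the relations between `T 1, …, T (n-1)` in an algebra -/
structure SPAN_Rel (T : ℕ → E) (q : A) (n : ℕ) : Prop where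
  quad : ∀ i, 1 ≤ i → i < n → T i * T i = (q - 1) • T i + q • (1 : E)
  braid : ∀ i, 1 ≤ i → i + 1 < n → T i * (T (i + 1) * T i) = T (i + 1) * (T i * T (i + 1))
  comm : ∀ i j, 1 ≤ i → i + 1 < j → j < n → T i * T j = T j * T i

variable {T : ℕ → E} {q : A} {n : ℕ}

theorem SPAN_D_of_lt {k j : ℕ} (h : k < j) : SPAN_D T k j = 1 := by
  cases k with
  | zero => rfl
  | succ k => rw [SPAN_D, if_neg (by omega)]

theorem SPAN_D_succ {k j : ℕ} (h : j ≤ k + 1) : SPAN_D T (k + 1) j = T (k + 1) * SPAN_D T k j := by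
  rw [SPAN_D, if_pos h]

theorem SPAN_D_right {k j : ℕ} (h1 : 1 ≤ j) (h : j ≤ k) :
    SPAN_D T k j = SPAN_D T k (j + 1) * T j := by
  induction k with
  | zero => omega
  | succ k ih =>
    rw [SPAN_D_succ h]
    rcases Nat.lt_or_ge k j with hj | hj
    · have e : j = k + 1 := by omega
      subst e
      rw [SPAN_D_of_lt hj, SPAN_D_of_lt (by omega), one_mul, mul_one]
    · rw [SPAN_D_succ (by omega), ih hj, mul_assoc]

/-- `T_i` commutes with the `T_l`, `j ≤ l ≤ k`, if `i + 1 < j` -/
theorem SPAN_D_comm_low (H : SPAN_Rel T q n) {k j i : ℕ} (hk : k < n) (h1 : 1 ≤ i)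
    (h : i + 1 < j) : SPAN_D T k j * T i = T i * SPAN_D T k j := by
  induction k with
  | zero => rw [SPAN_D_of_lt (by omega), one_mul, mul_one]
  | succ k ih =>
    rcases Nat.lt_or_ge (k + 1) j with hj | hj
    · rw [SPAN_D_of_lt hj, one_mul, mul_one]
    · rw [SPAN_D_succ hj, mul_assoc, ih (by omega), ← mul_assoc, ← mul_assoc,
        H.comm i (k + 1) h1 (by omega) hk]

/-- `T_i` commutes with the `T_l`, `j ≤ l ≤ k`, if `k + 1 < i` -/
theorem SPAN_D_comm_high (H : SPAN_Rel T q n) {k j i : ℕ} (h1 : 1 ≤ j) (hi : i < n)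
    (h : k + 1 < i) : SPAN_D T k j * T i = T i * SPAN_D T k j := by
  induction k with
  | zero => rw [SPAN_D_of_lt (by omega), one_mul, mul_one]
  | succ k ih =>
    rcases Nat.lt_or_ge (k + 1) j with hj | hj
    · rw [SPAN_D_of_lt hj, one_mul, mul_one]
    · rw [SPAN_D_succ hj, mul_assoc, ih (by omega), ← mul_assoc, ← mul_assoc,
        ← H.comm (k + 1) i (by omega) (by omega) hi]

theorem SPAN_D_shift (H : SPAN_Rel T q n) {k j i : ℕ} (hk : k < n) (h1 : 1 ≤ j)
    (h : j < i) (hik : i ≤ k) : SPAN_D T k j * T i = T (i - 1) * SPAN_D T k j := by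
  induction k with
  | zero => omega
  | succ k ih =>
    rcases Nat.lt_or_ge i (k + 1) with hi | hi
    · rw [SPAN_D_succ (by omega), mul_assoc, ih (by omega) (by omega), ← mul_assoc, ← mul_assoc,
        H.comm (i - 1) (k + 1) (by omega) (by omega) hk]
    · have e : i = k + 1 := by omega
      subst e
      obtain ⟨l, rfl⟩ : ∃ l, k = l + 1 := ⟨k - 1, by omega⟩
      rw [SPAN_D_succ (by omega), SPAN_D_succ (by omega), mul_assoc, mul_assoc,
        SPAN_D_comm_high H h1 hk (by omega)]
      have hb := H.braid (l + 1) (by omega) hk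
      have e1 : l + 1 + 1 - 1 = l + 1 := by omega
      rw [e1]
      calc T (l + 1 + 1) * (T (l + 1) * (T (l + 1 + 1) * SPAN_D T l j))
          = (T (l + 1 + 1) * (T (l + 1) * T (l + 1 + 1))) * SPAN_D T l j := by
            simp only [mul_assoc]
        _ = (T (l + 1) * (T (l + 1 + 1) * T (l + 1))) * SPAN_D T l j := by rw [hb]
        _ = T (l + 1) * (T (l + 1 + 1) * (T (l + 1) * SPAN_D T l j)) := by
            simp only [mul_assoc]

variable (A T) in
/-- the span of the standard products of `T_1, …, T_k` -/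
def SPAN_M : ℕ → Submodule A E
  | 0 => Submodule.span A {1}
  | k + 1 => SPAN_M k *
      Submodule.span A ((fun j : ℕ => SPAN_D T (k + 1) (j + 1)) '' (Finset.range (k + 2) : Set ℕ))

theorem SPAN_M_fg (k : ℕ) : (SPAN_M A T k).FG := by
  induction k with
  | zero => exact Submodule.fg_span (Set.finite_singleton _)
  | succ k ih => exact ih.mul (Submodule.fg_span ((Finset.finite_toSet _).image _))

theorem SPAN_mem {k j : ℕ} (h1 : 1 ≤ j) (h : j ≤ k + 2) {m : E} (hm : m ∈ SPAN_M A T k) :
    m * SPAN_D T (k + 1) j ∈ SPAN_M A T (k + 1) := by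
  refine Submodule.mul_mem_mul hm (Submodule.subset_span ⟨j - 1, ?_, ?_⟩)
  · simp only [Finset.coe_range, Set.mem_Iio]
    omega
  · show SPAN_D T (k + 1) (j - 1 + 1) = _
    rw [Nat.sub_add_cancel h1]

theorem SPAN_right (H : SPAN_Rel T q n) (k : ℕ) (hk : k < n) (i : ℕ) (h1 : 1 ≤ i) (hi : i ≤ k)
    (x : E) (hx : x ∈ SPAN_M A T k) : x * T i ∈ SPAN_M A T k := by
  induction k generalizing i x with
  | zero => omega
  | succ k ih =>
    have ih' := ih (by omega)
    refine Submodule.mul_induction_on hx (fun m hm y hy => ?_) (fun x y h1 h2 => ?_)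
    · refine Submodule.span_induction ?_ ?_ ?_ ?_ hy
      · rintro _ ⟨j', hj', rfl⟩
        simp only [Finset.coe_range, Set.mem_Iio] at hj'
        obtain ⟨j, hj⟩ : ∃ j, j = j' + 1 := ⟨_, rfl⟩
        show m * SPAN_D T (k + 1) (j' + 1) * T i ∈ _
        rw [← hj, mul_assoc]
        rcases lt_trichotomy i j with hij | hij | hij
        · rcases Nat.lt_or_ge (i + 1) j with hij' | hij'
          · rw [SPAN_D_comm_low H hk h1 hij', ← mul_assoc]
            exact SPAN_mem (by omega) (by omega) (ih' i h1 (by omega) m hm)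
          · have e : j = i + 1 := by omega
            rw [e, ← SPAN_D_right h1 hi]
            exact SPAN_mem (by omega) (by omega) hm
        · have e : SPAN_D T (k + 1) j * T i = (q - 1) • SPAN_D T (k + 1) i +
              q • SPAN_D T (k + 1) (i + 1) := by
            rw [← hij, SPAN_D_right h1 hi, mul_assoc, H.quad i h1 (by omega), mul_add,
              mul_smul_comm, mul_smul_comm, mul_one]
          rw [e, mul_add, mul_smul_comm, mul_smul_comm]
          exact Submodule.add_mem _ (Submodule.smul_mem _ _ (SPAN_mem (by omega) (by omega) hm))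
            (Submodule.smul_mem _ _ (SPAN_mem (by omega) (by omega) hm))
        · rw [SPAN_D_shift H hk (by omega) hij hi, ← mul_assoc]
          exact SPAN_mem (by omega) (by omega) (ih' (i - 1) (by omega) (by omega) m hm)
      · rw [mul_zero, zero_mul]
        exact Submodule.zero_mem _
      · intro x y _ _ hx hy
        rw [mul_add, add_mul]
        exact Submodule.add_mem _ hx hy
      · intro a x _ hx
        rw [mul_smul_comm, smul_mul_assoc]
        exact Submodule.smul_mem _ _ hx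
    · rw [add_mul]
      exact Submodule.add_mem _ h1 h2

theorem SPAN_one_mem (k : ℕ) : (1 : E) ∈ SPAN_M A T k := by
  induction k with
  | zero => exact Submodule.subset_span rfl
  | succ k ih =>
    have := SPAN_mem (T := T) (k := k) (j := k + 2) (by omega) le_rfl ih
    rwa [SPAN_D_of_lt (by omega), mul_one] at this

theorem SPAN_sub (k : ℕ) : T '' {i | 1 ≤ i ∧ i ≤ k} ⊆ T '' {i | 1 ≤ i ∧ i ≤ k + 1} := by
  rintro _ ⟨i, hi, rfl⟩
  exact ⟨i, ⟨hi.1, hi.2.trans (Nat.le_succ k)⟩, rfl⟩

theorem SPAN_D_mem {k j : ℕ} (h1 : 1 ≤ j) : SPAN_D T k j ∈ Algebra.adjoin A (T '' {i | 1 ≤ i ∧ i ≤ k}) := by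
  induction k with
  | zero => exact Subalgebra.one_mem _
  | succ k ih =>
    rcases Nat.lt_or_ge (k + 1) j with hj | hj
    · rw [SPAN_D_of_lt hj]
      exact Subalgebra.one_mem _
    · rw [SPAN_D_succ hj]
      refine Subalgebra.mul_mem _ (Algebra.subset_adjoin ⟨k + 1, ⟨by omega, le_rfl⟩, rfl⟩) ?_
      exact Algebra.adjoin_mono (SPAN_sub k) ih

theorem SPAN_M_le (k : ℕ) :
    SPAN_M A T k ≤ Subalgebra.toSubmodule (Algebra.adjoin A (T '' {i | 1 ≤ i ∧ i ≤ k})) := by
  induction k with
  | zero =>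
    rw [SPAN_M, Submodule.span_le]
    rintro _ rfl
    exact Subalgebra.one_mem _
  | succ k ih =>
    rw [SPAN_M, Submodule.mul_le]
    intro m hm y hy
    refine Subalgebra.mul_mem _ ?_ ?_
    · exact Algebra.adjoin_mono (SPAN_sub k) (ih hm)
    · have : Submodule.span A ((fun j : ℕ => SPAN_D T (k + 1) (j + 1)) ''
          (Finset.range (k + 2) : Set ℕ)) ≤
          Subalgebra.toSubmodule (Algebra.adjoin A (T '' {i | 1 ≤ i ∧ i ≤ k + 1})) := by
        rw [Submodule.span_le]
        rintro _ ⟨j, _, rfl⟩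
        exact SPAN_D_mem (by omega)
      exact this hy

theorem SPAN_M_eq (H : SPAN_Rel T q n) (k : ℕ) (hk : k < n) :
    SPAN_M A T k = Subalgebra.toSubmodule (Algebra.adjoin A (T '' {i | 1 ≤ i ∧ i ≤ k})) := by
  refine le_antisymm (SPAN_M_le k) ?_
  rw [Algebra.adjoin_eq_span, Submodule.span_le]
  intro x hx
  induction hx using Submonoid.closure_induction_right with
  | one => exact SPAN_one_mem k
  | mul_right x _ y hy ih =>
    obtain ⟨i, ⟨h1, hi⟩, rfl⟩ := hy
    exact SPAN_right H k hk i h1 hi x ih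

end SPANalg

section SPAN

variable {A : Type*} [CommRing A] {X : Type*} [AddCommGroup X] [Module A X] {q : A} {n : ℕ}

theorem SPAN_rel (H : HSys A X q n) : SPAN_Rel (E := Module.End A X) H.T q n where
  quad i h1 h2 := LinearMap.ext fun x => by simpa using H.quad i h1 h2 x
  braid i h1 h2 := LinearMap.ext fun x => by simpa using H.braid i h1 h2 x
  comm i j h1 h2 h3 := LinearMap.ext fun x => by simpa using H.comm i j h1 h2 h3 x

theorem SPAN_orb_mem {T : ℕ → Module.End A X} (v : X) : v ∈ orb T n v := by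
  rw [orb, Submodule.mem_sInf]
  exact fun P hP => hP.1

theorem SPAN_orb_stable {T : ℕ → Module.End A X} (v : X) (i : ℕ) (h1 : 1 ≤ i) (h2 : i < n) (x : X)
    (hx : x ∈ orb T n v) : T i x ∈ orb T n v := by
  rw [orb, Submodule.mem_sInf] at hx ⊢
  exact fun P hP => hP.2 i h1 h2 x (hx P hP)

theorem SPAN_orb_le {T : ℕ → Module.End A X} (v : X) (P : Submodule A X) (hv : v ∈ P)
    (hP : ∀ i, 1 ≤ i → i < n → ∀ x ∈ P, T i x ∈ P) : orb T n v ≤ P :=
  sInf_le ⟨hv, hP⟩

/-- the orbit is the image of the algebra generated by the operators -/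
theorem SPAN_orb_eq (T : ℕ → Module.End A X) (v : X) :
    orb T n v = (Subalgebra.toSubmodule (Algebra.adjoin A (T '' {i | 1 ≤ i ∧ i < n}))).map
      (LinearMap.applyₗ v : Module.End A X →ₗ[A] X) := by
  apply le_antisymm
  · refine SPAN_orb_le v _ ⟨1, Subalgebra.one_mem _, rfl⟩ ?_
    rintro i h1 h2 _ ⟨m, hm, rfl⟩
    refine ⟨T i * m, Subalgebra.mul_mem _ (Algebra.subset_adjoin ⟨i, ⟨h1, h2⟩, rfl⟩) hm, rfl⟩
  · rintro _ ⟨m, hm, rfl⟩
    have hm' : m ∈ Algebra.adjoin A (T '' {i | 1 ≤ i ∧ i < n}) := hm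
    show m v ∈ orb T n v
    have key : ∀ x ∈ orb T n v, m x ∈ orb T n v := by
      clear hm
      induction hm' using Algebra.adjoin_induction with
      | mem y hy =>
        obtain ⟨i, ⟨h1, h2⟩, rfl⟩ := hy
        exact fun x hx => SPAN_orb_stable v i h1 h2 x hx
      | algebraMap r =>
        intro x hx
        rw [Module.algebraMap_end_apply]
        exact Submodule.smul_mem _ _ hx
      | add a b _ _ ha hb =>
        intro x hx
        exact Submodule.add_mem _ (ha x hx) (hb x hx)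
      | mul a b _ _ ha hb =>
        intro x hx
        exact ha _ (hb x hx)
    exact key v (SPAN_orb_mem v)

theorem SPAN_fg (H : HSys A X q n) (v : X) : (orb H.T n v).FG := by
  rw [SPAN_orb_eq]
  rcases Nat.eq_zero_or_pos n with hn | hn
  · subst hn
    have e2 : (H.T '' {i : ℕ | 1 ≤ i ∧ i < 0}) = ∅ := by
      rw [Set.image_eq_empty]
      exact Set.eq_empty_of_forall_notMem fun i hi => absurd hi.2 (Nat.not_lt_zero i)
    rw [e2, Algebra.adjoin_empty, Algebra.toSubmodule_bot]
    exact Submodule.FG.map _ ⟨{1}, by rw [Finset.coe_singleton, Submodule.one_eq_span]⟩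
  · have e : {i : ℕ | 1 ≤ i ∧ i < n} = {i | 1 ≤ i ∧ i ≤ n - 1} := by
      ext i
      exact ⟨fun h => ⟨h.1, by have := h.2; omega⟩, fun h => ⟨h.1, by have := h.2; omega⟩⟩
    rw [e, ← SPAN_M_eq (SPAN_rel H) (n - 1) (by omega)]
    exact (SPAN_M_fg _).map _

end SPAN

end J3
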