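import Pool.Agent.J3.LATTAux
import Pool.Agent.J3.SPAN

/-!
# The abstract lattice argument (module LATT)
-/

set_option autoImplicit false

namespace J3

open TensorProduct in
theorem LATT {O A : Type} [CommRing O] [IsDomain O] [IsLocalRing O] [CommRing A] [IsDomain A]
    (ev : A →+* O) (cst : O →+* A) (hc : ∀ x, ev (cst x) = x)
    (h13 : (13 : O) ∈ IsLocalRing.maximalIdeal O) (h13' : (13 : O) ≠ 0)
    {X : Type} [AddCommGroup X] [Module A X] {q : A} (H : HSys A X q 32)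
    (z : X) (hz : orb H.T 32 z = ⊤)
    (b : X →ₗ[A] X →ₗ[A] A) (hsymm : ∀ x y, b x y = b y x)
    (hT : ∀ i, 1 ≤ i → i < 32 → ∀ x y, b (H.T i x) y = b x (H.T i y))
    (g : FreeAlgebra A ℕ) (hg : g ∈ HAlg A 32) (u : Aˣ) (hgz : ∀ x, act H.T g x = ((u : A) * b x z) • z)
    (v : X) (hv : ∀ x, ∃ c : O, ev (b v x) = 13 * c) (g0 : Oˣ) (hvv : ev (b v v) = 13 * g0)
    (x y : X) (hxy : IsUnit (ev (b x y))) :
    ∃ (M : Type) (_ : AddCommGroup M) (_ : Module O M) (HM : HSys O M (ev q) 32) (π : X →+ M),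
      Function.Surjective π ∧ (∀ (a : A) (x : X), π (a • x) = ev a • π x) ∧
      (∀ i, 1 ≤ i → i < 32 → ∀ x, π (H.T i x) = HM.T i (π x)) ∧
      Module.Finite O M ∧ (∀ (c : O) (m : M), c • m = 0 → c = 0 ∨ m = 0) ∧
      (∀ (L : Type) [Field L] [Algebra O L], Function.Injective (algebraMap O L) →
        Nontrivial (L ⊗[O] M) ∧ ∀ W : Submodule L (L ⊗[O] M),
          (∀ i, 1 ≤ i → i < 32 → ∀ x ∈ W, (HM.T i).baseChange L x ∈ W) → W = ⊥ ∨ W = ⊤) ∧
      (∃ W : Submodule (IsLocalRing.ResidueField O) (IsLocalRing.ResidueField O ⊗[O] M),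
          (∀ i, 1 ≤ i → i < 32 → ∀ x ∈ W, (HM.T i).baseChange (IsLocalRing.ResidueField O) x ∈ W) ∧
          W ≠ ⊥ ∧ W ≠ ⊤) :=
  LATT_main ev cst hc h13 h13' H (by rw [← hz]; exact SPAN_fg H z) z hz b hsymm hT g hg u hgz v hv g0
    hvv x y hxy

end J3
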