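import Pool.Agent.J3.Defs

/-!
# The abstract lattice argument (module LATT), with finite generation as a hypothesis
-/

set_option autoImplicit false

namespace J3
open TensorProduct

section constr
variable {O A : Type} [CommRing O] [CommRing A]

/-- the radical of the specialised form -/
def LATT_N (ev : A →+* O) {X : Type} [AddCommGroup X] [Module A X]
    (b : X →ₗ[A] X →ₗ[A] A) : Submodule A X where
  carrier := {x | ∀ y, ev (b x y) = 0}
  add_mem' := by
    intro x x' hx hx' y
    have h1 : ev (b x y) = 0 := hx y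
    have h2 : ev (b x' y) = 0 := hx' y
    rw [map_add, LinearMap.add_apply, map_add, h1, h2, add_zero]
  zero_mem' := by intro y; simp
  smul_mem' := by
    intro c x hx y
    have h1 : ev (b x y) = 0 := hx y
    rw [map_smul, LinearMap.smul_apply, smul_eq_mul, map_mul, h1, mul_zero]

theorem LATT_constr (ev : A →+* O) (cst : O →+* A) (hc : ∀ x, ev (cst x) = x)
    {X : Type} [AddCommGroup X] [Module A X] {q : A} (H : HSys A X q 32)
    (hfg : (⊤ : Submodule A X).FG)
    (b : X →ₗ[A] X →ₗ[A] A) (hsymm : ∀ x y, b x y = b y x)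
    (hT : ∀ i, 1 ≤ i → i < 32 → ∀ x y, b (H.T i x) y = b x (H.T i y)) :
    ∃ (M : Type) (_ : AddCommGroup M) (_ : Module O M) (HM : HSys O M (ev q) 32) (π : X →+ M)
      (β : M →ₗ[O] M →ₗ[O] O),
      Function.Surjective π ∧ (∀ (a : A) (x : X), π (a • x) = ev a • π x) ∧
      (∀ i, 1 ≤ i → i < 32 → ∀ x, π (H.T i x) = HM.T i (π x)) ∧
      Module.Finite O M ∧
      (∀ x y, β (π x) (π y) = ev (b x y)) ∧
      (∀ m, (∀ m', β m m' = 0) → m = 0) := by
  classical
  set N := LATT_N ev b with hN
  have memN : ∀ x, x ∈ N ↔ ∀ y, ev (b x y) = 0 := fun x => Iff.rfl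
  let modO : Module O (X ⧸ N) := Module.compHom (X ⧸ N) cst
  have smulO : ∀ (c : O) (m : X ⧸ N), c • m = cst c • m := fun c m => rfl
  let π : X →+ X ⧸ N := N.mkQ.toAddMonoidHom
  have hπ : ∀ x, π x = Submodule.Quotient.mk x := fun x => rfl
  have hsurj : Function.Surjective π := N.mkQ_surjective
  have hπeq : ∀ x x', π x = π x' ↔ x - x' ∈ N := by
    intro x x'
    rw [hπ, hπ]
    exact Submodule.Quotient.eq N
  have hsemi : ∀ (a : A) (x : X), π (a • x) = ev a • π x := by
    intro a x
    rw [smulO]
    have h1 : cst (ev a) • π x = π (cst (ev a) • x) := rfl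
    rw [h1, hπeq, memN]
    intro y
    simp [hc]
  -- the induced operators
  have stab : ∀ i, 1 ≤ i → i < 32 → ∀ x ∈ N, H.T i x ∈ N := by
    intro i h1 h2 x hx
    rw [memN]
    intro y
    rw [hT i h1 h2]
    exact (memN x).1 hx _
  let TM : ℕ → Module.End O (X ⧸ N) := fun i =>
    if h : 1 ≤ i ∧ i < 32 then
      { toFun := N.mapQ N (H.T i) (fun x hx => stab i h.1 h.2 x hx)
        map_add' := by intro x y; exact map_add _ _ _
        map_smul' := by
          intro c m
          exact map_smul (N.mapQ N (H.T i) (fun x hx => stab i h.1 h.2 x hx)) (cst c) m }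
    else 0
  have hTM : ∀ i, 1 ≤ i → i < 32 → ∀ x, π (H.T i x) = TM i (π x) := by
    intro i h1 h2 x
    have : TM i = _ := dif_pos ⟨h1, h2⟩
    rw [this]
    rfl
  have hTM' : ∀ i, 1 ≤ i → i < 32 → ∀ x, TM i (π x) = π (H.T i x) := fun i h1 h2 x => (hTM i h1 h2 x).symm
  let HM : HSys O (X ⧸ N) (ev q) 32 :=
    { T := TM
      quad := by
        intro i h1 h2 m
        obtain ⟨x, rfl⟩ := hsurj m
        rw [hTM' i h1 h2, hTM' i h1 h2, H.quad i h1 h2 x, map_add, hsemi, hsemi]
        simp
      braid := by
        intro i h1 h2 m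
        obtain ⟨x, rfl⟩ := hsurj m
        have a1 : 1 ≤ i + 1 := by omega
        have a2 : i < 32 := by omega
        rw [hTM' i h1 a2, hTM' (i+1) a1 h2, hTM' i h1 a2, hTM' (i+1) a1 h2, hTM' i h1 a2,
          hTM' (i+1) a1 h2, H.braid i h1 h2 x]
      comm := by
        intro i j h1 h2 h3 m
        obtain ⟨x, rfl⟩ := hsurj m
        have a1 : 1 ≤ j := by omega
        have a2 : i < 32 := by omega
        rw [hTM' j a1 h3, hTM' i h1 a2, hTM' i h1 a2, hTM' j a1 h3, H.comm i j h1 h2 h3 x] }
  -- the form
  have wd1 : ∀ x x' y, π x = π x' → ev (b x y) = ev (b x' y) := by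
    intro x x' y h
    have := (memN _).1 ((hπeq x x').1 h) y
    rw [map_sub, LinearMap.sub_apply, map_sub] at this
    exact sub_eq_zero.1 this
  have wd2 : ∀ x y y', π y = π y' → ev (b x y) = ev (b x y') := by
    intro x y y' h
    rw [hsymm x y, hsymm x y']
    exact wd1 y y' x h
  let σ : X ⧸ N → X := Function.surjInv hsurj
  have hσ : ∀ m, π (σ m) = m := Function.surjInv_eq hsurj
  let βf : (X ⧸ N) → (X ⧸ N) → O := fun m m' => ev (b (σ m) (σ m'))
  have hβf : ∀ x y, βf (π x) (π y) = ev (b x y) := by
    intro x y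
    change ev (b (σ (π x)) (σ (π y))) = _
    rw [wd1 (σ (π x)) x _ (hσ _), wd2 x (σ (π y)) y (hσ _)]
  let β : (X ⧸ N) →ₗ[O] (X ⧸ N) →ₗ[O] O := LinearMap.mk₂ O βf
    (by
      intro m m' n
      obtain ⟨x, rfl⟩ := hsurj m
      obtain ⟨x', rfl⟩ := hsurj m'
      obtain ⟨y, rfl⟩ := hsurj n
      rw [← map_add, hβf, hβf, hβf]
      simp)
    (by
      intro c m n
      obtain ⟨x, rfl⟩ := hsurj m
      obtain ⟨y, rfl⟩ := hsurj n
      have e1 : c • π x = π (cst c • x) := by rw [hsemi, hc]
      rw [e1, hβf, hβf]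
      simp [hc])
    (by
      intro m n n'
      obtain ⟨x, rfl⟩ := hsurj m
      obtain ⟨y, rfl⟩ := hsurj n
      obtain ⟨y', rfl⟩ := hsurj n'
      rw [← map_add, hβf, hβf, hβf]
      simp)
    (by
      intro c m n
      obtain ⟨x, rfl⟩ := hsurj m
      obtain ⟨y, rfl⟩ := hsurj n
      have e1 : c • π y = π (cst c • y) := by rw [hsemi, hc]
      rw [e1, hβf, hβf]
      simp [hc])
  have hβ : ∀ x y, β (π x) (π y) = ev (b x y) := hβf
  refine ⟨X ⧸ N, inferInstance, modO, HM, π, β, hsurj, hsemi, hTM, ?_, hβ, ?_⟩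
  · obtain ⟨S, hS⟩ := hfg
    refine ⟨⟨S.image π, ?_⟩⟩
    rw [eq_top_iff]
    intro m _
    obtain ⟨x, rfl⟩ := hsurj m
    have hx : x ∈ Submodule.span A (S : Set X) := by rw [hS]; trivial
    induction hx using Submodule.span_induction with
    | mem x hx =>
      apply Submodule.subset_span
      rw [Finset.coe_image]
      exact ⟨x, hx, rfl⟩
    | zero => rw [map_zero]; exact Submodule.zero_mem _
    | add x y _ _ h1 h2 => rw [map_add]; exact Submodule.add_mem _ (h1 trivial) (h2 trivial)
    | smul a x _ h1 => rw [hsemi]; exact Submodule.smul_mem _ _ (h1 trivial)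
  · intro m hm
    obtain ⟨x, rfl⟩ := hsurj m
    have : x ∈ N := by
      rw [memN]
      intro y
      rw [← hβ]
      exact hm _
    rw [hπ]
    exact (Submodule.Quotient.mk_eq_zero N).2 this

end constr

section ext
variable {O : Type} [CommRing O] {M : Type} [AddCommGroup M] [Module O M]

/-- scalar extension of a linear functional -/
noncomputable def LATT_fl (L : Type) [CommRing L] [Algebra O L] (φ : M →ₗ[O] O) :
    L ⊗[O] M →ₗ[L] L :=
  (TensorProduct.AlgebraTensorModule.rid O L L).toLinearMap ∘ₗ φ.baseChange L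

theorem LATT_fl_tmul (L : Type) [CommRing L] [Algebra O L] (φ : M →ₗ[O] O) (l : L) (m : M) :
    LATT_fl L φ (l ⊗ₜ m) = φ m • l := by
  simp [LATT_fl]

theorem LATT_fl_smul (L : Type) [CommRing L] [Algebra O L] (c : O) (φ : M →ₗ[O] O)
    (w : L ⊗[O] M) : LATT_fl L (c • φ) w = c • LATT_fl L φ w := by
  induction w using TensorProduct.induction_on with
  | zero => simp
  | tmul l x =>
    rw [LATT_fl_tmul, LATT_fl_tmul, LinearMap.smul_apply, smul_assoc]
  | add x y hx hy => simp only [map_add, hx, hy, smul_add]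

theorem LATT_fl_adj (L : Type) [CommRing L] [Algebra O L] (β : M →ₗ[O] M →ₗ[O] O)
    (T : Module.End O M) (hT : ∀ x y, β (T x) y = β x (T y)) (w : L ⊗[O] M) (m : M) :
    LATT_fl L (β.flip m) (T.baseChange L w) = LATT_fl L (β.flip (T m)) w := by
  induction w using TensorProduct.induction_on with
  | zero => simp
  | tmul l x =>
    rw [LinearMap.baseChange_tmul, LATT_fl_tmul, LATT_fl_tmul, LinearMap.flip_apply,
      LinearMap.flip_apply, hT]
  | add x y hx hy => simp only [map_add, hx, hy]

/-- nondegeneracy is preserved by flat extensions -/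
theorem LATT_nondeg (L : Type) [CommRing L] [Algebra O L] [Module.Flat O L]
    [Module.Finite O M] (β : M →ₗ[O] M →ₗ[O] O) (hβ : ∀ m, (∀ m', β m m' = 0) → m = 0)
    (w : L ⊗[O] M) (hw : ∀ m, LATT_fl L (β.flip m) w = 0) : w = 0 := by
  classical
  obtain ⟨S, hS⟩ := (Module.Finite.fg_top : (⊤ : Submodule O M).FG)
  let Φ : M →ₗ[O] (S → O) := LinearMap.pi (fun s => β.flip s.1)
  have hΦ : Function.Injective Φ := by
    rw [injective_iff_map_eq_zero]
    intro m hm
    apply hβ
    intro m'
    have hm' : m' ∈ Submodule.span O (S : Set M) := by rw [hS]; trivial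
    induction hm' using Submodule.span_induction with
    | mem x hx => exact congrFun hm ⟨x, hx⟩
    | zero => simp
    | add x y _ _ h1 h2 => rw [map_add, h1, h2, add_zero]
    | smul a x _ h1 => rw [map_smul, h1, smul_zero]
  have h1 : Function.Injective (Φ.lTensor L) := Module.Flat.lTensor_preserves_injective_linearMap Φ hΦ
  apply h1
  rw [map_zero]
  apply (TensorProduct.piScalarRight O L L S).injective
  rw [map_zero]
  funext s
  have h2 : ∀ w : L ⊗[O] M, (TensorProduct.piScalarRight O L L S) (Φ.lTensor L w) s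
      = LATT_fl L (β.flip s.1) w := by
    intro w
    induction w using TensorProduct.induction_on with
    | zero => simp
    | tmul l x =>
      rw [LATT_fl_tmul, LinearMap.lTensor_tmul]
      simp [Φ]
    | add x y hx hy => simp only [map_add, Pi.add_apply, hx, hy]
  rw [h2]
  exact hw _

theorem LATT_span (L : Type) [CommRing L] [Algebra O L] (W : Submodule L (L ⊗[O] M))
    (h : ∀ m : M, (1 : L) ⊗ₜ[O] m ∈ W) : W = ⊤ := by
  rw [eq_top_iff]
  intro w _
  induction w using TensorProduct.induction_on with
  | zero => exact W.zero_mem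
  | tmul l x =>
    have : l ⊗ₜ[O] x = l • ((1 : L) ⊗ₜ[O] x) := by
      rw [TensorProduct.smul_tmul', smul_eq_mul, mul_one]
    rw [this]
    exact W.smul_mem _ (h x)
  | add x y hx hy => exact W.add_mem (hx trivial) (hy trivial)

end ext

section main
variable {O A : Type} [CommRing O] [CommRing A]

/-- the orbit is everything: induction principle -/
theorem LATT_orb {X : Type} [AddCommGroup X] [Module A X] {T : ℕ → Module.End A X} {n : ℕ} {z : X}
    (hz : orb T n z = ⊤) (P : Submodule A X) (h0 : z ∈ P)
    (h1 : ∀ i, 1 ≤ i → i < n → ∀ x ∈ P, T i x ∈ P) (x : X) : x ∈ P := by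
  have : orb T n z ≤ P := sInf_le ⟨h0, h1⟩
  rw [hz] at this
  exact this trivial

/-- elements of the Hecke algebra act on the quotient lattice -/
theorem LATT_act (ev : A →+* O) {X : Type} [AddCommGroup X] [Module A X] {M : Type}
    [AddCommGroup M] [Module O M] (T : ℕ → Module.End A X) (TM : ℕ → Module.End O M)
    (π : X →+ M) (hs : ∀ (a : A) (x : X), π (a • x) = ev a • π x) (n : ℕ)
    (hTM : ∀ i, 1 ≤ i → i < n → ∀ x, π (T i x) = TM i (π x))
    (g : FreeAlgebra A ℕ) (hg : g ∈ HAlg A n) :
    ∃ G : Module.End O M, (∀ x, π (act T g x) = G (π x)) ∧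
      ∀ (L : Type) [CommRing L] [Algebra O L] (W : Submodule L (L ⊗[O] M)),
        (∀ i, 1 ≤ i → i < n → ∀ x ∈ W, (TM i).baseChange L x ∈ W) →
        ∀ x ∈ W, G.baseChange L x ∈ W := by
  unfold HAlg at hg
  induction hg using Algebra.adjoin_induction with
  | mem x hx =>
    obtain ⟨i, hi, rfl⟩ := hx
    refine ⟨TM i, ?_, ?_⟩
    · intro x
      rw [← hTM i hi.1 hi.2 x]
      simp [act]
    · intro L _ _ W hW x hx
      exact hW i hi.1 hi.2 x hx
  | algebraMap r =>
    refine ⟨(ev r) • LinearMap.id, ?_, ?_⟩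
    · intro x
      rw [AlgHom.commutes]
      simp [hs, Module.algebraMap_end_apply]
    · intro L _ _ W hW x hx
      have : ((ev r) • (LinearMap.id : M →ₗ[O] M)).baseChange L x = (algebraMap O L (ev r)) • x := by
        rw [LinearMap.baseChange_smul, LinearMap.baseChange_id]
        simp [algebraMap_smul]
      rw [this]
      exact W.smul_mem _ hx
  | add x y hx hy h1 h2 =>
    obtain ⟨G1, a1, b1⟩ := h1
    obtain ⟨G2, a2, b2⟩ := h2
    refine ⟨G1 + G2, ?_, ?_⟩
    · intro x
      rw [map_add, LinearMap.add_apply, map_add, a1, a2, LinearMap.add_apply]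
    · intro L _ _ W hW x hx
      rw [LinearMap.baseChange_add, LinearMap.add_apply]
      exact W.add_mem (b1 L W hW x hx) (b2 L W hW x hx)
  | mul x y hx hy h1 h2 =>
    obtain ⟨G1, a1, b1⟩ := h1
    obtain ⟨G2, a2, b2⟩ := h2
    refine ⟨G1 * G2, ?_, ?_⟩
    · intro x
      rw [map_mul, Module.End.mul_apply, a1, a2, Module.End.mul_apply]
    · intro L _ _ W hW x hx
      rw [LinearMap.baseChange_mul, Module.End.mul_apply]
      exact b1 L W hW _ (b2 L W hW x hx)

end main

/-- a field containing a domain is flat over it -/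
theorem LATT_flat (O : Type) [CommRing O] [IsDomain O] (L : Type) [Field L] [Algebra O L]
    (hL : Function.Injective (algebraMap O L)) : Module.Flat O L := by
  let F := FractionRing O
  let j : F →+* L := IsFractionRing.lift hL
  let _ : Algebra F L := j.toAlgebra
  have : IsScalarTower O F L := IsScalarTower.of_algebraMap_eq (by
    intro x
    exact (IsFractionRing.lift_algebraMap hL x).symm)
  have : Module.Flat O F := IsLocalization.flat F (nonZeroDivisors O)
  exact Module.Flat.trans O F L

theorem LATT_main {O A : Type} [CommRing O] [IsDomain O] [IsLocalRing O] [CommRing A]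
    (ev : A →+* O) (cst : O →+* A) (hc : ∀ x, ev (cst x) = x)
    (h13 : (13 : O) ∈ IsLocalRing.maximalIdeal O) (h13' : (13 : O) ≠ 0)
    {X : Type} [AddCommGroup X] [Module A X] {q : A} (H : HSys A X q 32)
    (hfg : (⊤ : Submodule A X).FG)
    (z : X) (hz : orb H.T 32 z = ⊤)
    (b : X →ₗ[A] X →ₗ[A] A) (hsymm : ∀ x y, b x y = b y x)
    (hT : ∀ i, 1 ≤ i → i < 32 → ∀ x y, b (H.T i x) y = b x (H.T i y))
    (g : FreeAlgebra A ℕ) (hg : g ∈ HAlg A 32) (u : Aˣ) (hgz : ∀ x, act H.T g x = ((u : A) * b x z) • z)
    (v : X) (hv : ∀ x, ∃ c : O, ev (b v x) = 13 * c) (g0 : Oˣ) (hvv : ev (b v v) = 13 * g0)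
    (x y : X) (hxy : IsUnit (ev (b x y))) :
    ∃ (M : Type) (_ : AddCommGroup M) (_ : Module O M) (HM : HSys O M (ev q) 32) (π : X →+ M),
      Function.Surjective π ∧ (∀ (a : A) (x : X), π (a • x) = ev a • π x) ∧
      (∀ i, 1 ≤ i → i < 32 → ∀ x, π (H.T i x) = HM.T i (π x)) ∧
      Module.Finite O M ∧ (∀ (c : O) (m : M), c • m = 0 → c = 0 ∨ m = 0) ∧
      (∀ (L : Type) [Field L] [Algebra O L], Function.Injective (algebraMap O L) →
        Nontrivial (L ⊗[O] M) ∧ ∀ W : Submodule L (L ⊗[O] M),
          (∀ i, 1 ≤ i → i < 32 → ∀ x ∈ W, (HM.T i).baseChange L x ∈ W) → W = ⊥ ∨ W = ⊤) ∧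
      (∃ W : Submodule (IsLocalRing.ResidueField O) (IsLocalRing.ResidueField O ⊗[O] M),
          (∀ i, 1 ≤ i → i < 32 → ∀ x ∈ W, (HM.T i).baseChange (IsLocalRing.ResidueField O) x ∈ W) ∧
          W ≠ ⊥ ∧ W ≠ ⊤) := by
  classical
  obtain ⟨M, iM1, iM2, HM, π, β, hsurj, hsemi, hTM, hfin, hβ, hnd⟩ :=
    LATT_constr ev cst hc H hfg b hsymm hT
  have hadj : ∀ i, 1 ≤ i → i < 32 → ∀ m m', β (HM.T i m) m' = β m (HM.T i m') := by
    intro i h1 h2 m m'
    obtain ⟨x, rfl⟩ := hsurj m
    obtain ⟨y, rfl⟩ := hsurj m'
    rw [← hTM i h1 h2, ← hTM i h1 h2, hβ, hβ, hT i h1 h2]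
  refine ⟨M, iM1, iM2, HM, π, hsurj, hsemi, hTM, hfin, ?_, ?_, ?_⟩
  · intro c m hcm
    by_cases h0 : c = 0
    · exact Or.inl h0
    · right
      apply hnd
      intro m'
      have h1 : β (c • m) m' = 0 := by rw [hcm]; simp
      rw [map_smul, LinearMap.smul_apply, smul_eq_mul] at h1
      exact (mul_eq_zero.1 h1).resolve_left h0
  · intro L _ _ hL
    have := LATT_flat O L hL
    have hval : ∀ a c : X, LATT_fl L (β.flip (π c)) ((1 : L) ⊗ₜ π a) = algebraMap O L (ev (b a c)) := by
      intro a c
      rw [LATT_fl_tmul, LinearMap.flip_apply, hβ, Algebra.smul_def, mul_one]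
    refine ⟨⟨⟨(1 : L) ⊗ₜ π x, 0, ?_⟩⟩, ?_⟩
    · intro h0
      have h1 := hval x y
      rw [h0, map_zero] at h1
      have h2 : ev (b x y) = 0 := by
        apply hL
        rw [← h1, map_zero]
      rw [h2] at hxy
      exact not_isUnit_zero hxy
    · intro W hW
      by_cases hcase : ∀ w ∈ W, LATT_fl L (β.flip (π z)) w = 0
      · left
        rw [eq_bot_iff]
        intro w hw
        let P : Submodule A X :=
          { carrier := {x' | ∀ w ∈ W, LATT_fl L (β.flip (π x')) w = 0}
            add_mem' := by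
              intro a c ha hc' w hw
              have e1 : LATT_fl L (β.flip (π (a + c))) w
                  = LATT_fl L (β.flip (π a)) w + LATT_fl L (β.flip (π c)) w := by
                rw [map_add, map_add]
                simp [LATT_fl, LinearMap.baseChange_add]
              rw [e1, ha w hw, hc' w hw, add_zero]
            zero_mem' := by
              intro w hw
              rw [map_zero, map_zero]
              simp [LATT_fl]
            smul_mem' := by
              intro r a ha w hw
              have e1 : LATT_fl L (β.flip (π (r • a))) w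
                  = ev r • LATT_fl L (β.flip (π a)) w := by
                rw [hsemi, map_smul, LATT_fl_smul]
              rw [e1, ha w hw, smul_zero] }
        have hP : ∀ x', x' ∈ P := by
          intro x'
          refine LATT_orb hz P hcase ?_ x'
          intro i h1 h2 a ha w hw
          rw [hTM i h1 h2, ← LATT_fl_adj L β (HM.T i) (hadj i h1 h2)]
          exact ha _ (hW i h1 h2 w hw)
        refine LATT_nondeg L β hnd w ?_
        intro m
        obtain ⟨x', rfl⟩ := hsurj m
        exact hP x' w hw
      · right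
        push Not at hcase
        obtain ⟨w, hw, hne⟩ := hcase
        obtain ⟨G, hG, hGW⟩ := LATT_act ev H.T HM.T π hsemi 32 hTM g hg
        have hG1 : ∀ m, G m = (ev u * β m (π z)) • π z := by
          intro m
          obtain ⟨a, rfl⟩ := hsurj m
          rw [← hG, hgz, hsemi, map_mul, hβ]
        have hG2 : ∀ w : L ⊗[O] M, G.baseChange L w
            = (algebraMap O L (ev u) * LATT_fl L (β.flip (π z)) w) • ((1 : L) ⊗ₜ[O] π z) := by
          intro w
          induction w using TensorProduct.induction_on with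
          | zero => simp
          | tmul l m =>
            rw [LinearMap.baseChange_tmul, hG1, LATT_fl_tmul, LinearMap.flip_apply,
              TensorProduct.tmul_smul, Algebra.smul_def, TensorProduct.smul_tmul',
              TensorProduct.smul_tmul', smul_eq_mul, mul_one, Algebra.smul_def, map_mul]
            congr 1
            ring
          | add a c ha hc' => rw [map_add, ha, hc', map_add, mul_add, add_smul]
        have h3 : ((1 : L) ⊗ₜ[O] π z) ∈ W := by
          have h4 := hGW L W hW w hw
          rw [hG2] at h4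
          have h5 : algebraMap O L (ev u) * LATT_fl L (β.flip (π z)) w ≠ 0 := by
            apply mul_ne_zero _ hne
            exact ((u.isUnit.map ev).map (algebraMap O L)).ne_zero
          have h6 := W.smul_mem (algebraMap O L (ev u) * LATT_fl L (β.flip (π z)) w)⁻¹ h4
          rwa [smul_smul, inv_mul_cancel₀ h5, one_smul] at h6
        apply LATT_span
        intro m
        obtain ⟨x', rfl⟩ := hsurj m
        let P : Submodule A X :=
          { carrier := {x' | ((1 : L) ⊗ₜ[O] π x') ∈ W}
            add_mem' := by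
              intro a c ha hc'
              have : ((1 : L) ⊗ₜ[O] π (a + c)) = (1 : L) ⊗ₜ[O] π a + (1 : L) ⊗ₜ[O] π c := by
                rw [map_add, TensorProduct.tmul_add]
              change ((1 : L) ⊗ₜ[O] π (a + c)) ∈ W
              rw [this]
              exact W.add_mem ha hc'
            zero_mem' := by
              change ((1 : L) ⊗ₜ[O] π 0) ∈ W
              rw [map_zero, TensorProduct.tmul_zero]
              exact W.zero_mem
            smul_mem' := by
              intro r a ha
              change ((1 : L) ⊗ₜ[O] π (r • a)) ∈ W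
              have : ((1 : L) ⊗ₜ[O] π (r • a)) = (algebraMap O L (ev r)) • ((1 : L) ⊗ₜ[O] π a) := by
                rw [hsemi, TensorProduct.tmul_smul, algebraMap_smul]
              rw [this]
              exact W.smul_mem _ ha }
        refine LATT_orb hz P h3 ?_ x'
        intro i h1 h2 a ha
        change ((1 : L) ⊗ₜ[O] π (H.T i a)) ∈ W
        rw [hTM i h1 h2]
        have := hW i h1 h2 _ (show ((1 : L) ⊗ₜ[O] π a) ∈ W from ha)
        rwa [LinearMap.baseChange_tmul] at this
  · -- the special fibre
    set k := IsLocalRing.ResidueField O with hk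
    have hval : ∀ a c : X, LATT_fl k (β.flip (π c)) ((1 : k) ⊗ₜ π a) = algebraMap O k (ev (b a c)) := by
      intro a c
      rw [LATT_fl_tmul, LinearMap.flip_apply, hβ, Algebra.smul_def, mul_one]
    let W : Submodule k (k ⊗[O] M) :=
      { carrier := {w | ∀ m, LATT_fl k (β.flip m) w = 0}
        add_mem' := by
          intro a c ha hc' m
          rw [map_add, ha m, hc' m, add_zero]
        zero_mem' := by
          intro m
          rw [map_zero]
        smul_mem' := by
          intro r a ha m
          rw [map_smul, ha m, smul_zero] }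
    refine ⟨W, ?_, ?_, ?_⟩
    · intro i h1 h2 w hw m
      rw [LATT_fl_adj k β (HM.T i) (hadj i h1 h2)]
      exact hw _
    · -- `1 ⊗ π v` is a nonzero element
      intro hbot
      have hmem : ((1 : k) ⊗ₜ[O] π v) ∈ W := by
        intro m
        obtain ⟨x', rfl⟩ := hsurj m
        rw [hval]
        obtain ⟨c, hc'⟩ := hv x'
        rw [hc', map_mul]
        have : algebraMap O k 13 = 0 := (IsLocalRing.residue_eq_zero_iff _).2 h13
        rw [this, zero_mul]
      rw [hbot, Submodule.mem_bot] at hmem
      -- the functional `c ↦ β (π v) c / 13`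
      have hdiv : ∀ m : M, ∃ c : O, β (π v) m = 13 * c := by
        intro m
        obtain ⟨x', rfl⟩ := hsurj m
        rw [hβ]
        exact hv x'
      choose f hf using hdiv
      let φ : M →ₗ[O] O :=
        { toFun := f
          map_add' := by
            intro m m'
            apply mul_left_cancel₀ h13'
            rw [← hf, map_add, hf, hf]
            ring
          map_smul' := by
            intro c m
            apply mul_left_cancel₀ h13'
            rw [← hf, map_smul, hf]
            simp only [smul_eq_mul, RingHom.id_apply]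
            ring }
      have hφ : φ (π v) = g0 := by
        apply mul_left_cancel₀ h13'
        have e1 : (13 : O) * φ (π v) = β (π v) (π v) := (hf (π v)).symm
        rw [e1, hβ, hvv]
      have e2 : LATT_fl k φ ((1 : k) ⊗ₜ[O] π v) = 0 := by rw [hmem, map_zero]
      rw [LATT_fl_tmul, hφ, Algebra.smul_def, mul_one] at e2
      exact (g0.isUnit.map (algebraMap O k)).ne_zero e2
    · intro htop
      have hmem : ((1 : k) ⊗ₜ[O] π x) ∈ W := by rw [htop]; trivial
      have := hmem (π y)
      rw [hval] at this
      exact (hxy.map (algebraMap O k)).ne_zero this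

end J3
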