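import Pool.Agent.J3.RELcomb
import Pool.Agent.J3.COEF

/-!
# REL: the seminormal operators satisfy the Hecke relations on `V` (MP_36c429_al)
-/

set_option autoImplicit false

namespace J3

open Finsupp

section
variable {O A K : Type} [CommRing O] [IsDomain O] [CommRing A] [IsDomain A]
    [CommRing K] [IsDomain K] [Algebra A K] (s : Setup O A K)

/-! ## Scalar identities -/

/-- the swap coefficient, set to `0` for adjacent contents -/
noncomputable def REL_S (δ : ℤ) : K := if 2 ≤ |δ| then s.b δ else 0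

theorem REL_Q_add (δ ε : ℤ) : s.Q (δ + ε) = s.Q δ * s.Q ε := by
  unfold Setup.Q
  rw [zpow_add, Units.val_mul]

theorem REL_Q_zero : s.Q 0 = 1 := by
  unfold Setup.Q
  rw [zpow_zero, Units.val_one]

theorem REL_Q_one : s.Q 1 = algebraMap A K s.q := by
  unfold Setup.Q Setup.qU
  rw [zpow_one]
  rfl

theorem REL_Q_neg (δ : ℤ) : s.Q δ * s.Q (-δ) = 1 := by
  rw [← REL_Q_add, add_neg_cancel, REL_Q_zero]

theorem REL_a_neg (δ : ℤ) (h0 : δ ≠ 0) (h : |δ| ≤ 14) : s.a (-δ) = s.Q 1 - 1 - s.a δ := by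
  have h1 := COEF_a s δ h0 h
  have h2 := COEF_a s (-δ) (neg_ne_zero.2 h0) (by rw [abs_neg]; exact h)
  have h3 := REL_Q_neg s δ
  have h4 : s.Q δ - 1 ≠ 0 := sub_ne_zero.2 (COEF_ne s δ h0 h)
  apply mul_right_cancel₀ h4
  linear_combination (-s.Q δ) * h2 + h1 + (s.a (-δ) - (s.Q 1 - 1)) * h3

theorem REL_a_one : s.a 1 = s.Q 1 := by
  have h1 := COEF_a s 1 (by norm_num) (by norm_num)
  have h4 : s.Q 1 - 1 ≠ 0 := sub_ne_zero.2 (COEF_ne s 1 (by norm_num) (by norm_num))
  apply mul_right_cancel₀ h4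
  rw [h1]; ring

theorem REL_a_neg_one : s.a (-1) = -1 := by
  rw [REL_a_neg s 1 (by norm_num) (by norm_num), REL_a_one]
  ring

theorem REL_SS (δ : ℤ) (h0 : δ ≠ 0) (h : |δ| ≤ 14) :
    REL_S s δ * REL_S s (-δ) = (s.Q 1 - s.a δ) * (s.a δ + 1) := by
  unfold REL_S
  rw [abs_neg]
  by_cases h2 : 2 ≤ |δ|
  · rw [if_pos h2, if_pos h2]
    have h4 : s.Q δ - 1 ≠ 0 := sub_ne_zero.2 (COEF_ne s δ h0 h)
    apply mul_right_cancel₀ (pow_ne_zero 2 h4)
    rw [COEF_b s δ h2 h, REL_Q_add]
    have h1 := COEF_a s δ h0 h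
    linear_combination (-(s.Q 1) * (s.Q δ - 1) + (s.Q δ - 1) + s.a δ * (s.Q δ - 1) + (s.Q 1 - 1) * s.Q δ) * h1
  · rw [if_neg h2, zero_mul]
    have h5 : δ = 1 ∨ δ = -1 := by
      have h6 : 0 < |δ| := abs_pos.2 h0
      rcases abs_cases δ with ⟨h7, h8⟩ | ⟨h7, h8⟩
      · left; omega
      · right; omega
    rcases h5 with rfl | rfl
    · rw [REL_a_one]; ring
    · rw [REL_a_neg_one]; ring

theorem REL_a_add (δ ε : ℤ) (hδ0 : δ ≠ 0) (hδ : |δ| ≤ 14) (hε0 : ε ≠ 0) (hε : |ε| ≤ 14)
    (h0 : δ + ε ≠ 0) (h : |δ + ε| ≤ 14) :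
    s.a δ * s.a ε = s.a (δ + ε) * (s.a δ + s.a ε - (s.Q 1 - 1)) := by
  have h1 := COEF_a s δ hδ0 hδ
  have h2 := COEF_a s ε hε0 hε
  have h3 := COEF_a s (δ + ε) h0 h
  have n1 : s.Q δ - 1 ≠ 0 := sub_ne_zero.2 (COEF_ne s δ hδ0 hδ)
  have n2 : s.Q ε - 1 ≠ 0 := sub_ne_zero.2 (COEF_ne s ε hε0 hε)
  have n3 : s.Q (δ + ε) - 1 ≠ 0 := sub_ne_zero.2 (COEF_ne s (δ + ε) h0 h)
  rw [REL_Q_add] at h3 n3
  apply mul_right_cancel₀ n1
  apply mul_right_cancel₀ n2
  apply mul_right_cancel₀ n3
  generalize s.a δ = x at *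
  generalize s.a ε = y at *
  generalize s.a (δ + ε) = w at *
  generalize s.Q δ = P at *
  generalize s.Q ε = R at *
  generalize s.Q 1 = q at *
  -- x (P-1) = (q-1) P, y (R-1) = (q-1) R, w (PR-1) = (q-1) PR
  linear_combination (y * (R - 1) * (P * R - 1) - w * (P * R - 1) * (R - 1)) * h1 +
    ((q - 1) * P * (P * R - 1) - w * (P * R - 1) * (P - 1)) * h2 -
    ((q - 1) * P * (R - 1) + (q - 1) * R * (P - 1) - (q - 1) * (P - 1) * (R - 1)) * h3

/-! ## Action on basis vectors -/

theorem REL_T (r : ℕ) (l : List ℤ) (h1 : 1 ≤ r) (h2 : r < l.length) :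
    s.T r (single l 1) = s.a (ent (r + 1) l - ent r l) • single l 1 +
      REL_S s (ent (r + 1) l - ent r l) • single (swp r l) 1 := by
  unfold Setup.T
  rw [REL_op_single _ _ r l h1 h2]
  rfl

theorem REL_T' (r : ℕ) (l : List ℤ) (x y : ℤ) (h1 : 1 ≤ r) (h2 : r < l.length)
    (hx : ent r l = x) (hy : ent (r + 1) l = y) :
    s.T r (single l 1) = s.a (y - x) • single l 1 + REL_S s (y - x) • single (swp r l) 1 := by
  rw [REL_T s r l h1 h2, hx, hy]

theorem REL_quad_l (r : ℕ) (l : List ℤ) (hl : InK l) (h1 : 1 ≤ r) (h2 : r < 32) :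
    s.T r (s.T r (single l 1)) = (s.Q 1 - 1) • s.T r (single l 1) + s.Q 1 • single l 1 := by
  have hlen := REL_InK_length l hl
  have h0 := REL_InK_ne l hl r h1 h2
  have h14 := REL_InK_bound l hl (r + 1) r (by omega) (by omega) h1 (by omega)
  have t1 := REL_T' s r l _ _ h1 (by omega) rfl rfl
  have t2 := REL_T' s r (swp r l) (ent (r + 1) l) (ent r l) h1 (by rw [REL_swp_length]; omega)
    (REL_ent_swp_left r l h1 (by omega)) (REL_ent_swp_right r l h1 (by omega))
  rw [REL_swp_swp] at t2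
  generalize ent (r + 1) l = y at *
  generalize ent r l = x at *
  have i1 := REL_a_neg s (y - x) h0 h14
  have i2 := REL_SS s (y - x) h0 h14
  rw [neg_sub] at i1 i2
  rw [t1, map_add, map_smul, map_smul, t1, t2]
  generalize (single l 1 : List ℤ →₀ K) = e at *
  generalize (single (swp r l) 1 : List ℤ →₀ K) = e1 at *
  linear_combination (norm := module) i2 • e + (REL_S s (y - x) * i1) • e1

theorem REL_braid_l (r : ℕ) (l : List ℤ) (hl : InK l) (h1 : 1 ≤ r) (h2 : r + 1 < 32) :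
    s.T r (s.T (r + 1) (s.T r (single l 1))) = s.T (r + 1) (s.T r (s.T (r + 1) (single l 1))) := by
  have hlen := REL_InK_length l hl
  have hx0 := REL_InK_ne l hl r h1 (by omega)
  have hy0 := REL_InK_ne l hl (r + 1) (by omega) (by omega)
  have hz0 := REL_InK_ne2 l hl r h1 (by omega)
  have hx14 := REL_InK_bound l hl (r + 1) r (by omega) (by omega) h1 (by omega)
  have hy14 := REL_InK_bound l hl (r + 2) (r + 1) (by omega) (by omega) (by omega) (by omega)
  have hz14 := REL_InK_bound l hl (r + 2) r (by omega) (by omega) (by omega) (by omega)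
  obtain ⟨x, hx⟩ : ∃ x, ent r l = x := ⟨_, rfl⟩
  obtain ⟨y, hy⟩ : ∃ y, ent (r + 1) l = y := ⟨_, rfl⟩
  obtain ⟨z, hz⟩ : ∃ z, ent (r + 2) l = z := ⟨_, rfl⟩
  have hlen1 : (swp r l).length = 32 := by rw [REL_swp_length]; exact hlen
  have hlen2 : (swp (r + 1) l).length = 32 := by rw [REL_swp_length]; exact hlen
  have hlen12 : (swp (r + 1) (swp r l)).length = 32 := by rw [REL_swp_length]; exact hlen1
  have hlen21 : (swp r (swp (r + 1) l)).length = 32 := by rw [REL_swp_length]; exact hlen2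
  -- the entries of the six lists
  have l1x : ent r (swp r l) = y := by rw [REL_ent_swp_left r l h1 (by omega), hy]
  have l1y : ent (r + 1) (swp r l) = x := by rw [REL_ent_swp_right r l h1 (by omega), hx]
  have l1z : ent (r + 2) (swp r l) = z := by rw [REL_ent_swp_ne r (r + 2) l (by omega) (by omega), hz]
  have l2x : ent r (swp (r + 1) l) = x := by
    rw [REL_ent_swp_ne (r + 1) r l (by omega) (by omega), hx]
  have l2y : ent (r + 1) (swp (r + 1) l) = z := by
    rw [REL_ent_swp_left (r + 1) l (by omega) (by omega)]; exact hz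
  have l2z : ent (r + 2) (swp (r + 1) l) = y := by
    rw [← hy]; exact REL_ent_swp_right (r + 1) l (by omega) (by omega)
  have l12x : ent r (swp (r + 1) (swp r l)) = y := by
    rw [REL_ent_swp_ne (r + 1) r _ (by omega) (by omega), l1x]
  have l12y : ent (r + 1) (swp (r + 1) (swp r l)) = z := by
    rw [REL_ent_swp_left (r + 1) _ (by omega) (by omega)]; exact l1z
  have l21y : ent (r + 1) (swp r (swp (r + 1) l)) = x := by
    rw [REL_ent_swp_right r _ (by omega) (by omega), l2x]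
  have l21z : ent (r + 2) (swp r (swp (r + 1) l)) = y := by
    rw [REL_ent_swp_ne r (r + 2) _ (by omega) (by omega), l2z]
  -- the actions
  have a1 := REL_T' s r l x y h1 (by omega) hx hy
  have a2 := REL_T' s (r + 1) l y z (by omega) (by omega) hy hz
  have b1 := REL_T' s r (swp r l) y x h1 (by omega) l1x l1y
  have b2 := REL_T' s (r + 1) (swp r l) x z (by omega) (by omega) l1y l1z
  have c1 := REL_T' s r (swp (r + 1) l) x z h1 (by omega) l2x l2y
  have c2 := REL_T' s (r + 1) (swp (r + 1) l) z y (by omega) (by omega) l2y l2z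
  have d1 := REL_T' s r (swp (r + 1) (swp r l)) y z h1 (by omega) l12x l12y
  have d2 := REL_T' s (r + 1) (swp r (swp (r + 1) l)) x y (by omega) (by omega) l21y l21z
  rw [REL_swp_swp] at b1 c2
  rw [REL_swp_braid r l h1 (by omega)] at d1
  rw [hx, hy] at hx0 hx14
  rw [show r + 1 + 1 = r + 2 from rfl, hy, hz] at hy0
  rw [hy, hz] at hy14
  rw [hx, hz] at hz0 hz14
  have i1 := REL_a_neg s (y - x) hx0 hx14
  have i2 := REL_SS s (y - x) hx0 hx14
  have i3 := REL_a_neg s (z - y) hy0 hy14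
  have i4 := REL_SS s (z - y) hy0 hy14
  have i5 := REL_a_add s (y - x) (z - y) hx0 hx14 hy0 hy14 (by intro h; apply hz0; omega)
    (by rw [show y - x + (z - y) = z - x by ring]; exact hz14)
  rw [show y - x + (z - y) = z - x by ring] at i5
  rw [neg_sub] at i1 i2 i3 i4
  have L : s.T r (s.T (r + 1) (s.T r (single l 1))) =
      (s.a (y - x) * s.a (z - y)) • (s.a (y - x) • single l 1 + REL_S s (y - x) • single (swp r l) 1) +
      (s.a (y - x) * REL_S s (z - y)) • (s.a (z - x) • single (swp (r + 1) l) 1 +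
        REL_S s (z - x) • single (swp r (swp (r + 1) l)) 1) +
      (REL_S s (y - x) * s.a (z - x)) • (s.a (x - y) • single (swp r l) 1 +
        REL_S s (x - y) • single l 1) +
      (REL_S s (y - x) * REL_S s (z - x)) • (s.a (z - y) • single (swp (r + 1) (swp r l)) 1 +
        REL_S s (z - y) • single (swp (r + 1) (swp r (swp (r + 1) l))) 1) := by
    rw [a1]
    simp only [map_add, map_smul]
    rw [a2, b2]
    simp only [map_add, map_smul]
    rw [a1, b1, c1, d1]
    module
  have R : s.T (r + 1) (s.T r (s.T (r + 1) (single l 1))) =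
      (s.a (z - y) * s.a (y - x)) • (s.a (z - y) • single l 1 +
        REL_S s (z - y) • single (swp (r + 1) l) 1) +
      (s.a (z - y) * REL_S s (y - x)) • (s.a (z - x) • single (swp r l) 1 +
        REL_S s (z - x) • single (swp (r + 1) (swp r l)) 1) +
      (REL_S s (z - y) * s.a (z - x)) • (s.a (y - z) • single (swp (r + 1) l) 1 +
        REL_S s (y - z) • single l 1) +
      (REL_S s (z - y) * REL_S s (z - x)) • (s.a (y - x) • single (swp r (swp (r + 1) l)) 1 +
        REL_S s (y - x) • single (swp (r + 1) (swp r (swp (r + 1) l))) 1) := by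
    rw [a2]
    simp only [map_add, map_smul]
    rw [a1, c1]
    simp only [map_add, map_smul]
    rw [a2, b2, c2, d2]
    module
  rw [L, R]
  generalize (single l 1 : List ℤ →₀ K) = e at *
  generalize (single (swp r l) 1 : List ℤ →₀ K) = e1 at *
  generalize (single (swp (r + 1) l) 1 : List ℤ →₀ K) = e2 at *
  generalize (single (swp (r + 1) (swp r l)) 1 : List ℤ →₀ K) = e12 at *
  generalize (single (swp r (swp (r + 1) l)) 1 : List ℤ →₀ K) = e21 at *
  generalize (single (swp (r + 1) (swp r (swp (r + 1) l))) 1 : List ℤ →₀ K) = e0 at *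
  generalize s.a (y - x) = aP at *
  generalize s.a (z - y) = aR at *
  generalize s.a (z - x) = aC at *
  generalize s.a (x - y) = aP' at *
  generalize s.a (y - z) = aR' at *
  generalize REL_S s (y - x) = sP at *
  generalize REL_S s (z - y) = sR at *
  generalize REL_S s (z - x) = sC at *
  generalize REL_S s (x - y) = sP' at *
  generalize REL_S s (y - z) = sR' at *
  generalize s.Q 1 = q at *
  linear_combination (norm := module) (aC * i2 - aC * i4 + (aP - aR) * i5) • e +
    (sP * (i5 + aC * i1)) • e1 + (sR * (-i5 - aC * i3)) • e2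

theorem REL_comm_l (i j : ℕ) (l : List ℤ) (hl : InK l) (h1 : 1 ≤ i) (h2 : i + 1 < j) (h3 : j < 32) :
    s.T i (s.T j (single l 1)) = s.T j (s.T i (single l 1)) := by
  have hlen := REL_InK_length l hl
  have hlen1 : (swp i l).length = 32 := by rw [REL_swp_length]; exact hlen
  have hlen2 : (swp j l).length = 32 := by rw [REL_swp_length]; exact hlen
  obtain ⟨x, hx⟩ : ∃ x, ent i l = x := ⟨_, rfl⟩
  obtain ⟨y, hy⟩ : ∃ y, ent (i + 1) l = y := ⟨_, rfl⟩
  obtain ⟨x', hx'⟩ : ∃ x, ent j l = x := ⟨_, rfl⟩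
  obtain ⟨y', hy'⟩ : ∃ y, ent (j + 1) l = y := ⟨_, rfl⟩
  have a1 := REL_T' s i l x y h1 (by omega) hx hy
  have a2 := REL_T' s j l x' y' (by omega) (by omega) hx' hy'
  have b1 := REL_T' s i (swp j l) x y h1 (by omega)
    (by rw [REL_ent_swp_ne j i l (by omega) (by omega), hx])
    (by rw [REL_ent_swp_ne j (i + 1) l (by omega) (by omega), hy])
  have b2 := REL_T' s j (swp i l) x' y' (by omega) (by omega)
    (by rw [REL_ent_swp_ne i j l (by omega) (by omega), hx'])
    (by rw [REL_ent_swp_ne i (j + 1) l (by omega) (by omega), hy'])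
  rw [← REL_swp_comm i j h2 l] at b2
  rw [a1, a2]
  simp only [map_add, map_smul]
  rw [a1, a2, b1, b2]
  module

/-! ## The Hecke system -/

theorem REL_ext (f g : (List ℤ →₀ K) →ₗ[K] (List ℤ →₀ K))
    (h : ∀ l, InK l → f (single l 1) = g (single l 1)) : ∀ v ∈ s.VK, f v = g v := by
  intro v hv
  unfold Setup.VK at hv
  rw [supported_eq_span_single] at hv
  refine LinearMap.eqOn_span' ?_ hv
  rintro _ ⟨l, hl, rfl⟩
  exact h l hl

theorem REL_single_mem (l : List ℤ) (hl : InK l) : (single l 1 : List ℤ →₀ K) ∈ s.VK :=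
  single_mem_supported K 1 hl

theorem REL_T_mem (r : ℕ) (h1 : 1 ≤ r) (h2 : r < 32) (v : List ℤ →₀ K) (hv : v ∈ s.VK) :
    s.T r v ∈ s.VK := by
  have hv' := hv
  unfold Setup.VK at hv'
  rw [supported_eq_span_single] at hv'
  refine Submodule.span_induction ?_ ?_ ?_ ?_ hv'
  · rintro _ ⟨l, hl, rfl⟩
    have hl' : InK l := hl
    rw [REL_T s r l h1 (by rw [REL_InK_length l hl']; exact h2)]
    refine Submodule.add_mem _ (Submodule.smul_mem _ _ (REL_single_mem s l hl')) ?_
    unfold REL_S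
    split_ifs with h
    · exact Submodule.smul_mem _ _ (REL_single_mem s _ (REL_InK_swp r l hl' h1 h2 h))
    · rw [zero_smul]; exact Submodule.zero_mem _
  · rw [map_zero]; exact Submodule.zero_mem _
  · intro x y _ _ hx hy
    rw [map_add]; exact Submodule.add_mem _ hx hy
  · intro a x _ hx
    rw [map_smul]; exact Submodule.smul_mem _ _ hx

/-- the operators on `VK` -/
noncomputable def REL_op (i : ℕ) : Module.End A s.VK :=
  if h : 1 ≤ i ∧ i < 32 then
    { toFun := fun v => ⟨s.T i v, REL_T_mem s i h.1 h.2 v v.2⟩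
      map_add' := fun u v => Subtype.ext (by simp)
      map_smul' := fun c v => Subtype.ext (by
        change s.T i (c • (v : List ℤ →₀ K)) = c • s.T i v
        exact LinearMap.map_smul_of_tower _ _ _) }
  else 0

theorem REL_op_coe (i : ℕ) (h1 : 1 ≤ i) (h2 : i < 32) (v : s.VK) :
    ((REL_op s i v : s.VK) : List ℤ →₀ K) = s.T i v := by
  unfold REL_op
  rw [dif_pos ⟨h1, h2⟩]
  rfl

theorem REL_sys : ∃ H : HSys A s.VK s.q 32,
    ∀ i, 1 ≤ i → i < 32 → ∀ v : s.VK, ((H.T i v : s.VK) : List ℤ →₀ K) = s.T i v := by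
  refine ⟨⟨REL_op s, ?_, ?_, ?_⟩, ?_⟩
  · intro i h1 h2 x
    apply Subtype.ext
    have h := REL_ext s (s.T i ∘ₗ s.T i) ((s.Q 1 - 1) • s.T i + s.Q 1 • LinearMap.id)
      (fun l hl => REL_quad_l s i l hl h1 h2) x x.2
    rw [REL_op_coe s i h1 h2, REL_op_coe s i h1 h2]
    change s.T i (s.T i (x : List ℤ →₀ K)) = (s.q - 1) • ((REL_op s i x : s.VK) : List ℤ →₀ K) +
      s.q • (x : List ℤ →₀ K)
    rw [REL_op_coe s i h1 h2, ← algebraMap_smul K (s.q - 1), ← algebraMap_smul K s.q, map_sub, map_one,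
      ← REL_Q_one]
    exact h
  · intro i h1 h2 x
    apply Subtype.ext
    have h := REL_ext s (s.T i ∘ₗ s.T (i + 1) ∘ₗ s.T i) (s.T (i + 1) ∘ₗ s.T i ∘ₗ s.T (i + 1))
      (fun l hl => REL_braid_l s i l hl h1 h2) x x.2
    rw [REL_op_coe s i h1 (by omega), REL_op_coe s (i + 1) (by omega) h2, REL_op_coe s i h1 (by omega),
      REL_op_coe s (i + 1) (by omega) h2, REL_op_coe s i h1 (by omega),
      REL_op_coe s (i + 1) (by omega) h2]
    exact h
  · intro i j h1 h2 h3 x
    apply Subtype.ext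
    have h := REL_ext s (s.T i ∘ₗ s.T j) (s.T j ∘ₗ s.T i)
      (fun l hl => REL_comm_l s i j l hl h1 h2 h3) x x.2
    rw [REL_op_coe s i h1 (by omega), REL_op_coe s j (by omega) h3,
      REL_op_coe s j (by omega) h3, REL_op_coe s i h1 (by omega)]
    exact h
  · intro i h1 h2 v
    exact REL_op_coe s i h1 h2 v

/-! ## Rows and columns -/

theorem REL_row (i : ℕ) (hi : i ∈ rowIdx) : s.T i s.z = algebraMap A K s.q • s.z := by
  have hlen : rowL.length = 32 := rfl
  have h0 : ∀ i ∈ rowIdx, 1 ≤ i ∧ i < 32 ∧ ent (i + 1) rowL - ent i rowL = 1 := by decide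
  obtain ⟨h1, h2, h3⟩ := h0 i hi
  have e : s.z = s.tz 8 • single rowL 1 := by
    unfold Setup.z
    rw [smul_single, smul_eq_mul, mul_one]
  rw [e, map_smul, REL_T s i rowL h1 (by rw [hlen]; exact h2), h3, REL_a_one, REL_Q_one]
  unfold REL_S
  rw [if_neg (by norm_num), zero_smul, add_zero, smul_comm]

theorem REL_col (i : ℕ) (hi : i ∈ colIdx) : s.T i s.z' = - s.z' := by
  have hlen : colL.length = 32 := rfl
  have h0 : ∀ i ∈ colIdx, 1 ≤ i ∧ i < 32 ∧ ent (i + 1) colL - ent i colL = -1 := by decide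
  obtain ⟨h1, h2, h3⟩ := h0 i hi
  have e : s.z' = s.tz (-2) • single colL 1 := by
    unfold Setup.z'
    rw [smul_single, smul_eq_mul, mul_one]
  rw [e, map_smul, REL_T s i colL h1 (by rw [hlen]; exact h2), h3, REL_a_neg_one]
  unfold REL_S
  rw [if_neg (by norm_num), zero_smul, add_zero, smul_comm, neg_one_smul]

end

end J3
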