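import Pool.Agent.J3.Defs

/-!
# Combinatorics of standard content lists, and the local operators on basis vectors (MP_36c429_al)
-/

set_option autoImplicit false

namespace J3

open Finsupp

/-! ## Combinatorics of lists -/

/-- the entry (content) of the letter `r` -/
def ent (r : ℕ) : List ℤ → ℤ
  | [] => 0
  | c :: l => if l.length + 1 = r then c else ent r l

theorem REL_ent_cons_eq (r : ℕ) (c : ℤ) (l : List ℤ) (h : l.length + 1 = r) : ent r (c :: l) = c := by
  simp [ent, h]

theorem REL_ent_cons_ne (r : ℕ) (c : ℤ) (l : List ℤ) (h : l.length + 1 ≠ r) :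
    ent r (c :: l) = ent r l := by
  simp [ent, h]

theorem REL_swp_cons (r : ℕ) (x : ℤ) (l : List ℤ) (h : l.length ≠ r) :
    swp r (x :: l) = x :: swp r l := by
  cases l with
  | nil => simp [swp]
  | cons c l => 
    have h' : l.length + 1 ≠ r := by simpa using h
    simp [swp, h']

theorem REL_swp_top (r : ℕ) (c' c : ℤ) (l : List ℤ) (h : l.length + 1 = r) :
    swp r (c' :: c :: l) = c :: c' :: l := by
  simp [swp, h]

theorem REL_swp_perm (r : ℕ) (l : List ℤ) : (swp r l).Perm l := by
  induction l with
  | nil => simp [swp]
  | cons x l ih =>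
    by_cases h : l.length = r
    · cases l with
      | nil => simp [swp]
      | cons c l =>
        rw [REL_swp_top r x c l (by simpa using h)]
        exact List.Perm.swap _ _ _
    · rw [REL_swp_cons r x l h]
      exact ih.cons x

theorem REL_swp_length (r : ℕ) (l : List ℤ) : (swp r l).length = l.length := (REL_swp_perm r l).length_eq

theorem REL_ent_mem (r : ℕ) (l : List ℤ) (h1 : 1 ≤ r) (h2 : r ≤ l.length) : ent r l ∈ l := by
  induction l with
  | nil => simp at h2; omega
  | cons x l ih =>
    by_cases h : l.length + 1 = r
    · rw [REL_ent_cons_eq r x l h]; simp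
    · rw [REL_ent_cons_ne r x l h]
      exact List.mem_cons_of_mem _ (ih (by simp at h2; omega))

theorem REL_swp_swp (r : ℕ) (l : List ℤ) : swp r (swp r l) = l := by
  induction l with
  | nil => simp [swp]
  | cons x l ih =>
    by_cases h : l.length = r
    · cases l with
      | nil => simp [swp]
      | cons c l =>
        rw [REL_swp_top r x c l (by simpa using h), REL_swp_top r c x l (by simpa using h)]
    · rw [REL_swp_cons r x l h, REL_swp_cons r x _ (by rw [REL_swp_length]; exact h), ih]

theorem REL_ent_swp_left (r : ℕ) (l : List ℤ) (h1 : 1 ≤ r) (h2 : r < l.length) :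
    ent r (swp r l) = ent (r + 1) l := by
  induction l with
  | nil => simp at h2
  | cons x l ih =>
    by_cases h : l.length = r
    · cases l with
      | nil => simp at h2; omega
      | cons c l =>
        have h' : l.length + 1 = r := by simpa using h
        rw [REL_swp_top r x c l h', REL_ent_cons_ne r c (x :: l) (by simp; omega),
          REL_ent_cons_eq r x l h', REL_ent_cons_eq (r+1) x (c :: l) (by simp; omega)]
    · simp only [List.length_cons] at h2
      rw [REL_swp_cons r x l h, REL_ent_cons_ne r x _ (by rw [REL_swp_length]; omega),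
        REL_ent_cons_ne (r+1) x _ (by omega), ih (by omega)]

theorem REL_ent_swp_right (r : ℕ) (l : List ℤ) (h1 : 1 ≤ r) (h2 : r < l.length) :
    ent (r + 1) (swp r l) = ent r l := by
  have := REL_ent_swp_left r (swp r l) h1 (by rw [REL_swp_length]; exact h2)
  rw [REL_swp_swp] at this
  exact this.symm

theorem REL_ent_swp_ne (r k : ℕ) (l : List ℤ) (hk1 : k ≠ r) (hk2 : k ≠ r + 1) :
    ent k (swp r l) = ent k l := by
  induction l with
  | nil => simp [swp]
  | cons x l ih =>
    by_cases h : l.length = r
    · cases l with
      | nil => simp [swp]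
      | cons c l =>
        have h' : l.length + 1 = r := by simpa using h
        rw [REL_swp_top r x c l h', REL_ent_cons_ne k c (x :: l) (by simp; omega),
          REL_ent_cons_ne k x l (by omega), REL_ent_cons_ne k x (c :: l) (by simp; omega),
          REL_ent_cons_ne k c l (by omega)]
    · rw [REL_swp_cons r x l h]
      by_cases h3 : l.length + 1 = k
      · rw [REL_ent_cons_eq k x _ (by rw [REL_swp_length]; exact h3), REL_ent_cons_eq k x _ h3]
      · rw [REL_ent_cons_ne k x _ (by rw [REL_swp_length]; exact h3), REL_ent_cons_ne k x _ h3, ih]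

theorem REL_swp_comm (i j : ℕ) (hij : i + 1 < j) (l : List ℤ) :
    swp i (swp j l) = swp j (swp i l) := by
  induction l with
  | nil => simp [swp]
  | cons x l ih =>
    by_cases hj : l.length = j
    · cases l with
      | nil => simp [swp]
      | cons c l =>
        have hj' : l.length + 1 = j := by simpa using hj
        rw [REL_swp_top j x c l hj', REL_swp_cons i c (x :: l) (by simp; omega),
          REL_swp_cons i x l (by omega), REL_swp_cons i x (c :: l) (by simp; omega),
          REL_swp_cons i c l (by omega), REL_swp_top j x c _ (by rw [REL_swp_length]; exact hj')]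
    · by_cases hi : l.length = i
      · rw [REL_swp_cons j x l hj]
        cases l with
        | nil => simp [swp]
        | cons c l =>
          have hi' : l.length + 1 = i := by simpa using hi
          rw [REL_swp_cons j c l (by omega), REL_swp_top i x c l hi',
            REL_swp_top i x c _ (by rw [REL_swp_length]; exact hi'),
            REL_swp_cons j c (x :: l) (by simp; omega), REL_swp_cons j x l (by omega)]
      · rw [REL_swp_cons j x l hj, REL_swp_cons i x l hi,
          REL_swp_cons i x _ (by rw [REL_swp_length]; exact hi),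
          REL_swp_cons j x _ (by rw [REL_swp_length]; exact hj), ih]

theorem REL_swp_braid (r : ℕ) (l : List ℤ) (h1 : 1 ≤ r) (h2 : r + 1 < l.length) :
    swp r (swp (r + 1) (swp r l)) = swp (r + 1) (swp r (swp (r + 1) l)) := by
  induction l with
  | nil => simp at h2
  | cons x l ih =>
    simp only [List.length_cons] at h2
    by_cases h : l.length = r + 1
    · match l, h with
      | c :: d :: l, h =>
        have h' : l.length + 1 = r := by simp at h; omega
        rw [REL_swp_cons r x (c :: d :: l) (by simp; omega), REL_swp_top r c d l h',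
          REL_swp_top (r+1) x d (c :: l) (by simp; omega), REL_swp_cons r d _ (by simp; omega),
          REL_swp_top r x c l h', REL_swp_top (r+1) x c (d :: l) (by simp; omega),
          REL_swp_cons r c _ (by simp; omega), REL_swp_top r x d l h',
          REL_swp_top (r+1) c d (x :: l) (by simp; omega)]
      | [c], h => simp at h; omega
      | [], h => simp at h
    · have e1 : ∀ l' : List ℤ, l'.length = l.length → swp r (x :: l') = x :: swp r l' :=
        fun l' hl' => REL_swp_cons r x l' (by omega)
      have e2 : ∀ l' : List ℤ, l'.length = l.length → swp (r+1) (x :: l') = x :: swp (r+1) l' :=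
        fun l' hl' => REL_swp_cons (r+1) x l' (by omega)
      rw [e1 _ rfl, e2 _ (by simp only [REL_swp_length]), e1 _ (by simp only [REL_swp_length]),
        e2 _ rfl, e1 _ (by simp only [REL_swp_length]), e2 _ (by simp only [REL_swp_length]),
        ih (by omega)]

/-! ## Standard lists -/

theorem REL_add3 (f : ℤ → ℕ) (x d : ℤ) (h1 : Addable f x)
    (h2 : Addable (fun e => f e + if e = x then 1 else 0) d)
    (h3 : Addable (fun e => f e + (if e = x then 1 else 0) + (if e = d then 1 else 0)) x) : False := by
  unfold Addable at h1 h2 h3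
  obtain ⟨a1, a2, a3, a4⟩ := h1
  obtain ⟨b1, b2, b3, b4⟩ := h2
  obtain ⟨c1, c2, c3, c4⟩ := h3
  simp only [] at c1 c2 c3 c4 b1 b2 b3 b4
  by_cases hd0 : d = x
  · subst hd0
    rcases le_total 0 d with hx | hx
    · have h := b1 hx
      have h' := a1 hx
      split_ifs at h <;> omega
    · have h := b2 hx
      have h' := a2 hx
      split_ifs at h <;> omega
  clear b1 b2 b3 b4
  by_cases hd1 : d = x + 1
  · rcases le_or_gt x 0 with hx | hx
    · have h := c2 hx
      have h' := a2 hx
      split_ifs at h <;> omega
    · have h := c3 hx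
      have h' := a3 hx
      split_ifs at h <;> omega
  rcases le_or_gt 0 x with hx | hx
  · have h := c1 hx
    have h' := a1 hx
    split_ifs at h <;> omega
  · have h := c4 hx
    have h' := a4 hx
    split_ifs at h <;> omega

theorem REL_count (l : List ℤ) (x e : ℤ) :
    (x :: l).count e = l.count e + if e = x then 1 else 0 := by
  rw [List.count_cons]
  by_cases h : x = e
  · simp [h]
  · have h' : ¬ e = x := fun h'' => h h''.symm
    simp [h, h']

theorem REL_std_ne (r : ℕ) (l : List ℤ) (hl : IsStd l) (h1 : 1 ≤ r) (h2 : r < l.length) :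
    ent (r + 1) l ≠ ent r l := by
  induction l with
  | nil => simp at h2
  | cons x l ih =>
    simp only [List.length_cons] at h2
    by_cases h : l.length = r
    · match l, h with
      | c :: l, h =>
        have h' : l.length + 1 = r := by simpa using h
        rw [REL_ent_cons_eq (r+1) x (c :: l) (by simp; omega),
          REL_ent_cons_ne r x (c :: l) (by simp; omega), REL_ent_cons_eq r c l h']
        rintro rfl
        obtain ⟨ha, hb, -⟩ := hl
        unfold Addable at ha hb
        simp only [List.count_cons] at ha
        obtain ⟨a1, a2, a3, a4⟩ := ha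
        obtain ⟨b1, b2, b3, b4⟩ := hb
        rcases le_total 0 x with hx | hx
        · have := a1 hx
          have := b1 hx
          simp at *
          omega
        · have := a2 hx
          have := b2 hx
          simp at *
          omega
      | [], h => simp at h; omega
    · rw [REL_ent_cons_ne (r+1) x l (by omega), REL_ent_cons_ne r x l (by omega)]
      exact ih hl.2 (by omega)

theorem REL_std_ne2 (r : ℕ) (l : List ℤ) (hl : IsStd l) (h1 : 1 ≤ r) (h2 : r + 1 < l.length) :
    ent (r + 2) l ≠ ent r l := by
  induction l with
  | nil => simp at h2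
  | cons x l ih =>
    simp only [List.length_cons] at h2
    by_cases h : l.length = r + 1
    · match l, h with
      | d :: c :: l, h =>
        have h' : l.length + 1 = r := by simp at h; omega
        rw [REL_ent_cons_eq (r+2) x (d :: c :: l) (by simp; omega),
          REL_ent_cons_ne r x (d :: c :: l) (by simp; omega),
          REL_ent_cons_ne r d (c :: l) (by simp; omega), REL_ent_cons_eq r c l h']
        rintro rfl
        obtain ⟨ha, hb, hc, -⟩ := hl
        simp only [REL_count] at ha hb
        exact REL_add3 _ _ _ hc hb ha
      | [c], h => simp at h; omega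
      | [], h => simp at h
    · rw [REL_ent_cons_ne (r+2) x l (by omega), REL_ent_cons_ne r x l (by omega)]
      exact ih hl.2 (by omega)

theorem REL_add_congr (f g : ℤ → ℕ) (c : ℤ) (h0 : f c = g c) (h1 : f (c + 1) = g (c + 1))
    (h2 : f (c - 1) = g (c - 1)) (h : Addable f c) : Addable g c := by
  unfold Addable at h ⊢
  rw [← h0, ← h1, ← h2]
  exact h

theorem REL_std_swp (r : ℕ) (l : List ℤ) (hl : IsStd l) (h1 : 1 ≤ r) (h2 : r < l.length)
    (h3 : 2 ≤ |ent (r + 1) l - ent r l|) : IsStd (swp r l) := by
  induction l with
  | nil => simp at h2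
  | cons x l ih =>
    simp only [List.length_cons] at h2
    by_cases h : l.length = r
    · match l, h with
      | c :: l, h =>
        have h' : l.length + 1 = r := by simpa using h
        rw [REL_ent_cons_eq (r+1) x (c :: l) (by simp; omega),
          REL_ent_cons_ne r x (c :: l) (by simp; omega), REL_ent_cons_eq r c l h'] at h3
        rw [REL_swp_top r x c l h']
        obtain ⟨ha, hb, hc⟩ := hl
        have hd : x - c ≤ -2 ∨ 2 ≤ x - c := by
          rcases le_abs.1 h3 with h | h
          · right; exact h
          · left; omega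
        simp only [REL_count] at ha
        refine ⟨?_, ?_, hc⟩
        · simp only [REL_count]
          refine REL_add_congr _ _ _ ?_ ?_ ?_ hb
          · rw [if_neg (by omega), add_zero]
          · rw [if_neg (by omega), add_zero]
          · rw [if_neg (by omega), add_zero]
        · refine REL_add_congr _ _ _ ?_ ?_ ?_ ha
          · rw [if_neg (by omega), add_zero]
          · rw [if_neg (by omega), add_zero]
          · rw [if_neg (by omega), add_zero]
      | [], h => simp at h; omega
    · rw [REL_ent_cons_ne (r+1) x l (by omega), REL_ent_cons_ne r x l (by omega)] at h3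
      rw [REL_swp_cons r x l h]
      refine ⟨?_, ih hl.2 (by omega) h3⟩
      have e : (fun d => (swp r l).count d) = fun d => l.count d := by
        funext d
        exact (REL_swp_perm r l).count_eq d
      rw [e]
      exact hl.1

theorem REL_InK_length (l : List ℤ) (hl : InK l) : l.length = 32 := by
  rw [hl.2.length_eq]; rfl

theorem REL_InK_swp (r : ℕ) (l : List ℤ) (hl : InK l) (h1 : 1 ≤ r) (h2 : r < 32)
    (h3 : 2 ≤ |ent (r + 1) l - ent r l|) : InK (swp r l) :=
  ⟨REL_std_swp r l hl.1 h1 (by rw [REL_InK_length l hl]; exact h2) h3, (REL_swp_perm r l).trans hl.2⟩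

theorem REL_InK_mem (l : List ℤ) (hl : InK l) (c : ℤ) (hc : c ∈ l) : -8 ≤ c ∧ c ≤ 6 := by
  have h : c ∈ rowL := hl.2.subset hc
  have : ∀ c ∈ rowL, -8 ≤ c ∧ c ≤ 6 := by decide
  exact this c h

theorem REL_InK_ent (l : List ℤ) (hl : InK l) (r : ℕ) (h1 : 1 ≤ r) (h2 : r ≤ 32) :
    -8 ≤ ent r l ∧ ent r l ≤ 6 :=
  REL_InK_mem l hl _ (REL_ent_mem r l h1 (by rw [REL_InK_length l hl]; exact h2))

theorem REL_InK_bound (l : List ℤ) (hl : InK l) (r k : ℕ) (h1 : 1 ≤ r) (h2 : r ≤ 32)
    (h3 : 1 ≤ k) (h4 : k ≤ 32) : |ent r l - ent k l| ≤ 14 := by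
  have := REL_InK_ent l hl r h1 h2
  have := REL_InK_ent l hl k h3 h4
  rw [abs_le]
  constructor <;> omega

theorem REL_InK_ne (l : List ℤ) (hl : InK l) (r : ℕ) (h1 : 1 ≤ r) (h2 : r < 32) :
    ent (r + 1) l - ent r l ≠ 0 :=
  sub_ne_zero.2 (REL_std_ne r l hl.1 h1 (by rw [REL_InK_length l hl]; exact h2))

theorem REL_InK_ne2 (l : List ℤ) (hl : InK l) (r : ℕ) (h1 : 1 ≤ r) (h2 : r + 1 < 32) :
    ent (r + 2) l - ent r l ≠ 0 :=
  sub_ne_zero.2 (REL_std_ne2 r l hl.1 h1 (by rw [REL_InK_length l hl]; exact h2))

/-! ## Local operators -/

section op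
variable {R : Type*} [CommRing R]

theorem REL_opB (D S : ℤ → R) (r : ℕ) (l : List ℤ) (h1 : 1 ≤ r) (h2 : r < l.length) :
    opB D S r l = single l (D (ent (r + 1) l - ent r l)) +
      single (swp r l) (S (ent (r + 1) l - ent r l)) := by
  induction l with
  | nil => simp at h2
  | cons x l ih =>
    simp only [List.length_cons] at h2
    match l, ih, h2 with
    | [], _, h2 => simp at h2; omega
    | c :: l, ih, h2 =>
      by_cases h : l.length + 1 = r
      · rw [REL_ent_cons_eq (r+1) x (c :: l) (by simp; omega),
          REL_ent_cons_ne r x (c :: l) (by simp; omega), REL_ent_cons_eq r c l h,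
          REL_swp_top r x c l h]
        simp [opB, h]
      · rw [REL_ent_cons_ne (r+1) x (c :: l) (by simp; omega),
          REL_ent_cons_ne r x (c :: l) (by simp at h2 ⊢; omega),
          REL_swp_cons r x (c :: l) (by simpa using h)]
        have := ih (by simp at h2 ⊢; omega)
        simp only [opB, h, if_false]
        rw [this, mapDomain_add, mapDomain_single, mapDomain_single]

theorem REL_op_single (D S : ℤ → R) (r : ℕ) (l : List ℤ) (h1 : 1 ≤ r) (h2 : r < l.length) :
    op D S r (single l 1) = D (ent (r + 1) l - ent r l) • single l 1 +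
      S (ent (r + 1) l - ent r l) • single (swp r l) 1 := by
  unfold op
  rw [linearCombination_single, one_smul, REL_opB D S r l h1 h2, smul_single, smul_single,
    smul_eq_mul, smul_eq_mul, mul_one, mul_one]

end op

end J3
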