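import Pool.Agent.J3.Defs

/-!
# J3: module RING (existence of the setup over the 13-adic integers)
-/

set_option autoImplicit false

namespace J3
open Finsupp

/-- a primitive cube root of unity in the 13-adic integers, congruent to 22 modulo 169 -/
theorem RING_zeta : ∃ z : ℤ_[13], z ^ 2 + z + 1 = 0 ∧ PadicInt.toZModPow 2 z = 22 := by
  have h13 : ‖(13 : ℤ_[13])‖ < 1 := by
    have := (PadicInt.norm_natCast_lt_one_iff (p := 13) (n := 13)).2 (dvd_refl 13)
    exact_mod_cast this
  have h45 : ‖(45 : ℤ_[13])‖ = 1 := by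
    have := (PadicInt.norm_natCast_eq_one_iff (p := 13) (n := 45)).2 (by norm_num)
    exact_mod_cast this
  have h507 : ‖(507 : ℤ_[13])‖ < 1 := by
    have := (PadicInt.norm_natCast_lt_one_iff (p := 13) (n := 507)).2 (by norm_num)
    exact_mod_cast this
  let F : Polynomial ℤ_[13] := Polynomial.X ^ 2 + Polynomial.X + 1
  have hF : F.aeval (22 : ℤ_[13]) = (507 : ℤ_[13]) := by
    simp [F]
    norm_num
  have hF' : F.derivative.aeval (22 : ℤ_[13]) = (45 : ℤ_[13]) := by
    simp [F]
    norm_num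
  obtain ⟨z, hz, hz2, -, -⟩ := hensels_lemma (p := 13) (F := F) (a := (22 : ℤ_[13])) (by
    rw [hF, hF', h45]
    simpa using h507)
  have hz' : z ^ 2 + z + 1 = 0 := by simpa [F] using hz
  refine ⟨z, hz', ?_⟩
  rw [hF', h45] at hz2
  have h1 : (z - 22) * (z + 23) = -507 := by linear_combination hz'
  have h2 : IsUnit (z + 23) := by
    rw [PadicInt.isUnit_iff]
    have h3 : z + 23 = (z - 22) + 45 := by ring
    rw [h3]
    have h4 : ‖z - 22‖ ≠ ‖(45 : ℤ_[13])‖ := by
      rw [h45]
      exact hz2.ne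
    rw [PadicInt.norm_add_eq_max_of_ne h4, h45]
    exact max_eq_right hz2.le
  have h5 := congrArg (PadicInt.toZModPow (p := 13) 2) h1
  have h6 : IsUnit (PadicInt.toZModPow (p := 13) 2 (z + 23)) := h2.map _
  rw [map_mul, map_neg] at h5
  have h7 : PadicInt.toZModPow (p := 13) 2 (507 : ℤ_[13]) = 0 := by
    have : (507 : ℤ_[13]) = ((507 : ℕ) : ℤ_[13]) := by norm_num
    rw [this, map_natCast]
    exact (ZMod.natCast_eq_zero_iff 507 (13 ^ 2)).2 (by norm_num)
  rw [h7, neg_zero] at h5
  have h8 := (h6.mul_left_eq_zero).1 h5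
  rw [map_sub, sub_eq_zero] at h8
  rw [h8]
  exact map_ofNat _ 22

theorem RING_exists_setup :
    ∃ s : Setup ℤ_[13] (PowerSeries ℤ_[13]) (LaurentSeries ℤ_[13]),
      PadicInt.toZModPow 2 s.zeta = 22 := by
  obtain ⟨z, hz, hz2⟩ := RING_zeta
  refine ⟨{
    ev := PowerSeries.constantCoeff
    cst := PowerSeries.C
    ev_cst := fun x => by simp
    t := PowerSeries.X
    ev_t := by simp
    ker_ev := fun a ha => by
      obtain ⟨b, hb⟩ := PowerSeries.X_dvd_iff.2 ha
      exact ⟨b, hb⟩
    isUnit_of_ev := fun a ha => PowerSeries.isUnit_iff_constantCoeff.2 ha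
    inj := by
      rw [LaurentSeries.coe_algebraMap]
      exact HahnSeries.ofPowerSeries_injective
    tK_unit := by
      rw [LaurentSeries.coe_algebraMap, HahnSeries.ofPowerSeries_X]
      refine IsUnit.of_mul_eq_one (HahnSeries.single (-1) 1) ?_
      rw [HahnSeries.single_mul_single]
      simp
    sat := ?_
    zeta := z
    hzeta := hz
    hunit := fun m h0 h1 => by
      rw [PadicInt.isUnit_iff, PadicInt.norm_natCast_eq_one_iff]
      refine (Nat.Prime.coprime_iff_not_dvd (by norm_num)).2 ?_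
      intro h
      exact absurd (Nat.le_of_dvd h0 h) (by omega) }, hz2⟩
  intro a x hax
  refine ⟨PowerSeries.mk fun n => x.coeff (n : ℤ), ?_⟩
  ext n
  have h1 : (algebraMap (PowerSeries ℤ_[13]) (LaurentSeries ℤ_[13]) a).coeff (n : ℤ) =
      PowerSeries.coeff n a := by
    rw [LaurentSeries.coe_algebraMap]
    exact HahnSeries.ofPowerSeries_apply_coeff a n
  have h2 : ((13 : LaurentSeries ℤ_[13]) * x).coeff (n : ℤ) = 13 * x.coeff (n : ℤ) := by
    have e : (13 : LaurentSeries ℤ_[13]) * x = (13 : ℕ) • x := by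
      rw [nsmul_eq_mul]
      rfl
    rw [e, HahnSeries.coeff_nsmul, Pi.smul_apply, nsmul_eq_mul]
    rfl
  have h3 : PowerSeries.coeff n ((13 : PowerSeries ℤ_[13]) *
      PowerSeries.mk fun n => x.coeff (n : ℤ)) = 13 * x.coeff (n : ℤ) := by
    have e : (13 : PowerSeries ℤ_[13]) = PowerSeries.C (13 : ℤ_[13]) := (map_ofNat _ 13).symm
    rw [e, PowerSeries.coeff_C_mul, PowerSeries.coeff_mk]
  rw [← h1, hax, h2, h3]

end J3
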