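import Pool.Agent.J3.Defs

/-! The words of the certificate -/

set_option autoImplicit false

namespace J3

/-- coefficients and words (as position lists, last letter first) for `v₁`, starting from the row reading tableau -/
def omegaData : List (ℤ × List ℕ) :=
  [(19, [23,6,29,27,18,25,25,23,14,21,21,19,5,17,17,15,9,4,13,10,11,7,9,6,7,3,5,2,3,1,1,0]),
   (72, [29,6,29,28,10,26,5,23,4,19,21,18,19,15,17,14,15,11,13,10,11,7,9,6,7,3,5,2,3,1,1,0]),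
   (141, [29,6,29,28,25,26,22,24,21,22,10,20,5,16,4,14,15,11,13,10,11,7,9,6,7,3,5,2,3,1,1,0]),
   (80, [29,6,29,28,25,26,22,24,21,22,18,20,17,18,14,16,10,14,5,11,4,7,9,6,7,3,5,2,3,1,1,0])]

/-- coefficients and words for the negative degree vectors, starting from the column reading tableau -/
def tauData : List (ℤ × List ℕ) :=
  [(9, [22,28,8,7,27,13,25,18,23,22,6,16,11,18,5,13,9,14,4,10,7,10,3,7,5,6,2,4,3,2,1,0]),
   (3, [22,30,8,28,27,14,7,18,23,22,6,16,11,18,5,13,9,14,4,10,7,10,3,7,5,6,2,4,3,2,1,0]),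
   (6, [27,26,25,22,27,15,25,20,19,14,21,8,16,12,17,7,13,10,13,6,10,8,9,5,7,6,5,4,3,2,1,0]),
   (12, [22,28,8,25,20,19,7,24,13,22,6,20,11,18,5,13,9,14,4,10,7,10,3,7,5,6,2,4,3,2,1,0]),
   (12, [22,30,15,25,20,19,14,21,8,16,12,11,7,17,15,16,12,14,13,6,10,8,9,5,7,6,5,4,3,2,1,0]),
   (4, [22,30,15,25,24,8,25,19,21,13,21,17,16,12,17,7,13,10,13,6,10,8,9,5,7,6,5,4,3,2,1,0]),
   (11, [22,28,15,25,24,8,7,18,20,12,21,16,19,11,17,14,13,10,13,6,10,8,9,5,7,6,5,4,3,2,1,0]),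
   (3, [22,30,15,28,27,26,25,20,19,14,21,8,16,12,17,7,13,10,13,6,10,8,9,5,7,6,5,4,3,2,1,0]),
   (6, [22,21,15,14,27,8,22,21,20,7,6,15,14,17,5,16,9,14,4,10,7,10,3,7,5,6,2,4,3,2,1,0]),
   (4, [22,30,8,7,19,13,22,23,17,12,6,5,19,17,17,13,9,14,4,10,7,10,3,7,5,6,2,4,3,2,1,0]),
   (8, [27,26,8,21,27,23,7,19,13,22,6,16,11,18,5,13,9,14,4,10,7,10,3,7,5,6,2,4,3,2,1,0]),
   (6, [27,26,8,21,25,14,7,18,20,12,6,15,16,10,5,12,15,8,13,10,11,7,9,8,7,6,5,4,3,2,1,0]),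
   (7, [22,21,15,24,25,19,14,24,8,22,20,19,16,12,17,7,13,10,13,6,10,8,9,5,7,6,5,4,3,2,1,0]),
   (1, [22,28,15,25,20,19,14,21,8,16,12,17,7,18,10,16,6,14,13,11,10,8,9,5,7,6,5,4,3,2,1,0]),
   (2, [22,30,8,25,20,19,7,21,13,22,6,18,11,18,5,13,9,8,4,9,11,10,3,7,5,6,2,4,3,2,1,0]),
   (8, [22,28,8,25,20,14,7,6,16,11,18,5,13,9,14,4,15,7,13,9,11,10,3,7,5,6,2,4,3,2,1,0]),
   (8, [22,30,8,7,19,13,22,6,16,11,18,5,13,9,14,4,14,7,13,3,11,10,8,7,5,6,2,4,3,2,1,0]),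
   (4, [22,28,8,25,20,19,7,21,13,16,6,17,11,13,5,13,9,10,4,12,7,10,3,8,5,6,2,4,3,2,1,0])]

end J3
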